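import Pool.Agent.TH217.BE2

/-!
The main theorem.
-/

set_option autoImplicit false

namespace Pool.Agent.TH217.BA

open Filter Metric Set Topology Pool.Agent.TH217.BC

/-- no entire solution of `a' = C a²` -/
theorem riccati {a : ℂ → ℂ} (ha : Differentiable ℂ a) {C : ℂ} (hC : C ≠ 0)
    (h : ∀ z, deriv a z = C * a z ^ 2) : ∀ z, a z = 0 := by
  have hF : ∀ i : Unit, Differentiable ℂ ((fun _ : Unit => a) i) := fun _ => ha
  have h1 := (DD (ctx hF)).f1 (c := em (el hF ())) (r := em (cst _ C)) ⟨_, rfl⟩ (by
      change dK _ _ = 0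
      rw [dK_em]
      have : dRg (ctx hF) (cst _ C) = 0 := by
        apply Subtype.ext; funext z
        rw [dRg_apply]
        change deriv (fun _ : ℂ => C) z = 0
        simp
      rw [this, em_zero]) (by
      apply em_ne
      intro h
      have := congrArg (fun f : Rg (ctx hF) => (f : ℂ → ℂ) 0) h
      exact hC this) (by
      change dK _ _ = _
      rw [dK_em, sq, ← em_mul, ← em_mul]
      congr 1
      apply Subtype.ext; funext z
      rw [dRg_apply]
      change deriv a z = C * (a z * a z)
      rw [h z]; ring)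
  intro z
  have h2 := em_inj (h1.trans em_zero.symm)
  exact congrArg (fun f : Rg (ctx hF) => (f : ℂ → ℂ) z) h2

theorem exp_ode {y : ℂ → ℂ} (hy : Differentiable ℂ y) {l : ℂ} (h : ∀ z, deriv y z = l * y z) :
    ∀ z, y z = y 0 * Complex.exp (l * z) := by
  have hd : ∀ z, HasDerivAt (fun z => y z * Complex.exp (-l * z + 0)) 0 z := by
    intro z
    have h1 := (hy z).hasDerivAt.mul (hasDeriv_exp (-l) 0 z)
    exact h1.congr_deriv (by rw [h z]; ring)
  intro z
  have h2 := is_const_of_deriv_eq_zero (f := fun z => y z * Complex.exp (-l * z + 0))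
    (fun z => (hd z).differentiableAt) (fun z => (hd z).deriv) z 0
  simp only [mul_zero, add_zero, Complex.exp_zero, mul_one] at h2
  rw [← h2, mul_assoc, ← Complex.exp_add]
  simp

section

variable {f g : ℂ → ℂ} {h : ℕ → ℂ → ℂ} {k : ℕ}

/-- existence of a good level -/
theorem level (hf : Differentiable ℂ f) (hg : Differentiable ℂ g)
    (hG : ∀ n, n ≤ 42 → ∃ z, iteratedDeriv n g z ≠ 0)
    (hh : ∀ n, n ≤ 42 → Differentiable ℂ (h n)) (h0 : ∀ n, n ≤ 42 → ∀ z, h n z ≠ 0)
    (hfg : ∀ n, n ≤ 42 → ∀ z, iteratedDeriv n f z = h n z * iteratedDeriv n g z) :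
    ∃ n, n ≤ 42 ∧ Pg (iteratedDeriv n f) (iteratedDeriv n g) := by
  by_cases hc : ∃ n, n ≤ 42 ∧ ∀ z, deriv (h n) z = 0
  · obtain ⟨n, hn, hz⟩ := hc
    refine ⟨n, hn, Or.inl ⟨h n 0, fun z => ?_⟩⟩
    rw [hfg n hn, is_const_of_deriv_eq_zero (hh n hn) hz z 0]
  push Not at hc
  have hFd : ∀ n, Differentiable ℂ (iteratedDeriv n f) := fun n =>
    (hf.contDiff (n := ⊤)).differentiable_iteratedDeriv n (by exact_mod_cast lt_top_iff_ne_top.mpr (by simp))
  have hGd : ∀ n, Differentiable ℂ (iteratedDeriv n g) := fun n =>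
    (hg.contDiff (n := ⊤)).differentiable_iteratedDeriv n (by exact_mod_cast lt_top_iff_ne_top.mpr (by simp))
  set G : ℕ → ℂ → ℂ := fun n => iteratedDeriv n g with hGdef
  set a : ℕ → ℂ → ℂ := fun n z => deriv (h n) z / h n z with ha
  set e : ℕ → ℂ → ℂ := fun n z => h (n + 1) z / h n z with he
  have hhd : ∀ n, n ≤ 42 → Differentiable ℂ (deriv (h n)) := fun n hn z =>
    ((hh n hn).analyticAt z).deriv.differentiableAt
  have Ga : ∀ n z, deriv (G n) z = G (n + 1) z := fun n z => by
    simp only [hGdef]; rw [iteratedDeriv_succ]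
  have star : ∀ n, n < 42 → ∀ z, (e n z - 1) * G (n + 1) z = a n z * G n z := by
    intro n hn z
    have h1 : iteratedDeriv n f = fun z => h n z * G n z := funext (hfg n hn.le)
    have h2 : iteratedDeriv (n + 1) f z = deriv (h n) z * G n z + h n z * G (n + 1) z := by
      rw [iteratedDeriv_succ, h1, ← Ga]
      exact ((hh n hn.le z).hasDerivAt.mul (hGd n z).hasDerivAt).deriv
    have h3 := hfg (n + 1) hn z
    rw [h2] at h3
    have h4 := h0 n hn.le z
    simp only [ha, he]
    field_simp
    change (h (n + 1) z - h n z) * G (n + 1) z = _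
    change _ = h (n + 1) z * G (n + 1) z at h3
    linear_combination -h3
  have ad : ∀ n, n ≤ 42 → Differentiable ℂ (a n) := fun n hn => (hhd n hn).div (hh n hn) (h0 n hn)
  have a0 : ∀ n, n ≤ 42 → ∃ x, a n x ≠ 0 := by
    intro n hn
    obtain ⟨x, hx⟩ := hc n hn
    exact ⟨x, div_ne_zero hx (h0 n hn x)⟩
  have ed : ∀ n, n < 42 → Differentiable ℂ (e n) := fun n hn =>
    (hh (n + 1) hn).div (hh n hn.le) (h0 n hn.le)
  have er : ∀ n, n < 42 → ∀ z, HasDerivAt (e n) ((a (n + 1) z - a n z) * e n z) z := by
    intro n hn z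
    have h1 := (hh (n + 1) hn z).hasDerivAt.div (hh n hn.le z).hasDerivAt (h0 n hn.le z)
    refine h1.congr_deriv ?_
    have h2 := h0 n hn.le z
    have h3 := h0 (n + 1) hn z
    simp only [ha, he]
    field_simp
  have S : CSys a e 42 := by
    refine ⟨ad, a0, ed, ?_, ?_, ?_, ?_⟩
    · exact fun n hn z => div_ne_zero (h0 _ hn z) (h0 _ hn.le z)
    · intro n hn
      by_contra hcon
      push Not at hcon
      have h1 : ∀ z, a n z * G n z = 0 := fun z => by
        rw [← star n hn z, hcon z, sub_self, zero_mul]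
      obtain ⟨x, hx⟩ := a0 n hn.le
      exact hx (ent_mul (ad n hn.le) (hGd n) h1 (hG n hn.le) x)
    · exact fun n hn z => (er n hn z).deriv
    · intro n hn z
      -- differentiate the relation
      have d1 : ∀ z, deriv (fun z => (e n z - 1) * G (n + 1) z) z =
          (a (n + 1) z - a n z) * e n z * G (n + 1) z + (e n z - 1) * G (n + 2) z := by
        intro z
        have h1 := ((er n (by omega) z).sub_const 1).mul (hGd (n + 1) z).hasDerivAt
        have h2 := h1.deriv
        rw [← Ga (n + 1)]
        exact h2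
      have d2 : ∀ z, deriv (fun z => a n z * G n z) z =
          deriv (a n) z * G n z + a n z * G (n + 1) z := by
        intro z
        rw [← Ga n]
        exact ((ad n (by omega) z).hasDerivAt.mul (hGd n z).hasDerivAt).deriv
      have d3 : ∀ z, (a (n + 1) z - a n z) * e n z * G (n + 1) z + (e n z - 1) * G (n + 2) z =
          deriv (a n) z * G n z + a n z * G (n + 1) z := by
        intro z
        rw [← d1, ← d2]
        congr 1
        exact funext (star n (by omega))
      have hed := ed n (by omega)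
      have hed1 := ed (n + 1) (by omega)
      have had := ad n (by omega)
      have had1 := ad (n + 1) (by omega)
      have hadd : Differentiable ℂ (deriv (a n)) := fun z =>
        (had.analyticAt z).deriv.differentiableAt
      have key := ent_mul (u := fun z => (deriv (a n) z * (e n z - 1) -
        a n z * ((a (n + 1) z - a n z) * e n z)) * (e (n + 1) z - 1) -
        a n z * (a (n + 1) z * (e n z - 1) - a n z * (e (n + 1) z - 1))) (v := G n)
        (by fun_prop) (hGd n) (by
          intro z
          have s0 := star n (by omega) z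
          have s1 := star (n + 1) (by omega) z
          have s2 := d3 z
          change (e (n + 1) z - 1) * G (n + 2) z = _ at s1
          linear_combination (-(e n z - 1) * (e (n + 1) z - 1)) * s2
            + ((a (n + 1) z - a n z) * e n z * (e (n + 1) z - 1)
              - a n z * (e (n + 1) z - 1) + a (n + 1) z * (e n z - 1)) * s0
            + (e n z - 1) ^ 2 * s1) (hG n (by omega)) z
      linear_combination key
  obtain ⟨n, hn, e1, e2⟩ := csys_main S le_rfl
  refine ⟨n, by omega, Or.inr (Or.inl ?_)⟩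
  -- constant quotients
  have cn : ∀ z, e n z = e n 0 := fun z => is_const_of_deriv_eq_zero (ed n (by omega))
    (fun w => by rw [(er n (by omega) w).deriv, e1 w, sub_self, zero_mul]) z 0
  have cn1 : ∀ z, e (n + 1) z = e (n + 1) 0 := fun z => is_const_of_deriv_eq_zero
    (ed (n + 1) (by omega))
    (fun w => by
      rw [(er (n + 1) (by omega) w).deriv]
      have := e2 w
      change (a (n + 2) w - a (n + 1) w) * _ = 0
      rw [this, sub_self, zero_mul]) z 0
  set c1 := e n 0 with hc1
  set c2 := e (n + 1) 0 with hc2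
  have c11 : c1 - 1 ≠ 0 := by
    obtain ⟨x, hx⟩ := S.he1 n (by omega)
    rw [cn x] at hx
    exact sub_ne_zero.mpr hx
  have c21 : c2 - 1 ≠ 0 := by
    obtain ⟨x, hx⟩ := S.he1 (n + 1) (by omega)
    rw [cn1 x] at hx
    exact sub_ne_zero.mpr hx
  have c10 : c1 ≠ 0 := S.he0 n (by omega) 0
  have rr : ∀ z, deriv (a n) z = ((c1 - c2) / ((c1 - 1) * (c2 - 1))) * a n z ^ 2 := by
    intro z
    have := S.r2 n (by omega) z
    rw [e1 z, cn z, cn1 z, sub_self, zero_mul, mul_zero, sub_zero] at this
    field_simp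
    linear_combination this
  have hC : (c1 - c2) / ((c1 - 1) * (c2 - 1)) = 0 := by
    by_contra hC
    obtain ⟨x, hx⟩ := a0 n (by omega)
    exact hx (riccati (ad n (by omega)) hC rr x)
  have an : ∀ z, a n z = a n 0 := fun z => is_const_of_deriv_eq_zero (ad n (by omega))
    (fun w => by rw [rr w, hC, zero_mul]) z 0
  set α := a n 0 with hα
  have α0 : α ≠ 0 := by
    obtain ⟨x, hx⟩ := a0 n (by omega)
    rwa [an x] at hx
  set l := α / (c1 - 1) with hl
  have l0 : l ≠ 0 := div_ne_zero α0 c11
  have Gn : ∀ z, G n z = G n 0 * Complex.exp (l * z) := exp_ode (hGd n) (fun z => by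
    have := star n (by omega) z
    rw [cn z, an z] at this
    change deriv (G n) z = _
    rw [Ga, hl]
    change G (n + 1) z = α / (c1 - 1) * G n z
    field_simp
    linear_combination this)
  have hn' : ∀ z, h n z = h n 0 * Complex.exp (α * z) := exp_ode (hh n (by omega)) (fun z => by
    have := an z
    simp only [ha] at this
    rw [div_eq_iff (h0 n (by omega) z)] at this
    exact this)
  have Gn0 : G n 0 ≠ 0 := by
    obtain ⟨x, hx⟩ := hG n (by omega)
    intro h
    apply hx
    change G n x = 0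
    rw [Gn x, h, zero_mul]
  have hn0 := h0 n (by omega) 0
  have m0 : α + l ≠ 0 := by
    have : α + l = α * c1 / (c1 - 1) := by rw [hl]; field_simp; ring
    rw [this]
    exact div_ne_zero (mul_ne_zero α0 c10) c11
  refine ⟨α + l, l, Complex.log (h n 0 * G n 0), Complex.log (G n 0), m0, l0, fun z => ⟨?_, ?_⟩⟩
  · rw [hfg n (by omega), Complex.exp_add, Complex.exp_log (mul_ne_zero hn0 Gn0)]
    change h n z * G n z = _
    rw [hn' z, Gn z, add_mul, Complex.exp_add]
    ring
  · rw [Complex.exp_add, Complex.exp_log Gn0]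
    change G n z = _
    rw [Gn z]; ring

/-- the descent -/
theorem descent (hf : Differentiable ℂ f) (hg : Differentiable ℂ g)
    (hG : ∀ n, n ≤ 42 → ∃ z, iteratedDeriv n g z ≠ 0)
    (hh : ∀ n, n ≤ 42 → Differentiable ℂ (h n)) (h0 : ∀ n, n ≤ 42 → ∀ z, h n z ≠ 0)
    (hfg : ∀ n, n ≤ 42 → ∀ z, iteratedDeriv n f z = h n z * iteratedDeriv n g z) : Pg f g := by
  obtain ⟨n, hn, hP⟩ := level hf hg hG hh h0 hfg
  induction n with
  | zero => simpa [iteratedDeriv_zero] using hP
  | succ n ih =>
    apply ih (by omega)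
    have hFd : Differentiable ℂ (iteratedDeriv n f) :=
      (hf.contDiff (n := ⊤)).differentiable_iteratedDeriv n (by exact_mod_cast lt_top_iff_ne_top.mpr (by simp))
    have hGd : Differentiable ℂ (iteratedDeriv n g) :=
      (hg.contDiff (n := ⊤)).differentiable_iteratedDeriv n (by exact_mod_cast lt_top_iff_ne_top.mpr (by simp))
    rw [iteratedDeriv_succ, iteratedDeriv_succ] at hP
    refine step hFd hGd (hh n (by omega)) (h0 n (by omega)) (hfg n (by omega)) ?_ hP
    obtain ⟨z, hz⟩ := hG (n + 1) hn
    refine ⟨z, ?_⟩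
    rw [← iteratedDeriv_succ, hfg (n + 1) hn]
    exact mul_ne_zero (h0 (n + 1) hn z) hz

end

end Pool.Agent.TH217.BA
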