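import Pool.Agent.H159R3.NV.StepC
import Pool.Agent.Helper787.GapB

/-!
Bounds for the logarithm of an entire function on a disc away from its zeros.
-/

set_option autoImplicit false

namespace Pool.Agent.TH217.BA

open Filter Metric Real Set Topology MeromorphicOn Pool.Agent.H159R3.NV

theorem exists_P_ne (Z : List ℂ) : ∃ x, P Z x ≠ 0 := by
  obtain ⟨x, hx⟩ : ∃ x, x ∉ Z := by
    by_contra h
    push Not at h
    have : (Set.univ : Set ℂ) ⊆ (Z.toFinset : Set ℂ) := fun x _ => by simpa using h x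
    exact Set.infinite_univ ((Finset.finite_toSet _).subset this)
  exact ⟨x, P_ne Z x (fun a ha h => hx (h ▸ ha))⟩

theorem L_P (Z : List ℂ) {R : ℝ} (hR : 0 < R) (hZ : ∀ a ∈ Z, ‖a‖ ≤ R) :
    L (P Z) R = Z.length * Real.log R := by
  induction Z with
  | nil =>
    have : P [] = fun _ => 1 := funext P_nil
    rw [this]
    unfold L
    simp [Real.circleAverage_const]
  | cons a Z ih =>
    have e : P (a :: Z) = fun z => (z - a) * P Z z := funext (P_cons a Z)
    obtain ⟨x, hx⟩ := exists_P_ne Z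
    have h1 : L (fun z => (z - a) * P Z z) R = L (fun z => z - a) R + L (P Z) R :=
      L_mul (f := fun z => z - a) (g := P Z) (differentiable_id.sub_const a) (P_diff Z)
        (x := a + 1) (y := x) (by simp) hx hR.ne'
    rw [e, h1, ih (fun b hb => hZ b (List.mem_cons_of_mem _ hb)),
      L_lin hR (hZ a List.mem_cons_self)]
    push_cast [List.length_cons]
    ring

/-- factorisation with all bounds -/
theorem single {f : ℂ → ℂ} (hf : Differentiable ℂ f) {x : ℂ} (hx : f x ≠ 0) {c : ℝ}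
    (hc : -L f 1 ≤ c) (hc0 : 0 ≤ c) {R η W : ℝ} (hR : 1 ≤ R) (hη : 0 < η) (hη1 : η ≤ 1)
    (hW : 0 ≤ W) (hb : ∀ z, ‖z‖ ≤ R * Real.exp (3 * η) → ‖f z‖ ≤ Real.exp W) :
    ∃ (Z : List ℂ) (k : ℂ → ℂ) (A : ℝ), (∀ a ∈ Z, ‖a‖ ≤ R * Real.exp (2 * η)) ∧
      Differentiable ℂ k ∧ (∀ z, f z = P Z z * k z) ∧
      (∀ z, ‖z‖ ≤ R * Real.exp (2 * η) → k z ≠ 0) ∧ Z.length * η ≤ W + c ∧
      A = 2 * (W + c) + 2 * Z.length * Real.log (2 * (R * Real.exp (2 * η))) ∧ 0 ≤ A ∧
      (∀ z, ‖z‖ ≤ R * Real.exp η → |Real.log ‖k z‖| ≤ 50 * A / η ^ 2) ∧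
      (∀ z w, ‖z‖ ≤ R * Real.exp η → ‖w‖ ≤ R * Real.exp η →
        |Real.log ‖k w‖ - Real.log ‖k z‖| ≤ 50 * A / η ^ 2 * ‖w - z‖) := by
  set R1 := R * Real.exp η with hR1
  set R2 := R * Real.exp (2 * η) with hR2
  set R3 := R * Real.exp (3 * η) with hR3
  have hR0 : 0 < R := by linarith
  have e1 : 1 ≤ Real.exp η := Real.one_le_exp hη.le
  have e12 : R2 = R1 * Real.exp η := by
    rw [hR2, hR1, mul_assoc, ← Real.exp_add]; congr 2; ring
  have e23 : R3 = R2 * Real.exp η := by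
    rw [hR3, hR2, mul_assoc, ← Real.exp_add]; congr 2; ring
  have h01 : R ≤ R1 := le_mul_of_one_le_right hR0.le e1
  have hR1p : 0 < R1 := by linarith
  have h12 : R1 ≤ R2 := by rw [e12]; exact le_mul_of_one_le_right hR1p.le e1
  have hR2p : 0 < R2 := by linarith
  have h23 : R2 ≤ R3 := by rw [e23]; exact le_mul_of_one_le_right hR2p.le e1
  have hR3p : 0 < R3 := by linarith
  obtain ⟨Z, k, hZ, hk, hfac, hne⟩ := Helper787.Gap.exists_factor hf hx hR2p.le
  have hfac' : ∀ z, f z = P Z z * k z := hfac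
  obtain ⟨y, hy⟩ := exists_P_ne Z
  have hkx : k x ≠ 0 := fun h => hx (by rw [hfac', h, mul_zero])
  -- the count
  have cnt : Z.length * η ≤ W + c := by
    have e : f = fun z => P Z z * k z := funext hfac'
    have a3 : L f R3 = L (P Z) R3 + L k R3 := by
      rw [e]; exact L_mul (P_diff Z) hk hy hkx hR3p.ne'
    have a2 : L f R2 = L (P Z) R2 + L k R2 := by
      rw [e]; exact L_mul (P_diff Z) hk hy hkx hR2p.ne'
    rw [L_P Z hR3p (fun a ha => (hZ a ha).trans h23)] at a3
    rw [L_P Z hR2p hZ] at a2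
    have m1 := L_mono hk hR2p h23
    have m2 := L_mono hf one_pos (show (1 : ℝ) ≤ R2 by linarith)
    have u3 : L f R3 ≤ W := by
      unfold L
      apply Real.circleAverage_mono_on_of_le_circle (ci_log (mero_of_diff hf) R3)
      intro z hz
      rw [mem_sphere, dist_zero_right, abs_of_pos hR3p] at hz
      rcases eq_or_ne (f z) 0 with h0 | h0
      · rw [h0, norm_zero, Real.log_zero]; exact hW
      · rw [Real.log_le_iff_le_exp (norm_pos_iff.mpr h0)]
        exact hb z hz.le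
    have lg : Real.log R3 = Real.log R2 + η := by
      rw [e23, Real.log_mul hR2p.ne' (Real.exp_ne_zero _), Real.log_exp]
    rw [lg] at a3
    nlinarith
  have hn0 : (0 : ℝ) ≤ Z.length := Nat.cast_nonneg _
  have hWc : 0 ≤ W + c := (mul_nonneg hn0 hη.le).trans cnt
  have hlog2 : 0 ≤ Real.log (2 * R2) := Real.log_nonneg (by linarith)
  set A : ℝ := 2 * (W + c) + 2 * Z.length * Real.log (2 * R2) with hA
  have hA0 : 0 ≤ A := by positivity
  have hkan : ∀ z ∈ closedBall (0 : ℂ) R2, AnalyticAt ℂ k z := fun z _ => hk.analyticAt z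
  have hkne : ∀ z ∈ closedBall (0 : ℂ) R2, k z ≠ 0 := fun z hz => hne z (by simpa using hz)
  -- the mean of `|log |k||`
  have avgk : Real.circleAverage (fun z => |Real.log ‖k z‖|) 0 R2 ≤ A := by
    have s1 : Real.circleAverage (fun z => |Real.log ‖k z‖|) 0 R2 ≤
        Real.circleAverage (fun z => |Real.log ‖f z‖| + |Real.log ‖P Z z‖|) 0 R2 := by
      apply avg_le_cod (ci_abs (ci_log (mero_of_diff hk) R2))
        ((ci_abs (ci_log (mero_of_diff hf) R2)).add (ci_abs (ci_log (mero_of_diff (P_diff Z)) R2)))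
        hR2p.ne'
      filter_upwards [ne_cod (P_diff Z) hy R2, ne_cod hk hkx R2] with z h1 h2
      change |Real.log ‖k z‖| ≤ |Real.log ‖f z‖| + |Real.log ‖P Z z‖|
      rw [hfac' z, norm_mul, Real.log_mul (norm_ne_zero_iff.mpr h1) (norm_ne_zero_iff.mpr h2)]
      have : Real.log ‖k z‖ = (Real.log ‖P Z z‖ + Real.log ‖k z‖) - Real.log ‖P Z z‖ := by ring
      conv_lhs => rw [this]
      exact abs_sub _ _
    rw [Real.circleAverage_fun_add (ci_abs (ci_log (mero_of_diff hf) R2))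
      (ci_abs (ci_log (mero_of_diff (P_diff Z)) R2))] at s1
    have s2 := avg_abs_P Z (show (1 : ℝ) ≤ R2 by linarith) hZ
    have s3 := avg_abs_log (mero_of_diff hf) R2
    have s4 : Real.circleAverage (fun z => Real.posLog ‖f z‖) 0 R2 ≤ W := by
      apply Real.circleAverage_mono_on_of_le_circle (ci_posLog (mero_of_diff hf) R2)
      intro z hz
      rw [mem_sphere, dist_zero_right, abs_of_pos hR2p] at hz
      rw [Real.posLog_apply]
      apply max_le hW
      rcases eq_or_ne (f z) 0 with h0 | h0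
      · rw [h0, norm_zero, Real.log_zero]; exact hW
      · rw [Real.log_le_iff_le_exp (norm_pos_iff.mpr h0)]
        exact hb z (hz.le.trans h23)
    have m2 := L_mono hf one_pos (show (1 : ℝ) ≤ R2 by linarith)
    rw [hA]
    linarith
  -- Poisson
  have δpos : 0 < R2 - R1 := by
    have : 1 < Real.exp η := Real.one_lt_exp_iff.mpr hη
    have : R1 * 1 < R1 * Real.exp η := mul_lt_mul_of_pos_left this hR1p
    rw [e12]; linarith
  have δlow : R * η ≤ R2 - R1 := by
    have : η + 1 ≤ Real.exp η := Real.add_one_le_exp η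
    have h2 : R1 * (η + 1) ≤ R1 * Real.exp η := mul_le_mul_of_nonneg_left this hR1p.le
    have h3 : R * η ≤ R1 * η := mul_le_mul_of_nonneg_right h01 hη.le
    rw [e12]; linarith
  have he : Real.exp 1 < 2.7182818286 := Real.exp_one_lt_d9
  have he2 : Real.exp (2 * η) ≤ 7.39 := by
    have : Real.exp (2 * η) ≤ Real.exp 2 := Real.exp_le_exp.mpr (by linarith)
    have h2 : Real.exp 2 = Real.exp 1 * Real.exp 1 := by rw [← Real.exp_add]; norm_num
    have h3 := Real.exp_pos 1
    nlinarith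
  have he1 : Real.exp η ≤ 2.72 := by
    have : Real.exp η ≤ Real.exp 1 := Real.exp_le_exp.mpr hη1
    linarith
  have hη2 : 0 < η ^ 2 := by positivity
  have coef : 2 * R2 / (R2 - R1) ^ 2 ≤ 15 / (R * η ^ 2) := by
    rw [div_le_div_iff₀ (by positivity) (by positivity)]
    have h1 : (R * η) ^ 2 ≤ (R2 - R1) ^ 2 := pow_le_pow_left₀ (by positivity) δlow 2
    have h2 : R2 ≤ 7.39 * R := by
      rw [hR2]; nlinarith
    calc 2 * R2 * (R * η ^ 2) ≤ 2 * (7.39 * R) * (R * η ^ 2) := by gcongr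
      _ ≤ 15 * (R * η) ^ 2 := by nlinarith [mul_pos (mul_pos hR0 hR0) hη2]
      _ ≤ 15 * (R2 - R1) ^ 2 := by gcongr
  have pd : ∀ z w, ‖z‖ ≤ R1 → ‖w‖ ≤ R1 →
      |Real.log ‖k w‖ - Real.log ‖k z‖| ≤ 15 / (R * η ^ 2) * ‖w - z‖ * A := by
    intro z w hz hw
    have h := poisson_diff (R := R2) (δ := R2 - R1) hR2p δpos hkan hkne (w := w) (z := z)
      (by linarith) (by linarith)
    refine h.trans ?_
    have e : 2 * R2 * ‖w - z‖ / (R2 - R1) ^ 2 = 2 * R2 / (R2 - R1) ^ 2 * ‖w - z‖ := by ring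
    rw [e]
    have hav : 0 ≤ Real.circleAverage (fun z => |Real.log ‖k z‖|) 0 R2 :=
      Real.circleAverage_nonneg_of_nonneg (fun z _ => abs_nonneg _)
    gcongr
  refine ⟨Z, k, A, hZ, hk, hfac', hne, cnt, rfl, hA0, ?_, ?_⟩
  · intro z hz
    have h0 : |Real.log ‖k 0‖| ≤ A := by
      have := AnalyticOnNhd.circleAverage_log_norm_of_ne_zero (c := 0) (R := R2) (g := k)
        (by rw [abs_of_pos hR2p]; exact hkan) (by rw [abs_of_pos hR2p]; exact hkne)
      rw [← this]
      refine Real.abs_circleAverage_le_circleAverage_abs.trans ?_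
      exact avgk
    have h1 := pd 0 z (by rw [norm_zero]; exact hR1p.le) hz
    rw [sub_zero] at h1
    have h2 : 15 / (R * η ^ 2) * ‖z‖ * A ≤ 41 / η ^ 2 * A := by
      have : ‖z‖ ≤ 2.72 * R := by
        refine hz.trans ?_
        rw [hR1]; nlinarith
      apply mul_le_mul_of_nonneg_right _ hA0
      rw [div_mul_eq_mul_div, div_le_div_iff₀ (by positivity) (by positivity)]
      have : 15 * ‖z‖ ≤ 41 * R := by linarith
      nlinarith
    have h3 : A ≤ 1 / η ^ 2 * A := by
      apply le_mul_of_one_le_left hA0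
      rw [le_div_iff₀ hη2]
      nlinarith
    have h4 : |Real.log ‖k z‖| ≤ |Real.log ‖k z‖ - Real.log ‖k 0‖| + |Real.log ‖k 0‖| := by
      have := abs_add_le (Real.log ‖k z‖ - Real.log ‖k 0‖) (Real.log ‖k 0‖)
      rwa [sub_add_cancel] at this
    have h5 : 41 / η ^ 2 * A + 1 / η ^ 2 * A ≤ 50 * A / η ^ 2 := by
      have : 50 * A / η ^ 2 = 50 / η ^ 2 * A := by ring
      rw [this, ← add_mul, ← add_div]
      gcongr
      norm_num
    linarith
  · intro z w hz hw
    refine (pd z w hz hw).trans ?_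
    have h2 : 15 / (R * η ^ 2) ≤ 50 / η ^ 2 := by
      rw [div_le_div_iff₀ (by positivity) (by positivity)]
      nlinarith
    calc 15 / (R * η ^ 2) * ‖w - z‖ * A ≤ 50 / η ^ 2 * ‖w - z‖ * A := by gcongr
      _ = _ := by ring

end Pool.Agent.TH217.BA
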