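import Pool.Agent.TH217.BA1

/-!
Good circles for a finite family of entire functions.
-/

set_option autoImplicit false

namespace Pool.Agent.TH217.BA

open Filter Metric Real Set Topology MeromorphicOn Pool.Agent.H159R3.NV

theorem log_P_bound {d T : ℝ} (hd : 0 < d) (hd1 : d ≤ 1) (hT : 1 ≤ T) {z : ℂ} (Z : List ℂ)
    (h1 : ∀ a ∈ Z, d ≤ ‖z - a‖) (h2 : ∀ a ∈ Z, ‖z - a‖ ≤ T) :
    |Real.log ‖P Z z‖| ≤ Z.length * (Real.log (1 / d) + Real.log T) := by
  induction Z with
  | nil => simp [P_nil]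
  | cons a Z ih =>
    have ih' := ih (fun b hb => h1 b (List.mem_cons_of_mem _ hb))
      (fun b hb => h2 b (List.mem_cons_of_mem _ hb))
    have a1 := h1 a List.mem_cons_self
    have a2 := h2 a List.mem_cons_self
    have pos : 0 < ‖z - a‖ := hd.trans_le a1
    have hP : P Z z ≠ 0 := P_ne Z z (fun b hb h => by
      have := h1 b (List.mem_cons_of_mem _ hb)
      rw [h, sub_self, norm_zero] at this
      linarith)
    rw [P_cons, norm_mul, Real.log_mul pos.ne' (norm_ne_zero_iff.mpr hP)]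
    refine (abs_add_le _ _).trans ?_
    have l1 : Real.log (1 / d) = - Real.log d := by rw [one_div, Real.log_inv]
    have l2 : Real.log d ≤ Real.log ‖z - a‖ := Real.log_le_log hd a1
    have l3 : Real.log ‖z - a‖ ≤ Real.log T := Real.log_le_log pos a2
    have l4 : Real.log d ≤ 0 := Real.log_nonpos hd.le hd1
    have l5 : 0 ≤ Real.log T := Real.log_nonneg hT
    have l6 : |Real.log ‖z - a‖| ≤ Real.log (1 / d) + Real.log T := by
      rw [abs_le]; constructor <;> linarith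
    push_cast [List.length_cons]
    linarith

/-- good circles -/
theorem goodCircle {ι : Type*} (s : Finset ι) (f : ι → ℂ → ℂ)
    (hf : ∀ i ∈ s, Differentiable ℂ (f i)) (hx : ∀ i ∈ s, ∃ x, f i x ≠ 0) :
    ∃ c : ℝ, 0 ≤ c ∧ ∀ (R η : ℝ) (W : ι → ℝ), 1 ≤ R → 0 < η → η ≤ 1 → (∀ i ∈ s, 0 ≤ W i) →
      (∀ i ∈ s, ∀ z, ‖z‖ ≤ R * Real.exp (3 * η) → ‖f i z‖ ≤ Real.exp (W i)) →
      ∃ r, R ≤ r ∧ r ≤ R * Real.exp η ∧ ∀ i ∈ s,
        ∃ (lg dd A : ℝ), lg = Real.log (2 * (R * Real.exp (2 * η))) ∧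
          dd = η / (4 * ((∑ j ∈ s, (W j + c) / η) + 1)) ∧
          A = 2 * (W i + c) + 2 * ((W i + c) / η) * lg ∧
        ∀ z, ‖z‖ = r → f i z ≠ 0 ∧
          |Real.log ‖f i z‖| ≤ ((W i + c) / η) * (Real.log (1 / dd) + lg) + 50 * A / η ^ 2 ∧
          ‖deriv (f i) z‖ ≤ Real.exp 1 * (4 * ((W i + c) / η + 1) * (1 + 50 * A / η ^ 2) / dd)
            * ‖f i z‖ := by
  classical
  refine ⟨∑ i ∈ s, |L (f i) 1|, Finset.sum_nonneg (fun i _ => abs_nonneg _), ?_⟩
  intro R η W hR hη hη1 hW hb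
  set c : ℝ := ∑ i ∈ s, |L (f i) 1| with hc
  have hc0 : 0 ≤ c := Finset.sum_nonneg (fun i _ => abs_nonneg _)
  have hci : ∀ i ∈ s, -L (f i) 1 ≤ c := by
    intro i hi
    refine (neg_le_abs _).trans ?_
    exact Finset.single_le_sum (f := fun i => |L (f i) 1|) (fun j _ => abs_nonneg _) hi
  have hR0 : 0 < R := by linarith
  have key : ∀ i, ∃ (Z : List ℂ) (k : ℂ → ℂ) (A : ℝ), i ∈ s →
      (∀ a ∈ Z, ‖a‖ ≤ R * Real.exp (2 * η)) ∧ Differentiable ℂ k ∧
      (∀ z, f i z = P Z z * k z) ∧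
      (∀ z, ‖z‖ ≤ R * Real.exp (2 * η) → k z ≠ 0) ∧ Z.length * η ≤ W i + c ∧
      A = 2 * (W i + c) + 2 * Z.length * Real.log (2 * (R * Real.exp (2 * η))) ∧ 0 ≤ A ∧
      (∀ z, ‖z‖ ≤ R * Real.exp η → |Real.log ‖k z‖| ≤ 50 * A / η ^ 2) ∧
      (∀ z w, ‖z‖ ≤ R * Real.exp η → ‖w‖ ≤ R * Real.exp η →
        |Real.log ‖k w‖ - Real.log ‖k z‖| ≤ 50 * A / η ^ 2 * ‖w - z‖) := by
    intro i
    by_cases hi : i ∈ s
    · obtain ⟨x, hx⟩ := hx i hi
      obtain ⟨Z, k, A, h⟩ := single (hf i hi) hx (hci i hi) hc0 hR hη hη1 (hW i hi) (hb i hi)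
      exact ⟨Z, k, A, fun _ => h⟩
    · exact ⟨[], fun _ => 0, 0, fun h => absurd h hi⟩
  choose Z k A0 key using key
  -- the zeros lie in the closed ball, or not: we need only the distances
  set Ms : List ℝ := s.toList.flatMap (fun i => (Z i).map norm) with hMs
  have hlen : (Ms.length : ℝ) ≤ ∑ j ∈ s, (W j + c) / η := by
    have e : Ms.length = ∑ j ∈ s, (Z j).length := by
      rw [hMs, List.length_flatMap]
      simp only [List.length_map]
      rw [Finset.sum_map_toList]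
    rw [e]
    push_cast
    apply Finset.sum_le_sum
    intro j hj
    rw [le_div_iff₀ hη]
    exact (key j hj).2.2.2.2.1
  obtain ⟨r, hr1, hr2, hr3⟩ := good_radius Ms R (δ := R * η / 2) (by positivity)
  set NN : ℝ := ∑ j ∈ s, (W j + c) / η with hNN
  have hNN0 : 0 ≤ NN := (Nat.cast_nonneg _).trans hlen
  have hexp : η + 1 ≤ Real.exp η := Real.add_one_le_exp η
  have hrR1 : r + R * η / 2 ≤ R * Real.exp η := by
    have : R * (η + 1) ≤ R * Real.exp η := mul_le_mul_of_nonneg_left hexp hR0.le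
    linarith
  have hRη : 0 < R * η := by positivity
  refine ⟨r, hr1, by linarith, ?_⟩
  intro i hi
  obtain ⟨hZR, hk, hfac, hne, hcnt, hA, hA0, hb1, hb2⟩ := key i hi
  set lg := Real.log (2 * (R * Real.exp (2 * η))) with hlg
  set dd := η / (4 * (NN + 1)) with hdd
  have hR2 : R * Real.exp η ≤ R * Real.exp (2 * η) := by
    apply mul_le_mul_of_nonneg_left _ hR0.le
    exact Real.exp_le_exp.mpr (by linarith)
  have hR2' : 1 ≤ R * Real.exp (2 * η) := by
    have : 1 ≤ Real.exp (2 * η) := Real.one_le_exp (by linarith)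
    nlinarith
  have hlg0 : 0 ≤ lg := Real.log_nonneg (by linarith)
  have hdd0 : 0 < dd := by positivity
  have hdd1 : dd ≤ 1 / 4 := by
    rw [hdd, div_le_div_iff₀ (by positivity) (by norm_num)]
    nlinarith
  have hn : ((Z i).length : ℝ) ≤ (W i + c) / η := by rw [le_div_iff₀ hη]; exact hcnt
  have hn0 : (0 : ℝ) ≤ (Z i).length := Nat.cast_nonneg _
  set A := 2 * (W i + c) + 2 * ((W i + c) / η) * lg with hAd
  have hAA : A0 i ≤ A := by
    rw [hA, hAd]
    have : 2 * ((Z i).length : ℝ) * lg ≤ 2 * ((W i + c) / η) * lg := by gcongr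
    linarith
  have hAn : 0 ≤ A := hA0.trans hAA
  refine ⟨lg, dd, A, rfl, rfl, rfl, ?_⟩
  intro z hz
  have hdist : ∀ a ∈ Z i, dd ≤ ‖z - a‖ := by
    intro a ha
    have h1 : ‖a‖ ∈ Ms := by
      rw [hMs, List.mem_flatMap]
      exact ⟨i, by simpa using hi, List.mem_map.mpr ⟨a, ha, rfl⟩⟩
    have h2 := hr3 _ h1
    have h3 : |r - ‖a‖| ≤ ‖z - a‖ := by
      rw [← hz]
      exact abs_norm_sub_norm_le z a
    refine le_trans ?_ (h2.trans h3)
    rw [hdd, div_div, div_le_div_iff₀ (by positivity) (by positivity)]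
    have h4 : (Ms.length : ℝ) + 1 ≤ NN + 1 := by linarith
    have h5 : η * (2 * (2 * ((Ms.length : ℝ) + 1))) ≤ η * (2 * (2 * (NN + 1))) := by gcongr
    have h6 : η * (2 * (2 * (NN + 1))) ≤ R * η * (4 * (NN + 1)) := by
      have : η * (4 * (NN + 1)) ≤ R * (η * (4 * (NN + 1))) :=
        le_mul_of_one_le_left (by positivity) hR
      nlinarith
    linarith
  have hP0 : P (Z i) z ≠ 0 := P_ne _ z (fun b hb h => by
    have := hdist b hb
    rw [h, sub_self, norm_zero] at this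
    linarith)
  have hzR1 : ‖z‖ ≤ R * Real.exp η := by rw [hz]; linarith
  have hk0 : k i z ≠ 0 := hne z (hzR1.trans hR2)
  have hf0 : f i z ≠ 0 := by rw [hfac]; exact mul_ne_zero hP0 hk0
  refine ⟨hf0, ?_, ?_⟩
  · have h1 := log_P_bound (d := dd) (T := 2 * (R * Real.exp (2 * η))) hdd0 (by linarith)
      (by linarith) (Z i) hdist (fun a ha => by
        have h2 := norm_sub_le z a
        have h3 := hZR a ha
        linarith)
    have h2 := hb1 z hzR1
    have hl1 : 0 ≤ Real.log (1 / dd) := by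
      apply Real.log_nonneg
      rw [le_div_iff₀ hdd0]
      linarith
    have h3 : ((Z i).length : ℝ) * (Real.log (1 / dd) + lg) ≤
        ((W i + c) / η) * (Real.log (1 / dd) + lg) := by gcongr
    have h4 : 50 * A0 i / η ^ 2 ≤ 50 * A / η ^ 2 := by gcongr
    rw [hfac z, norm_mul, Real.log_mul (norm_ne_zero_iff.mpr hP0) (norm_ne_zero_iff.mpr hk0)]
    refine (abs_add_le _ _).trans ?_
    linarith
  · set n : ℝ := ((Z i).length : ℝ) with hnd
    set Λ := 50 * A / η ^ 2 with hΛ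
    have hΛ0 : 0 ≤ Λ := by positivity
    have hV0 : 0 ≤ (W i + c) / η := hn0.trans hn
    set V := (W i + c) / η with hV
    set ε := dd / (4 * (V + 1) * (1 + Λ)) with hε
    have hε0 : 0 < ε := by positivity
    have hεd : ε ≤ dd / 4 := by
      rw [hε]
      apply div_le_div_of_nonneg_left hdd0.le (by norm_num)
      nlinarith [mul_nonneg hV0 hΛ0]
    have hεη : ε ≤ R * η / 2 := by
      have : dd ≤ η / 4 := by
        rw [hdd]
        apply div_le_div_of_nonneg_left hη.le (by norm_num)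
        linarith
      nlinarith
    have hosc : ∀ w, ‖w - z‖ ≤ ε → ‖f i w‖ ≤ Real.exp 1 * ‖f i z‖ := by
      intro w hw
      obtain ⟨hPw, ho⟩ := log_osc_P (η := dd) (ε := ε) hdd0 (by linarith) hw (Z i) hdist
      have hwn : ‖w‖ ≤ R * Real.exp η := by
        have : ‖w‖ ≤ ‖z‖ + ‖w - z‖ := by
          have := norm_add_le z (w - z)
          rwa [add_sub_cancel] at this
        linarith
      have hkw : k i w ≠ 0 := hne w (hwn.trans hR2)
      have h1 := hb2 z w hzR1 hwn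
      have h2 : n * (2 * ε / dd) ≤ 1 / 2 := by
        have : 2 * ε / dd = 1 / (2 * (V + 1) * (1 + Λ)) := by
          rw [hε]; field_simp; ring
        rw [this, mul_one_div, div_le_div_iff₀ (by positivity) (by norm_num)]
        nlinarith [mul_nonneg hV0 hΛ0]
      have h3 : 50 * A0 i / η ^ 2 * ‖w - z‖ ≤ 1 / 2 := by
        have : 50 * A0 i / η ^ 2 ≤ Λ := by rw [hΛ]; gcongr
        have h4 : 50 * A0 i / η ^ 2 * ‖w - z‖ ≤ Λ * ε := by gcongr
        have h5 : Λ * ε ≤ 1 / 4 * dd := by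
          rw [hε, ← mul_div_assoc, div_le_iff₀ (by positivity)]
          nlinarith [mul_nonneg hV0 hΛ0, mul_nonneg hdd0.le hΛ0, mul_nonneg hdd0.le hV0,
            mul_nonneg (mul_nonneg hdd0.le hΛ0) hV0]
        linarith
      have h6 : Real.log ‖f i w‖ ≤ Real.log ‖f i z‖ + 1 := by
        rw [hfac w, hfac z, norm_mul, norm_mul,
          Real.log_mul (norm_ne_zero_iff.mpr hPw) (norm_ne_zero_iff.mpr hkw),
          Real.log_mul (norm_ne_zero_iff.mpr hP0) (norm_ne_zero_iff.mpr hk0)]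
        have a1 := (abs_le.mp ho).2
        have a2 := (abs_le.mp h1).2
        linarith
      have hfw : f i w ≠ 0 := by rw [hfac]; exact mul_ne_zero hPw hkw
      rw [← Real.exp_log (norm_pos_iff.mpr hfw), ← Real.exp_log (norm_pos_iff.mpr hf0),
        ← Real.exp_add, Real.exp_le_exp]
      linarith
    have hC := Complex.norm_deriv_le_of_forall_mem_sphere_norm_le (c := z) (R := ε)
      (C := Real.exp 1 * ‖f i z‖) (f := f i) hε0 (hf i hi).diffContOnCl (by
        intro w hw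
        apply hosc
        rw [mem_sphere, dist_eq_norm] at hw
        exact hw.le)
    refine hC.trans (le_of_eq ?_)
    rw [hε]
    field_simp

end Pool.Agent.TH217.BA
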