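import Mathlib

/-!
Growth scale of a finite family of entire functions.
-/

set_option autoImplicit false

namespace Pool.Agent.TH217.BA

open Filter Metric Real Set Topology

/-- `log⁺` of the maximum modulus on the disc of radius `e^t` -/
noncomputable def mu (f : ℂ → ℂ) (t : ℝ) : ℝ :=
  sSup ((fun z => Real.posLog ‖f z‖) '' closedBall (0 : ℂ) (Real.exp t))

variable {f : ℂ → ℂ}

theorem mu_bdd (hf : Continuous f) (t : ℝ) :
    BddAbove ((fun z => Real.posLog ‖f z‖) '' closedBall (0 : ℂ) (Real.exp t)) := by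
  apply ((isCompact_closedBall (0 : ℂ) (Real.exp t)).image _).bddAbove
  exact Real.continuous_posLog.comp hf.norm

theorem le_mu (hf : Continuous f) {t : ℝ} {z : ℂ} (hz : ‖z‖ ≤ Real.exp t) :
    Real.posLog ‖f z‖ ≤ mu f t :=
  le_csSup (mu_bdd hf t) ⟨z, by simpa using hz, rfl⟩

theorem mu_nonneg (hf : Continuous f) (t : ℝ) : 0 ≤ mu f t :=
  Real.posLog_nonneg.trans (le_mu hf (z := 0) (by rw [norm_zero]; positivity))

theorem mu_mono (hf : Continuous f) {t t' : ℝ} (h : t ≤ t') : mu f t ≤ mu f t' := by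
  apply csSup_le_csSup (mu_bdd hf t')
  · exact ⟨_, 0, by simp [Real.exp_nonneg], rfl⟩
  · apply Set.image_mono
    exact closedBall_subset_closedBall (Real.exp_le_exp.mpr h)

theorem norm_le_mu (hf : Continuous f) {t : ℝ} {z : ℂ} (hz : ‖z‖ ≤ Real.exp t) :
    ‖f z‖ ≤ Real.exp (mu f t) := by
  have h := le_mu hf hz
  rcases eq_or_ne (f z) 0 with h0 | h0
  · rw [h0, norm_zero]; positivity
  · rw [Real.posLog_apply] at h
    rw [← Real.log_le_iff_le_exp (norm_pos_iff.mpr h0)]
    exact (le_max_right _ _).trans h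

theorem exists_mu (hf : Continuous f) (t : ℝ) :
    ∃ z, ‖z‖ ≤ Real.exp t ∧ Real.posLog ‖f z‖ = mu f t := by
  have hc : ContinuousOn (fun z => Real.posLog ‖f z‖) (closedBall (0 : ℂ) (Real.exp t)) :=
    (Real.continuous_posLog.comp hf.norm).continuousOn
  obtain ⟨z, hz, h⟩ := (isCompact_closedBall (0 : ℂ) (Real.exp t)).exists_sSup_image_eq
    ⟨0, by simp [Real.exp_nonneg]⟩ hc
  exact ⟨z, by simpa using hz, h.symm⟩

section family

variable {ι : Type*} [Fintype ι] (F : ι → ℂ → ℂ)

/-- scale of one function -/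
noncomputable def GG (f : ℂ → ℂ) (t : ℝ) : ℝ := Real.log (Real.exp 1 + mu f t)

/-- the scale -/
noncomputable def gg (t : ℝ) : ℝ := ∑ i, GG (F i) t

/-- the second scale -/
noncomputable def HH (t : ℝ) : ℝ := ∑ i, Real.log (GG (F i) t)

/-- the step -/
noncomputable def dl (t : ℝ) : ℝ := 1 / (1 + HH F t) ^ 2

variable {F}

theorem GG_ge_one (hf : Continuous f) (t : ℝ) : 1 ≤ GG f t := by
  unfold GG
  rw [Real.le_log_iff_exp_le (by have := mu_nonneg hf t; positivity)]
  have := mu_nonneg hf t
  linarith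

theorem GG_mono (hf : Continuous f) {t t' : ℝ} (h : t ≤ t') : GG f t ≤ GG f t' := by
  unfold GG
  apply Real.log_le_log (by have := mu_nonneg hf t; positivity)
  have := mu_mono hf h
  linarith

theorem HH_mono (hF : ∀ i, Continuous (F i)) {t t' : ℝ} (h : t ≤ t') : HH F t ≤ HH F t' := by
  unfold HH
  apply Finset.sum_le_sum
  intro i _
  exact Real.log_le_log (by linarith [GG_ge_one (hF i) t]) (GG_mono (hF i) h)

theorem HH_nonneg (hF : ∀ i, Continuous (F i)) (t : ℝ) : 0 ≤ HH F t :=
  Finset.sum_nonneg (fun i _ => Real.log_nonneg (GG_ge_one (hF i) t))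

theorem HH_le_gg (hF : ∀ i, Continuous (F i)) (t : ℝ) : HH F t ≤ gg F t := by
  unfold HH gg
  apply Finset.sum_le_sum
  intro i _
  have := GG_ge_one (hF i) t
  have := Real.log_le_sub_one_of_pos (show 0 < GG (F i) t by linarith)
  linarith

theorem GG_le_gg (hF : ∀ i, Continuous (F i)) (i : ι) (t : ℝ) : GG (F i) t ≤ gg F t := by
  unfold gg
  exact Finset.single_le_sum (f := fun i => GG (F i) t)
    (fun j _ => by linarith [GG_ge_one (hF j) t]) (Finset.mem_univ i)

theorem dl_pos (hF : ∀ i, Continuous (F i)) (t : ℝ) : 0 < dl F t := by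
  have := HH_nonneg hF t
  unfold dl; positivity

theorem dl_le_one (hF : ∀ i, Continuous (F i)) (t : ℝ) : dl F t ≤ 1 := by
  have := HH_nonneg hF t
  unfold dl
  rw [div_le_one (by positivity)]
  nlinarith

/-- arbitrarily large values with a slow step -/
theorem slow (hF : ∀ i, Continuous (F i)) (T : ℝ) :
    ∃ t, T ≤ t ∧ HH F (t + dl F t) ≤ HH F t + Real.log 2 := by
  by_contra hcon
  push Not at hcon
  set u : ℕ → ℝ := fun n => Nat.rec T (fun _ x => x + dl F x) n with hu
  have u0 : u 0 = T := rfl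
  have us : ∀ n, u (n + 1) = u n + dl F (u n) := fun n => rfl
  have umono : ∀ n, T ≤ u n := by
    intro n
    induction n with
    | zero => exact le_rfl
    | succ n ih => rw [us]; linarith [dl_pos hF (u n)]
  have l2 : 0 < Real.log 2 := Real.log_pos (by norm_num)
  have hH : ∀ n : ℕ, n * Real.log 2 ≤ HH F (u n) := by
    intro n
    induction n with
    | zero => rw [u0]; simpa using HH_nonneg hF T
    | succ n ih =>
      rw [us]
      have := hcon (u n) (umono n)
      push_cast
      linarith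
  have hsum : Summable (fun k : ℕ => 1 / ((k : ℝ) + 1) ^ 2) := by
    have := (summable_nat_add_iff 1).mpr (Real.summable_one_div_nat_pow.mpr one_lt_two)
    simpa using this
  set c : ℝ := ∑' k : ℕ, 1 / ((k : ℝ) + 1) ^ 2 with hc
  have hstep : ∀ n : ℕ, dl F (u n) ≤ (1 / Real.log 2 ^ 2) * (1 / ((n : ℝ) + 1) ^ 2) := by
    intro n
    unfold dl
    rw [div_mul_div_comm, mul_one, ← mul_pow]
    apply div_le_div_of_nonneg_left zero_le_one (by positivity)
    apply pow_le_pow_left₀ (by positivity)
    have h1 := hH n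
    have h2 : Real.log 2 ≤ 1 := by
      have := Real.log_le_sub_one_of_pos (show (0 : ℝ) < 2 by norm_num)
      linarith
    nlinarith
  have hbound : ∀ n : ℕ, u n ≤ T + (1 / Real.log 2 ^ 2) * c := by
    intro n
    have h1 : u n ≤ T + ∑ k ∈ Finset.range n, (1 / Real.log 2 ^ 2) * (1 / ((k : ℝ) + 1) ^ 2) := by
      induction n with
      | zero => simp [u0]
      | succ n ih =>
        rw [us, Finset.sum_range_succ]
        linarith [hstep n]
    rw [← Finset.mul_sum] at h1
    have h2 : ∑ k ∈ Finset.range n, 1 / ((k : ℝ) + 1) ^ 2 ≤ c :=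
      hsum.sum_le_tsum _ (fun k _ => by positivity)
    have h3 : (1 / Real.log 2 ^ 2) * ∑ k ∈ Finset.range n, 1 / ((k : ℝ) + 1) ^ 2 ≤
        (1 / Real.log 2 ^ 2) * c := mul_le_mul_of_nonneg_left h2 (by positivity)
    linarith
  obtain ⟨n, hn⟩ := exists_nat_gt (HH F (T + (1 / Real.log 2 ^ 2) * c) / Real.log 2)
  rw [div_lt_iff₀ l2] at hn
  have := hH n
  have := HH_mono hF (hbound n)
  linarith

theorem slow_all (hF : ∀ i, Continuous (F i)) {t : ℝ}
    (h : HH F (t + dl F t) ≤ HH F t + Real.log 2) (i : ι) :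
    Real.exp 1 + mu (F i) (t + dl F t) ≤ (Real.exp 1 + mu (F i) t) ^ 2 := by
  have hd := (dl_pos hF t).le
  have h1 : Real.log (GG (F i) (t + dl F t)) ≤ Real.log (GG (F i) t) + Real.log 2 := by
    by_contra hc
    push Not at hc
    have : HH F t + Real.log 2 < HH F (t + dl F t) := by
      unfold HH
      classical
      rw [← Finset.add_sum_erase _ _ (Finset.mem_univ i),
        ← Finset.add_sum_erase (a := i) Finset.univ
          (fun i => Real.log (GG (F i) (t + dl F t))) (Finset.mem_univ i)]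
      have h2 : ∑ x ∈ Finset.univ.erase i, Real.log (GG (F x) t) ≤
          ∑ x ∈ Finset.univ.erase i, Real.log (GG (F x) (t + dl F t)) := by
        apply Finset.sum_le_sum
        intro j _
        exact Real.log_le_log (by linarith [GG_ge_one (hF j) t])
          (GG_mono (hF j) (by linarith))
      linarith
    linarith
  have g0 := GG_ge_one (hF i) t
  have g1 := GG_ge_one (hF i) (t + dl F t)
  rw [← Real.log_mul (by linarith) (by norm_num)] at h1
  rw [Real.log_le_log_iff (by linarith) (by linarith)] at h1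
  have m0 := mu_nonneg (hF i) t
  have m1 := mu_nonneg (hF i) (t + dl F t)
  have p0 : 0 < Real.exp 1 + mu (F i) t := by positivity
  have p1 : 0 < Real.exp 1 + mu (F i) (t + dl F t) := by positivity
  unfold GG at h1
  rw [mul_comm, ← Nat.cast_ofNat (n := 2), ← Real.log_pow, Real.log_le_log_iff p1 (by positivity)]
    at h1
  exact h1

end family

end Pool.Agent.TH217.BA
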