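import Pool.Agent.TH217.BA2
import Pool.Agent.TH217.BA3

/-!
Growth classes along an ultrafilter.
-/

set_option autoImplicit false

namespace Pool.Agent.TH217.BA

open Filter Metric Real Set Topology

/-- a growth context -/
structure GC where
  T : Ultrafilter ℝ
  g : ℝ → ℝ
  δ : ℝ → ℝ
  top : (T : Filter ℝ) ≤ atTop
  δpos : ∀ t, 0 < δ t
  δle : ∀ t, δ t ≤ 1
  gge : ∀ᶠ t in (T : Filter ℝ), t ≤ g t
  δg : ∀ t, 1 / δ t ≤ 4 * g t ^ 2

/-- a size function: dominates `g` -/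
structure Size (𝒢 : GC) where
  W : ℝ → ℝ
  ge : ∀ᶠ t in (𝒢.T : Filter ℝ), 𝒢.g t ≤ W t

variable {𝒢 : GC}

/-- the small size -/
def sm (𝒢 : GC) : Size 𝒢 := ⟨𝒢.g, Eventually.of_forall fun _ => le_rfl⟩

/-- the large size -/
noncomputable def lg (𝒢 : GC) : Size 𝒢 :=
  ⟨fun t => Real.exp (𝒢.g t), Eventually.of_forall fun t => by
    have := Real.add_one_le_exp (𝒢.g t); linarith⟩

theorem GC.ev_ge (𝒢 : GC) (c : ℝ) : ∀ᶠ t in (𝒢.T : Filter ℝ), c ≤ t :=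
  𝒢.top (eventually_ge_atTop c)

theorem GC.g_ge (𝒢 : GC) (c : ℝ) : ∀ᶠ t in (𝒢.T : Filter ℝ), c ≤ 𝒢.g t := by
  filter_upwards [𝒢.ev_ge c, 𝒢.gge] with t h1 h2
  linarith

theorem Size.w_ge (𝒲 : Size 𝒢) (c : ℝ) : ∀ᶠ t in (𝒢.T : Filter ℝ), c ≤ 𝒲.W t := by
  filter_upwards [𝒢.g_ge c, 𝒲.ge] with t h1 h2
  linarith

/-- polynomially bounded -/
def PB (𝒲 : Size 𝒢) (X : ℝ → ℝ) : Prop := ∃ C : ℕ, ∀ᶠ t in (𝒢.T : Filter ℝ), X t ≤ 𝒲.W t ^ C

variable {𝒲 : Size 𝒢} {X Y : ℝ → ℝ}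

theorem PB.mono (h : PB 𝒲 X) (h2 : ∀ᶠ t in (𝒢.T : Filter ℝ), Y t ≤ X t) : PB 𝒲 Y := by
  obtain ⟨C, h⟩ := h
  exact ⟨C, by filter_upwards [h, h2] with t a b; linarith⟩

theorem PB.self (𝒲 : Size 𝒢) : PB 𝒲 𝒲.W := ⟨1, by simp⟩

theorem PB.const (c : ℝ) : PB 𝒲 (fun _ => c) :=
  ⟨1, by filter_upwards [𝒲.w_ge c] with t h; simpa using h⟩

theorem PB.id : PB 𝒲 (fun t => t) :=
  ⟨1, by filter_upwards [𝒲.ge, 𝒢.gge] with t h1 h2; rw [pow_one]; linarith⟩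

theorem PB.g : PB 𝒲 𝒢.g := ⟨1, by filter_upwards [𝒲.ge] with t h1; rw [pow_one]; linarith⟩

theorem PB.add (hX : PB 𝒲 X) (hY : PB 𝒲 Y) : PB 𝒲 (fun t => X t + Y t) := by
  obtain ⟨C, hX⟩ := hX
  obtain ⟨D, hY⟩ := hY
  refine ⟨max C D + 1, ?_⟩
  filter_upwards [hX, hY, 𝒲.w_ge 2] with t h1 h2 h3
  have a1 : 𝒲.W t ^ C ≤ 𝒲.W t ^ max C D := pow_le_pow_right₀ (by linarith) (le_max_left _ _)
  have a2 : 𝒲.W t ^ D ≤ 𝒲.W t ^ max C D := pow_le_pow_right₀ (by linarith) (le_max_right _ _)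
  have a3 : 0 ≤ 𝒲.W t ^ max C D := by positivity
  rw [pow_succ]
  nlinarith

theorem PB.mul (hX : PB 𝒲 X) (hY : PB 𝒲 Y) (hX0 : ∀ᶠ t in (𝒢.T : Filter ℝ), 0 ≤ X t)
    (hY0 : ∀ᶠ t in (𝒢.T : Filter ℝ), 0 ≤ Y t) : PB 𝒲 (fun t => X t * Y t) := by
  obtain ⟨C, hX⟩ := hX
  obtain ⟨D, hY⟩ := hY
  refine ⟨C + D, ?_⟩
  filter_upwards [hX, hY, 𝒲.w_ge 2, hX0, hY0] with t h1 h2 h3 h4 h5
  rw [pow_add]
  exact mul_le_mul h1 h2 h5 (by positivity)

theorem PB.sum {ι : Type*} (s : Finset ι) {X : ι → ℝ → ℝ} (h : ∀ i ∈ s, PB 𝒲 (X i)) :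
    PB 𝒲 (fun t => ∑ i ∈ s, X i t) := by
  classical
  induction s using Finset.induction_on with
  | empty => simpa using PB.const (𝒲 := 𝒲) 0
  | insert a s ha ih =>
    have h1 := (h a (Finset.mem_insert_self _ _)).add
      (ih (fun i hi => h i (Finset.mem_insert_of_mem hi)))
    refine h1.mono ?_
    filter_upwards with t
    rw [Finset.sum_insert ha]

theorem PB.up (h : PB (sm 𝒢) X) : PB (lg 𝒢) X := by
  obtain ⟨C, h⟩ := h
  refine ⟨C, ?_⟩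
  filter_upwards [h, 𝒢.g_ge 0] with t h1 h2
  refine h1.trans (pow_le_pow_left₀ h2 ?_ C)
  change 𝒢.g t ≤ Real.exp (𝒢.g t)
  have := Real.add_one_le_exp (𝒢.g t)
  linarith

/-- the logarithm brings down the size -/
theorem PB.log (h : PB (lg 𝒢) X) (h1 : ∀ᶠ t in (𝒢.T : Filter ℝ), 0 < X t) :
    PB (sm 𝒢) (fun t => Real.log (X t)) := by
  obtain ⟨C, h⟩ := h
  refine ⟨2, ?_⟩
  filter_upwards [h, h1, 𝒢.g_ge C, 𝒢.g_ge 0] with t h2 h3 h4 h5
  have h6 := Real.log_le_log h3 h2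
  have e : Real.log ((lg 𝒢).W t ^ C) = C * 𝒢.g t := by
    change Real.log (Real.exp (𝒢.g t) ^ C) = _
    rw [Real.log_pow, Real.log_exp]
  rw [e] at h6
  change _ ≤ 𝒢.g t ^ 2
  nlinarith

theorem PB.invδ : PB 𝒲 (fun t => 1 / 𝒢.δ t) := by
  refine PB.mono (X := fun t => 4 * (𝒢.g t * 𝒢.g t)) ?_ ?_
  · refine PB.mul (PB.const 4) (PB.mul PB.g PB.g (𝒢.g_ge 0) (𝒢.g_ge 0)) ?_ ?_
    · filter_upwards with t; norm_num
    · filter_upwards [𝒢.g_ge 0] with t h; positivity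
  · filter_upwards with t
    have := 𝒢.δg t
    nlinarith

/-- growth class -/
def Cl (𝒲 : Size 𝒢) (f : ℂ → ℂ) : Prop :=
  Differentiable ℂ f ∧ ∀ ρ : ℝ, 0 < ρ → ∃ X, PB 𝒲 X ∧ ∀ᶠ t in (𝒢.T : Filter ℝ), 0 ≤ X t ∧
    ∀ z, ‖z‖ ≤ Real.exp (t + (1 - ρ) * 𝒢.δ t) → ‖f z‖ ≤ Real.exp (X t)

variable {f h : ℂ → ℂ}

theorem Cl.const (c : ℂ) : Cl 𝒲 (fun _ => c) := by
  refine ⟨differentiable_const _, fun ρ hρ => ⟨fun _ => Real.log (1 + ‖c‖), PB.const _, ?_⟩⟩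
  filter_upwards with t
  refine ⟨Real.log_nonneg (by linarith [norm_nonneg c]), fun z _ => ?_⟩
  rw [Real.exp_log (by positivity)]
  linarith

theorem Cl.id : Cl 𝒲 (fun z => z) := by
  refine ⟨differentiable_id, fun ρ hρ => ⟨fun t => t + 1, PB.id.add (PB.const 1), ?_⟩⟩
  filter_upwards [𝒢.ev_ge 0] with t ht
  refine ⟨by linarith, fun z hz => hz.trans (Real.exp_le_exp.mpr ?_)⟩
  have h1 := 𝒢.δle t
  have h2 := (𝒢.δpos t).le
  nlinarith

theorem Cl.mul (hf : Cl 𝒲 f) (hh : Cl 𝒲 h) : Cl 𝒲 (fun z => f z * h z) := by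
  refine ⟨hf.1.mul hh.1, fun ρ hρ => ?_⟩
  obtain ⟨X, hX, h1⟩ := hf.2 ρ hρ
  obtain ⟨Y, hY, h2⟩ := hh.2 ρ hρ
  refine ⟨fun t => X t + Y t, hX.add hY, ?_⟩
  filter_upwards [h1, h2] with t h1 h2
  refine ⟨add_nonneg h1.1 h2.1, fun z hz => ?_⟩
  rw [norm_mul, Real.exp_add]
  exact mul_le_mul (h1.2 z hz) (h2.2 z hz) (norm_nonneg _) (Real.exp_nonneg _)

theorem Cl.add (hf : Cl 𝒲 f) (hh : Cl 𝒲 h) : Cl 𝒲 (fun z => f z + h z) := by
  refine ⟨hf.1.add hh.1, fun ρ hρ => ?_⟩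
  obtain ⟨X, hX, h1⟩ := hf.2 ρ hρ
  obtain ⟨Y, hY, h2⟩ := hh.2 ρ hρ
  refine ⟨fun t => X t + Y t + 1, (hX.add hY).add (PB.const 1), ?_⟩
  filter_upwards [h1, h2] with t h1 h2
  refine ⟨by linarith [h1.1, h2.1], fun z hz => ?_⟩
  have a1 := h1.2 z hz
  have a2 := h2.2 z hz
  have b1 : Real.exp (X t) ≤ Real.exp (X t + Y t) := Real.exp_le_exp.mpr (by linarith [h2.1])
  have b2 : Real.exp (Y t) ≤ Real.exp (X t + Y t) := Real.exp_le_exp.mpr (by linarith [h1.1])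
  have b3 : 2 * Real.exp (X t + Y t) ≤ Real.exp (X t + Y t + 1) := by
    rw [Real.exp_add (X t + Y t) 1, mul_comm]
    apply mul_le_mul_of_nonneg_left _ (Real.exp_nonneg _)
    have := Real.add_one_le_exp 1
    linarith
  calc ‖f z + h z‖ ≤ ‖f z‖ + ‖h z‖ := norm_add_le _ _
    _ ≤ _ := by linarith

theorem Cl.neg (hf : Cl 𝒲 f) : Cl 𝒲 (fun z => - f z) := by
  have := (Cl.const (𝒲 := 𝒲) (-1)).mul hf
  simpa using this

theorem Cl.deriv (hf : Cl 𝒲 f) : Cl 𝒲 (deriv f) := by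
  refine ⟨fun z => (hf.1.analyticAt z).deriv.differentiableAt, fun ρ hρ => ?_⟩
  obtain ⟨X, hX, h1⟩ := hf.2 (ρ / 2) (by positivity)
  refine ⟨fun t => X t + 2 / ρ * (1 / 𝒢.δ t), hX.add (PB.mul (PB.const _) PB.invδ ?_ ?_), ?_⟩
  · filter_upwards with t; positivity
  · filter_upwards with t; have := 𝒢.δpos t; positivity
  filter_upwards [h1, 𝒢.ev_ge ρ] with t h1 h0
  have hδ := 𝒢.δpos t
  have hδ1 := 𝒢.δle t
  refine ⟨add_nonneg h1.1 (by positivity), fun z hz => ?_⟩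
  set ε := ρ / 2 * 𝒢.δ t with hε
  have hε0 : 0 < ε := by positivity
  set r := Real.exp (t + (1 - ρ) * 𝒢.δ t) with hr
  have hr1 : 1 ≤ r := by
    apply Real.one_le_exp
    nlinarith
  have hC := Complex.norm_deriv_le_of_forall_mem_sphere_norm_le (c := z)
    (R := r * ε) (C := Real.exp (X t)) (f := f) (by positivity) hf.1.diffContOnCl (by
      intro w hw
      apply h1.2
      rw [mem_sphere, dist_eq_norm] at hw
      have h2 : ‖w‖ ≤ ‖z‖ + ‖w - z‖ := by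
        have := norm_add_le z (w - z)
        rwa [add_sub_cancel] at this
      have h3 : r * (1 + ε) ≤ r * Real.exp ε := by
        apply mul_le_mul_of_nonneg_left _ (by positivity)
        have := Real.add_one_le_exp ε
        linarith
      have h4 : r * Real.exp ε = Real.exp (t + (1 - ρ / 2) * 𝒢.δ t) := by
        rw [hr, ← Real.exp_add]
        congr 1
        rw [hε]; ring
      rw [← h4]
      linarith)
  refine hC.trans ?_
  rw [Real.exp_add]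
  have h5 : 1 / (r * ε) ≤ Real.exp (2 / ρ * (1 / 𝒢.δ t)) := by
    have h6 : 1 / (r * ε) ≤ 1 / ε := by
      apply div_le_div_of_nonneg_left zero_le_one hε0
      nlinarith
    have h7 : 1 / ε = 2 / ρ * (1 / 𝒢.δ t) := by rw [hε]; field_simp
    have h8 := Real.add_one_le_exp (2 / ρ * (1 / 𝒢.δ t))
    rw [h7] at h6
    linarith
  rw [div_eq_mul_one_div]
  exact mul_le_mul_of_nonneg_left h5 (Real.exp_nonneg _)

theorem Cl.up (hf : Cl (sm 𝒢) f) : Cl (lg 𝒢) f := by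
  refine ⟨hf.1, fun ρ hρ => ?_⟩
  obtain ⟨X, hX, h1⟩ := hf.2 ρ hρ
  exact ⟨X, hX.up, h1⟩

/-- a good circle in a growth context -/
theorem ctxCircle {ι : Type*} (s : Finset ι) (f : ι → ℂ → ℂ) (hf : ∀ i ∈ s, Cl (lg 𝒢) (f i))
    (hx : ∀ i ∈ s, ∃ x, f i x ≠ 0) {α β : ℝ} (hα : 0 ≤ α) (hαβ : α < β) (hβ : β < 1) :
    ∃ X Y : ℝ → ℝ, PB (lg 𝒢) X ∧ PB (sm 𝒢) Y ∧ ∀ᶠ t in (𝒢.T : Filter ℝ),
      ∃ r, Real.exp (t + α * 𝒢.δ t) ≤ r ∧ r ≤ Real.exp (t + β * 𝒢.δ t) ∧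
        ∀ i ∈ s, ∀ z, ‖z‖ = r → f i z ≠ 0 ∧ ‖deriv (f i) z‖ ≤ X t * ‖f i z‖ ∧
          (Cl (sm 𝒢) (f i) → |Real.log ‖f i z‖| ≤ Y t) := by
  classical
  obtain ⟨c, hc0, hgc⟩ := goodCircle s f (fun i hi => (hf i hi).1) hx
  -- the bounds
  have hW : ∀ i, ∃ X : ℝ → ℝ, i ∈ s → PB (lg 𝒢) X ∧ (Cl (sm 𝒢) (f i) → PB (sm 𝒢) X) ∧
      ∀ᶠ t in (𝒢.T : Filter ℝ), 0 ≤ X t ∧
        ∀ z, ‖z‖ ≤ Real.exp (t + β * 𝒢.δ t) → ‖f i z‖ ≤ Real.exp (X t) := by
    intro i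
    by_cases hi : i ∈ s
    · by_cases hsm : Cl (sm 𝒢) (f i)
      · obtain ⟨X, hX, h⟩ := hsm.2 (1 - β) (by linarith)
        rw [sub_sub_cancel] at h
        exact ⟨X, fun _ => ⟨hX.up, fun _ => hX, h⟩⟩
      · obtain ⟨X, hX, h⟩ := (hf i hi).2 (1 - β) (by linarith)
        rw [sub_sub_cancel] at h
        exact ⟨X, fun _ => ⟨hX, fun h => absurd h hsm, h⟩⟩
    · exact ⟨fun _ => 0, fun h => absurd h hi⟩
  choose W hW using hW
  set κ := (β - α) / 3 with hκ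
  have hκ0 : 0 < κ := by rw [hκ]; linarith
  have hκ1 : κ ≤ 1 := by rw [hκ]; linarith
  set η : ℝ → ℝ := fun t => κ * 𝒢.δ t with hη
  have hη0 : ∀ t, 0 < η t := fun t => mul_pos hκ0 (𝒢.δpos t)
  have hη1 : ∀ t, η t ≤ 1 := fun t => by
    have := 𝒢.δle t; have := 𝒢.δpos t
    simp only [hη]; nlinarith
  have ev0 : ∀ i ∈ s, ∀ᶠ t in (𝒢.T : Filter ℝ), 0 ≤ W i t := fun i hi => by
    filter_upwards [(hW i hi).2.2] with t h using h.1
  -- polynomial bounds of the pieces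
  have pη : ∀ {𝒲 : Size 𝒢}, PB 𝒲 (fun t => 1 / η t) := by
    intro 𝒲
    refine PB.mono (X := fun t => 1 / κ * (1 / 𝒢.δ t)) ?_ ?_
    · refine PB.mul (PB.const _) PB.invδ ?_ ?_
      · filter_upwards with t; positivity
      · filter_upwards with t; have := 𝒢.δpos t; positivity
    · filter_upwards with t
      simp only [hη]
      rw [one_div_mul_one_div]
  have pη0 : ∀ᶠ t in (𝒢.T : Filter ℝ), 0 ≤ 1 / η t := by
    filter_upwards with t; have := hη0 t; positivity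
  set V : ι → ℝ → ℝ := fun i t => (W i t + c) / η t with hV
  have pV : ∀ i ∈ s, PB (lg 𝒢) (V i) := by
    intro i hi
    refine PB.mono (X := fun t => (W i t + c) * (1 / η t)) (PB.mul ((hW i hi).1.add (PB.const c))
      pη ?_ pη0) ?_
    · filter_upwards [ev0 i hi] with t h; linarith
    · filter_upwards with t; simp only [hV]; rw [mul_one_div]
  have pVs : ∀ i ∈ s, Cl (sm 𝒢) (f i) → PB (sm 𝒢) (V i) := by
    intro i hi hs
    refine PB.mono (X := fun t => (W i t + c) * (1 / η t)) (PB.mul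
      (((hW i hi).2.1 hs).add (PB.const c)) pη ?_ pη0) ?_
    · filter_upwards [ev0 i hi] with t h; linarith
    · filter_upwards with t; simp only [hV]; rw [mul_one_div]
  have V0 : ∀ i ∈ s, ∀ᶠ t in (𝒢.T : Filter ℝ), 0 ≤ V i t := by
    intro i hi
    filter_upwards [ev0 i hi] with t h
    have := hη0 t
    simp only [hV]; positivity
  have evall : ∀ᶠ t in (𝒢.T : Filter ℝ), ∀ i ∈ s, 0 ≤ W i t := by
    rw [Filter.eventually_all_finset]; exact ev0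
  have hNN0 : ∀ᶠ t in (𝒢.T : Filter ℝ), 0 ≤ ∑ j ∈ s, V j t := by
    filter_upwards [evall] with t h
    apply Finset.sum_nonneg
    intro i hi
    have := hη0 t
    have := h i hi
    simp only [hV]; positivity
  set q : ℝ → ℝ := fun t => 4 * ((∑ j ∈ s, V j t) + 1) * (1 / η t) with hq
  have pq : PB (lg 𝒢) q := by
    refine PB.mul (PB.mul (PB.const 4) ((PB.sum s pV).add (PB.const 1)) ?_ ?_) pη ?_ pη0
    · filter_upwards with t; norm_num
    · filter_upwards [hNN0] with t h; linarith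
    · filter_upwards [hNN0] with t h; linarith
  have q0 : ∀ᶠ t in (𝒢.T : Filter ℝ), 1 ≤ q t := by
    filter_upwards [hNN0] with t h
    have h1 : 1 ≤ 1 / η t := by rw [le_div_iff₀ (hη0 t)]; linarith [hη1 t]
    simp only [hq]
    nlinarith
  set lgg : ℝ → ℝ := fun t => Real.log (2 * (Real.exp (t + α * 𝒢.δ t) * Real.exp (2 * η t)))
    with hlgg
  have plg : ∀ {𝒲 : Size 𝒢}, PB 𝒲 lgg := by
    intro 𝒲
    refine PB.mono (X := fun t => t + 4) (PB.id.add (PB.const 4)) ?_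
    filter_upwards with t
    simp only [hlgg]
    rw [← Real.exp_add, Real.log_mul (by norm_num) (Real.exp_ne_zero _), Real.log_exp]
    have h1 := Real.log_le_sub_one_of_pos (show (0 : ℝ) < 2 by norm_num)
    have h2 := hη1 t
    have h3 := 𝒢.δle t
    have h4 := 𝒢.δpos t
    nlinarith
  have lg0 : ∀ᶠ t in (𝒢.T : Filter ℝ), 0 ≤ lgg t := by
    filter_upwards [𝒢.ev_ge 0] with t ht
    apply Real.log_nonneg
    rw [← Real.exp_add]
    have : 1 ≤ Real.exp (t + α * 𝒢.δ t + 2 * η t) := by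
      apply Real.one_le_exp
      have := 𝒢.δpos t
      have := hη0 t
      positivity
    linarith
  set A : ι → ℝ → ℝ := fun i t => 2 * (W i t + c) + 2 * V i t * lgg t with hA
  have pA : ∀ i ∈ s, PB (lg 𝒢) (A i) := by
    intro i hi
    refine PB.add (PB.mul (PB.const 2) ((hW i hi).1.add (PB.const c)) ?_ ?_)
      (PB.mul (PB.mul (PB.const 2) (pV i hi) ?_ (V0 i hi)) plg ?_ lg0)
    · filter_upwards with t; norm_num
    · filter_upwards [ev0 i hi] with t h; linarith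
    · filter_upwards with t; norm_num
    · filter_upwards [V0 i hi] with t h; linarith
  have pAs : ∀ i ∈ s, Cl (sm 𝒢) (f i) → PB (sm 𝒢) (A i) := by
    intro i hi hs
    refine PB.add (PB.mul (PB.const 2) (((hW i hi).2.1 hs).add (PB.const c)) ?_ ?_)
      (PB.mul (PB.mul (PB.const 2) (pVs i hi hs) ?_ (V0 i hi)) plg ?_ lg0)
    · filter_upwards with t; norm_num
    · filter_upwards [ev0 i hi] with t h; linarith
    · filter_upwards with t; norm_num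
    · filter_upwards [V0 i hi] with t h; linarith
  have A0 : ∀ i ∈ s, ∀ᶠ t in (𝒢.T : Filter ℝ), 0 ≤ A i t := by
    intro i hi
    filter_upwards [ev0 i hi, V0 i hi, lg0] with t h1 h2 h3
    simp only [hA]
    positivity
  set B : ι → ℝ → ℝ := fun i t => 50 * A i t * (1 / η t * (1 / η t)) with hB
  have pB : ∀ i ∈ s, PB (lg 𝒢) (B i) := by
    intro i hi
    refine PB.mul (PB.mul (PB.const 50) (pA i hi) ?_ (A0 i hi)) (PB.mul pη pη pη0 pη0) ?_ ?_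
    · filter_upwards with t; norm_num
    · filter_upwards [A0 i hi] with t h; linarith
    · filter_upwards [pη0] with t h; positivity
  have pBs : ∀ i ∈ s, Cl (sm 𝒢) (f i) → PB (sm 𝒢) (B i) := by
    intro i hi hs
    refine PB.mul (PB.mul (PB.const 50) (pAs i hi hs) ?_ (A0 i hi)) (PB.mul pη pη pη0 pη0) ?_ ?_
    · filter_upwards with t; norm_num
    · filter_upwards [A0 i hi] with t h; linarith
    · filter_upwards [pη0] with t h; positivity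
  have B0 : ∀ i ∈ s, ∀ᶠ t in (𝒢.T : Filter ℝ), 0 ≤ B i t := by
    intro i hi
    filter_upwards [A0 i hi, pη0] with t h1 h2
    simp only [hB]
    positivity
  -- the two final bounds
  set Φ1 : ι → ℝ → ℝ := fun i t => V i t * (Real.log (q t) + lgg t) + B i t with hΦ1
  set Φ2 : ι → ℝ → ℝ := fun i t => Real.exp 1 * (4 * (V i t + 1) * (1 + B i t) * q t) with hΦ2
  have pΦ1 : ∀ i ∈ s, Cl (sm 𝒢) (f i) → PB (sm 𝒢) (Φ1 i) := by
    intro i hi hs
    refine PB.add (PB.mul (pVs i hi hs) (PB.add (pq.log ?_) plg) (V0 i hi) ?_) (pBs i hi hs)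
    · filter_upwards [q0] with t h; linarith
    · filter_upwards [q0, lg0] with t h1 h2
      exact add_nonneg (Real.log_nonneg h1) h2
  have pΦ2 : ∀ i ∈ s, PB (lg 𝒢) (Φ2 i) := by
    intro i hi
    refine PB.mul (PB.const _) (PB.mul (PB.mul (PB.mul (PB.const 4) ((pV i hi).add (PB.const 1))
      ?_ ?_) ((PB.const 1).add (pB i hi)) ?_ ?_) pq ?_ ?_) ?_ ?_
    · filter_upwards with t; norm_num
    · filter_upwards [V0 i hi] with t h; linarith
    · filter_upwards [V0 i hi] with t h; positivity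
    · filter_upwards [B0 i hi] with t h; positivity
    · filter_upwards [V0 i hi, B0 i hi] with t h1 h2; positivity
    · filter_upwards [q0] with t h; linarith
    · filter_upwards with t; positivity
    · filter_upwards [V0 i hi, B0 i hi, q0] with t h1 h2 h3
      have : 0 ≤ q t := by linarith
      positivity
  have Φ10 : ∀ i ∈ s, ∀ᶠ t in (𝒢.T : Filter ℝ), 0 ≤ Φ1 i t := by
    intro i hi
    filter_upwards [V0 i hi, B0 i hi, q0, lg0] with t h1 h2 h3 h4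
    have := Real.log_nonneg h3
    simp only [hΦ1]
    positivity
  have Φ20 : ∀ i ∈ s, ∀ᶠ t in (𝒢.T : Filter ℝ), 0 ≤ Φ2 i t := by
    intro i hi
    filter_upwards [V0 i hi, B0 i hi, q0] with t h1 h2 h3
    have : 0 ≤ q t := by linarith
    simp only [hΦ2]
    positivity
  refine ⟨fun t => ∑ i ∈ s, Φ2 i t, fun t => ∑ i ∈ s.filter (fun i => Cl (sm 𝒢) (f i)), Φ1 i t,
    PB.sum s pΦ2, PB.sum _ (fun i hi => pΦ1 i (Finset.mem_filter.mp hi).1
      (Finset.mem_filter.mp hi).2), ?_⟩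
  have evb : ∀ᶠ t in (𝒢.T : Filter ℝ), ∀ i ∈ s,
      ∀ z, ‖z‖ ≤ Real.exp (t + β * 𝒢.δ t) → ‖f i z‖ ≤ Real.exp (W i t) := by
    rw [Filter.eventually_all_finset]
    intro i hi
    filter_upwards [(hW i hi).2.2] with t h using h.2
  have evΦ1 : ∀ᶠ t in (𝒢.T : Filter ℝ), ∀ i ∈ s, 0 ≤ Φ1 i t := by
    rw [Filter.eventually_all_finset]; exact Φ10
  have evΦ2 : ∀ᶠ t in (𝒢.T : Filter ℝ), ∀ i ∈ s, 0 ≤ Φ2 i t := by
    rw [Filter.eventually_all_finset]; exact Φ20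
  filter_upwards [evall, evb, evΦ1, evΦ2, 𝒢.ev_ge 0, hNN0] with t h1 h2 h3 h4 h5 hN0
  have hδ := 𝒢.δpos t
  obtain ⟨r, hr1, hr2, hr3⟩ := hgc (Real.exp (t + α * 𝒢.δ t)) (η t) (fun i => W i t)
    (Real.one_le_exp (by positivity)) (hη0 t) (hη1 t) h1 (by
      intro i hi z hz
      apply h2 i hi z
      rw [← Real.exp_add] at hz
      refine hz.trans (le_of_eq ?_)
      congr 1
      simp only [hη, hκ]
      ring)
  refine ⟨r, hr1, hr2.trans ?_, ?_⟩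
  · rw [← Real.exp_add]
    apply Real.exp_le_exp.mpr
    simp only [hη, hκ]
    nlinarith
  intro i hi z hz
  obtain ⟨lg', dd, A', e1, e2, e3, h6⟩ := hr3 i hi
  obtain ⟨h7, h8, h9⟩ := h6 z hz
  have hηt := hη0 t
  have e1' : lg' = lgg t := e1
  have e2' : 1 / dd = q t := by
    rw [e2]
    simp only [hq, hV]
    field_simp
  have e3' : A' = A i t := by rw [e3, e1']
  have e4 : 50 * A' / η t ^ 2 = B i t := by
    rw [e3']
    simp only [hB]
    field_simp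
  refine ⟨h7, ?_, ?_⟩
  · refine h9.trans ?_
    apply mul_le_mul_of_nonneg_right _ (norm_nonneg _)
    rw [e4]
    have e5 : Real.exp 1 * (4 * ((W i t + c) / η t + 1) * (1 + B i t) / dd) = Φ2 i t := by
      simp only [hΦ2, ← e2', hV]
      ring
    rw [e5]
    exact Finset.single_le_sum (f := fun i => Φ2 i t) (fun j hj => h4 j hj) hi
  · intro hs
    refine h8.trans ?_
    rw [e4, e2', e1']
    exact Finset.single_le_sum (f := fun i => Φ1 i t)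
      (fun j hj => h3 j (Finset.mem_filter.mp hj).1) (Finset.mem_filter.mpr ⟨hi, hs⟩)

end Pool.Agent.TH217.BA
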