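import Pool.Agent.TH217.BA4

/-!
Logarithmic derivatives of units are small; the ultrafilter of points where a big function is
large.
-/

set_option autoImplicit false

namespace Pool.Agent.TH217.BA

open Filter Metric Real Set Topology

variable {𝒢 : GC} {𝒲 : Size 𝒢} {X : ℝ → ℝ} {f : ℂ → ℂ}

theorem PB.max0 (h : PB 𝒲 X) : PB 𝒲 (fun t => max (X t) 0) := by
  obtain ⟨C, h⟩ := h
  refine ⟨C, ?_⟩
  filter_upwards [h, 𝒲.w_ge 0] with t h1 h2
  exact max_le h1 (by positivity)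

theorem ball_bound {b : ℂ → ℂ} (hb : Differentiable ℂ b) {r C : ℝ} (hr : 0 < r)
    (h : ∀ z, ‖z‖ = r → ‖b z‖ ≤ C) {z : ℂ} (hz : ‖z‖ ≤ r) : ‖b z‖ ≤ C := by
  apply Complex.norm_le_of_forall_mem_frontier_norm_le (U := ball (0 : ℂ) r) isBounded_ball
    hb.diffContOnCl
  · intro w hw
    rw [frontier_ball _ hr.ne', mem_sphere, dist_zero_right] at hw
    exact h w hw
  · rw [closure_ball _ hr.ne', mem_closedBall, dist_zero_right]
    exact hz

/-- the logarithmic derivative of a unit is small -/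
theorem Cl.logDeriv {e b : ℂ → ℂ} (he : Cl (lg 𝒢) e) (hne : ∀ z, e z ≠ 0)
    (hb : Differentiable ℂ b) (hbe : ∀ z, _root_.deriv e z = b z * e z) : Cl (sm 𝒢) b := by
  refine ⟨hb, fun ρ hρ => ?_⟩
  set ρ' := min ρ (1 / 2) with hρ'
  have h0 : 0 < ρ' := lt_min hρ (by norm_num)
  have h1 : ρ' ≤ 1 / 2 := min_le_right _ _
  obtain ⟨X, Y, hX, hY, hev⟩ := ctxCircle (𝒢 := 𝒢) ({()} : Finset Unit) (fun _ => e)
    (fun _ _ => he) (fun _ _ => ⟨0, hne 0⟩) (α := 1 - ρ') (β := 1 - ρ' / 2) (by linarith)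
    (by linarith) (by linarith)
  refine ⟨fun t => Real.log (1 + max (X t) 0), PB.log ((PB.const 1).add hX.max0) ?_, ?_⟩
  · filter_upwards with t
    have := le_max_right (X t) 0
    linarith
  · filter_upwards [hev, 𝒢.ev_ge 0] with t ht ht0
    have hm := le_max_right (X t) 0
    refine ⟨Real.log_nonneg (by linarith), fun z hz => ?_⟩
    obtain ⟨r, hr1, hr2, hr3⟩ := ht
    have hδ := 𝒢.δpos t
    have hr : 0 < r := (Real.exp_pos _).trans_le hr1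
    rw [Real.exp_log (by linarith)]
    have hzr : ‖z‖ ≤ r := by
      refine hz.trans (le_trans ?_ hr1)
      apply Real.exp_le_exp.mpr
      have : ρ' ≤ ρ := min_le_left _ _
      nlinarith
    have := ball_bound hb (C := X t) hr (fun w hw => by
      obtain ⟨a1, a2, a3⟩ := hr3 () (by simp) w hw
      rw [hbe, norm_mul] at a2
      exact le_of_mul_le_mul_right a2 (norm_pos_iff.mpr a1)) hzr
    linarith [le_max_left (X t) 0]

/-- big functions -/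
def Big (𝒢 : GC) (φ : ℂ → ℂ) : Prop :=
  ∀ C : ℕ, ∀ᶠ t in (𝒢.T : Filter ℝ), ∃ z, ‖z‖ ≤ Real.exp t ∧ 𝒢.g t ^ C ≤ Real.log ‖φ z‖

/-- the conditions on a point -/
def Qs (𝒢 : GC) (φ f : ℂ → ℂ) (n : ℕ) : Set ℂ :=
  {z | (n : ℝ) ≤ Real.log ‖φ z‖ ∧ f z ≠ 0 ∧
    ‖deriv f z‖ ≤ Real.exp (Real.log ‖φ z‖ / (n + 1)) * ‖f z‖ ∧
    (Cl (sm 𝒢) f → |Real.log ‖f z‖| ≤ Real.log ‖φ z‖ / (n + 1))}

theorem exists_point {φ : ℂ → ℂ} (hφ : Differentiable ℂ φ) (hbig : Big 𝒢 φ) {ι : Type*}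
    (s : Finset ι) (f : ι → ℂ → ℂ) (hf : ∀ i ∈ s, Cl (lg 𝒢) (f i))
    (hx : ∀ i ∈ s, ∃ x, f i x ≠ 0) (n : ℕ) : ∃ z, ∀ i ∈ s, z ∈ Qs 𝒢 φ (f i) n := by
  obtain ⟨X, Y, ⟨C, hX⟩, ⟨D, hY⟩, hev⟩ := ctxCircle (𝒢 := 𝒢) s f hf hx (α := 0) (β := 1 / 2)
    le_rfl (by norm_num) (by norm_num)
  set E := max C D + 3 with hE
  have hlim := (𝒢.g_ge (max (n + 1 : ℝ) (max C 1)))
  obtain ⟨t, ⟨⟨⟨⟨h1, h2⟩, h3⟩, h4⟩, h5⟩, h6⟩ := (((((hX.and hY).and hev).and (hbig E)).and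
    hlim).and (𝒢.ev_ge 0)).exists
  obtain ⟨r, hr1, hr2, hr3⟩ := h3
  obtain ⟨z0, hz0, hz0'⟩ := h4
  have hr : 0 < r := (Real.exp_pos _).trans_le hr1
  rw [zero_mul, add_zero] at hr1
  obtain ⟨z, hz, hmax⟩ := Complex.exists_mem_frontier_isMaxOn_norm (f := φ) (U := ball (0 : ℂ) r)
    isBounded_ball ⟨0, by simpa using hr⟩ hφ.diffContOnCl
  rw [frontier_ball _ hr.ne', mem_sphere, dist_zero_right] at hz
  set g := 𝒢.g t with hg
  have g1 : 1 ≤ g := (le_max_right _ _).trans ((le_max_right _ _).trans h5)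
  have gn : (n + 1 : ℝ) ≤ g := (le_max_left _ _).trans h5
  have gC : (C : ℝ) ≤ g := (le_max_left _ _).trans ((le_max_right _ _).trans h5)
  -- the size of `φ` at the point
  have hs : g ^ E ≤ Real.log ‖φ z‖ := by
    refine hz0'.trans ?_
    have h7 : ‖φ z0‖ ≤ ‖φ z‖ := by
      apply hmax
      rw [closure_ball _ hr.ne', mem_closedBall, dist_zero_right]
      linarith
    have h8 : φ z0 ≠ 0 := by
      intro h
      rw [h, norm_zero, Real.log_zero] at hz0'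
      have : 0 < g ^ E := by positivity
      linarith
    exact Real.log_le_log (norm_pos_iff.mpr h8) h7
  set S := Real.log ‖φ z‖ with hS
  have gE : g ^ E = g ^ max C D * g ^ 3 := by rw [hE, pow_add]
  have gm1 : 1 ≤ g ^ max C D := one_le_pow₀ g1
  have k1 : g ^ max C D * g ^ 2 ≤ S / (n + 1) := by
    rw [le_div_iff₀ (by positivity)]
    have : g ^ max C D * g ^ 2 * (n + 1) ≤ g ^ max C D * g ^ 2 * g :=
      mul_le_mul_of_nonneg_left gn (by positivity)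
    nlinarith
  have k3 : g ^ 2 ≤ g ^ max C D * g ^ 2 := le_mul_of_one_le_left (by positivity) gm1
  have k4 : g ^ max C D ≤ g ^ max C D * g ^ 2 :=
    le_mul_of_one_le_right (by positivity) (one_le_pow₀ g1)
  have k2 : g ^ 2 ≤ S := by
    have h7 : g ^ 2 ≤ g ^ 3 := pow_le_pow_right₀ g1 (by norm_num)
    have : 1 * g ^ 3 ≤ g ^ max C D * g ^ 3 := mul_le_mul_of_nonneg_right gm1 (by positivity)
    linarith
  refine ⟨z, fun i hi => ?_⟩
  obtain ⟨a1, a2, a3⟩ := hr3 i hi z hz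
  refine ⟨?_, a1, ?_, ?_⟩
  · change (n : ℝ) ≤ S
    nlinarith
  · refine a2.trans ?_
    apply mul_le_mul_of_nonneg_right _ (norm_nonneg _)
    refine h1.trans ?_
    change Real.exp g ^ C ≤ _
    rw [← Real.exp_nat_mul]
    apply Real.exp_le_exp.mpr
    change (C : ℝ) * g ≤ S / (n + 1)
    nlinarith
  · intro hs'
    refine (a3 hs').trans (h2.trans ?_)
    change g ^ D ≤ S / (n + 1)
    have : g ^ D ≤ g ^ max C D := pow_le_pow_right₀ g1 (le_max_right _ _)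
    linarith

/-- the ultrafilter -/
theorem exists_ultra {φ : ℂ → ℂ} (hφ : Differentiable ℂ φ) (hbig : Big 𝒢 φ) :
    ∃ U : Ultrafilter ℂ, ∀ f, Cl (lg 𝒢) f → (∃ x, f x ≠ 0) → ∀ n, Qs 𝒢 φ f n ∈ U := by
  classical
  set S : Set (Set ℂ) := {A | ∃ f n, Cl (lg 𝒢) f ∧ (∃ x, f x ≠ 0) ∧ A = Qs 𝒢 φ f n} with hS
  obtain ⟨U, hU⟩ := Ultrafilter.exists_ultrafilter_of_finite_inter_nonempty S (by
    intro T hT
    have h1 : ∀ A ∈ T, ∃ (f : ℂ → ℂ) (n : ℕ), Cl (lg 𝒢) f ∧ (∃ x, f x ≠ 0) ∧ A = Qs 𝒢 φ f n :=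
      fun A hA => hT hA
    choose! F m h1 using h1
    obtain ⟨z, hz⟩ := exists_point hφ hbig T F (fun A hA => (h1 A hA).1)
      (fun A hA => (h1 A hA).2.1) (T.sup m)
    refine ⟨z, fun A hA => ?_⟩
    rw [(h1 A hA).2.2]
    have hm : (m A : ℝ) ≤ (T.sup m : ℕ) := by exact_mod_cast Finset.le_sup (f := m) hA
    obtain ⟨a1, a2, a3, a4⟩ := hz A hA
    have hS0 : 0 ≤ Real.log ‖φ z‖ := (Nat.cast_nonneg _).trans a1
    have hdiv : Real.log ‖φ z‖ / ((T.sup m : ℕ) + 1) ≤ Real.log ‖φ z‖ / (m A + 1) := by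
      apply div_le_div_of_nonneg_left hS0 (by positivity)
      linarith
    refine ⟨hm.trans a1, a2, a3.trans ?_, fun h => (a4 h).trans hdiv⟩
    apply mul_le_mul_of_nonneg_right _ (norm_nonneg _)
    exact Real.exp_le_exp.mpr hdiv)
  exact ⟨U, fun f hf hx n => hU ⟨f, n, hf, hx, rfl⟩⟩

end Pool.Agent.TH217.BA
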