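import Pool.Agent.TH217.BC6

/-!
Five equal differences, conclusion; small differences.
-/

set_option autoImplicit false
set_option linter.unusedSectionVars false

namespace Pool.Agent.TH217.BC

variable {K : Type*} [Field K] [CharZero K] {𝒦 : DF K}
variable {L M : ℕ → K} {N : ℕ}

open Place

/-- two quadratic sequences with product one -/
theorem quad {g : ℕ → K} {c c' : K} (hc : c ≠ 0) (hc' : c' ≠ 0) (hg : ∀ n, n ≤ 4 → g n ≠ 0)
    (h : ∀ n, n ≤ 2 → g (n + 2) - 2 * g (n + 1) + g n = c)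
    (h' : ∀ n, n ≤ 2 → (g (n + 2))⁻¹ - 2 * (g (n + 1))⁻¹ + (g n)⁻¹ = c') : False := by
  have a0 := h 0 (by omega)
  have a1 := h 1 (by omega)
  have a2 := h 2 (by omega)
  have b0 := h' 0 (by omega)
  have b1 := h' 1 (by omega)
  have b2 := h' 2 (by omega)
  simp only [Nat.zero_add, Nat.reduceAdd] at a0 a1 a2 b0 b1 b2
  have p0 := mul_inv_cancel₀ (hg 0 (by omega))
  have p1 := mul_inv_cancel₀ (hg 1 (by omega))
  have p2 := mul_inv_cancel₀ (hg 2 (by omega))
  have p3 := mul_inv_cancel₀ (hg 3 (by omega))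
  have p4 := mul_inv_cancel₀ (hg 4 (by omega))
  generalize (g 0)⁻¹ = h0 at *
  generalize (g 1)⁻¹ = h1 at *
  generalize (g 2)⁻¹ = h2 at *
  generalize (g 3)⁻¹ = h3 at *
  generalize (g 4)⁻¹ = h4 at *
  generalize g 0 = g0 at *
  generalize g 1 = g1 at *
  generalize g 2 = g2 at *
  generalize g 3 = g3 at *
  generalize g 4 = g4 at *
  have e2 : g2 = 2 * g1 - g0 + c := by linear_combination a0
  have e3 : g3 = 3 * g1 - 2 * g0 + 3 * c := by linear_combination a1 + 2 * a0
  have e4 : g4 = 4 * g1 - 3 * g0 + 6 * c := by linear_combination a2 + 2 * a1 + 3 * a0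
  have f2 : h2 = 2 * h1 - h0 + c' := by linear_combination b0
  have f3 : h3 = 3 * h1 - 2 * h0 + 3 * c' := by linear_combination b1 + 2 * b0
  have f4 : h4 = 4 * h1 - 3 * h0 + 6 * c' := by linear_combination b2 + 2 * b1 + 3 * b0
  subst e2 e3 e4 f2 f3 f4
  have : 6 * (c * c') = 0 := by
    linear_combination p4 - 4 * p3 + 6 * p2 - 4 * p1 + p0
  exact (mul_ne_zero (by norm_num) (mul_ne_zero hc hc')) this

/-- the alternative for a unit: small, or large together with its inverse -/
def UDich (𝒦 : DF K) (e : K) : Prop :=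
  e ∈ 𝒦.k0 ∨ ((∃ P : Place 𝒦, e ∉ P.A) ∧ (∃ P : Place 𝒦, e⁻¹ ∉ P.A))

namespace Sys

variable (S : Sys 𝒦 L M N)
include S

theorem fiveEnd (hN : 5 ≤ N) (h5 : Five L M 0) (hU : UDich 𝒦 (M 0 / L 0))
    (ha : M 0 - L 0 ∈ 𝒦.k0 ∨ ∃ P : Place 𝒦, M 0 - L 0 ∉ P.A)
    (hs : M 0 / L 0 ∈ 𝒦.k0 → M 0 - L 0 ∈ 𝒦.k0 → BB L M 0 = 0) : BB L M 0 = 0 := by
  by_contra hb0
  have hB01 : BB L M 0 = BB L M 1 := h5.1
  have g01 : ∀ g : ℕ → K, (∀ n, g n = (M 0 / L 0) / (M n / L n)) →
      (∀ n, n ≤ 3 → g (n + 1) = g n) → False := by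
    intro g hg h
    have e0 := S.e0 (n := 0) (by omega)
    have e1 := S.e0 (n := 1) (by omega)
    have e2 := S.e0 (n := 2) (by omega)
    have h0 := h 0 (by omega)
    have h1 := h 1 (by omega)
    rw [hg, hg] at h0
    rw [hg, hg] at h1
    simp only [Nat.zero_add, Nat.reduceAdd] at h0 h1
    rw [div_eq_div_iff e1 e0] at h0
    rw [div_eq_div_iff e2 e1] at h1
    exact S.gamma3 (by omega) hb0 hB01 (mul_left_cancel₀ e0 h0) (mul_left_cancel₀ e0 h1)
  rcases hU with hk | ⟨⟨P1, h1⟩, ⟨P2, h2⟩⟩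
  · rcases ha with ha | ⟨P, ha⟩
    · exact hb0 (hs hk ha)
    · -- the quotient is small and the difference is large
      have ek : ∀ n, n ≤ 4 → M n / L n ∈ 𝒦.k0 := by
        intro n hn
        have h1 := 𝒦.const0 _ (S.gconst h5 hN hn)
        have h2 := S.e0 (n := n) (by omega)
        have h3 := S.e0 (n := 0) (by omega)
        have h4 : M n / L n = (M 0 / L 0) / ((M 0 / L 0) / (M n / L n)) := by
          rw [div_div_cancel₀ h3]
        rw [h4]
        exact 𝒦.k0.div_mem hk h1
      have aA : ∀ n, n ≤ 4 → M n - L n ∉ P.A := by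
        intro n
        induction n with
        | zero => intro _; exact ha
        | succ n ih =>
          intro hn
          have : M (n + 1) - L (n + 1) = (M n - L n) + BB L M n := by unfold BB; ring
          rw [this]
          exact nmem_add (ih (by omega)) (P.k0A _ (S.Bk' (by omega)))
      have key : ∀ n, n ≤ 3 → M (n + 1) / L (n + 1) = M n / L n := by
        intro n hn
        have x0 := S.e1 (n := n) (by omega)
        have x1 := S.e1 (n := n + 1) (by omega)
        have k0' := ek n (by omega)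
        have k1 := ek (n + 1) (by omega)
        have l0 := S.Leq (n := n) (by omega)
        have l1 := S.Leq (n := n + 1) (by omega)
        have Y := S.Ymem P (n := n) (by omega)
        have hb : BB L M n ∈ 𝒦.k0 := S.Bk' (by omega)
        have an1 : M (n + 1) - L (n + 1) = (M n - L n) + BB L M n := by unfold BB; ring
        rw [an1] at l1
        have aa := aA n (by omega)
        generalize M (n + 1) / L (n + 1) = e1 at *
        generalize M n / L n = e0 at *
        have x0' : e0 - 1 ≠ 0 := sub_ne_zero.mpr x0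
        have x1' : e1 - 1 ≠ 0 := sub_ne_zero.mpr x1
        by_contra hne
        have hne' : e0 - e1 ≠ 0 := sub_ne_zero.mpr (Ne.symm hne)
        set κ := (e0 - e1) / ((e0 - 1) * (e1 - 1)) with hκ
        have κ0 : κ ≠ 0 := div_ne_zero hne' (mul_ne_zero x0' x1')
        have κk : κ ∈ 𝒦.k0 := 𝒦.k0.div_mem (𝒦.k0.sub_mem k0' k1) (𝒦.k0.mul_mem
          (𝒦.k0.sub_mem k0' 𝒦.k0.one_mem) (𝒦.k0.sub_mem k1 𝒦.k0.one_mem))
        have hY : (M n - L n) * κ = (L (n + 1) - L n) - BB L M n / (e1 - 1) := by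
          have z0 : L n * (e0 - 1) = M n - L n := (eq_div_iff x0').mp l0
          have z1 : L (n + 1) * (e1 - 1) = (M n - L n) + BB L M n := (eq_div_iff x1').mp l1
          rw [hκ, ← z0]
          rw [← z0] at z1
          have z2 : BB L M n = L (n + 1) * (e1 - 1) - L n * (e0 - 1) := by linear_combination -z1
          rw [z2]
          field_simp
          ring
        apply nmem_mul aa (not_m_k0 κk κ0)
        rw [hY]
        exact sub_mem Y (P.k0A _ (𝒦.k0.div_mem hb (𝒦.k0.sub_mem k1 𝒦.k0.one_mem)))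
      exact S.gamma3 (by omega) hb0 hB01 (key 0 (by omega)).symm (key 1 (by omega)).symm
  · have A1 := S.plus hN h5 hb0 P1 h1 (g := fun n => (M 0 / L 0) / (M n / L n)) (fun n => rfl)
    have hb0' : BB M L 0 ≠ 0 := by
      intro h
      apply hb0
      have : BB L M 0 = - BB M L 0 := by unfold BB; ring
      rw [this, h, neg_zero]
    have h2' : L 0 / M 0 ∉ P2.A := by rwa [inv_div] at h2
    have A2 := S.swap.plus hN h5.swap hb0' P2 h2' (g := fun n => (L 0 / M 0) / (L n / M n))
      (fun n => rfl)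
    rcases A1 with A1 | ⟨c, hc, A1⟩
    · exact g01 _ (fun n => rfl) A1
    have inv : ∀ n, (L 0 / M 0) / (L n / M n) = ((M 0 / L 0) / (M n / L n))⁻¹ := by
      intro n
      rw [inv_div, div_div_div_eq, div_div_div_eq, mul_comm (L 0), mul_comm (M 0)]
    rcases A2 with A2 | ⟨c', hc', A2⟩
    · refine g01 (fun n => (M 0 / L 0) / (M n / L n)) (fun n => rfl) ?_
      intro n hn
      have := A2 n hn
      simp only [inv] at this
      exact inv_injective this
    · simp only [inv] at A2
      refine quad (g := fun n => (M 0 / L 0) / (M n / L n)) hc hc' ?_ A1 A2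
      intro n hn
      exact div_ne_zero (S.e0 (by omega)) (S.e0 (by omega))

/-! ### small differences -/

/-- small difference, large quotient -/
theorem smallBig {n : ℕ} (hn : n + 1 < N) (ha : M n - L n ∈ 𝒦.k0)
    (h1 : ∃ P : Place 𝒦, M n / L n ∉ P.A) (h2 : ∃ P : Place 𝒦, (M n / L n)⁻¹ ∉ P.A) :
    M n - L n = BB L M n := by
  have l1 : ∀ P : Place 𝒦, L (n + 1) = (M n - L n) / (M n / L n - 1) +
      (𝒦.d (M n - L n) / (M n - L n) - BB L M n * (M n / L n) / (M n / L n - 1)) := by
    intro P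
    have a0 := S.a0 n (by omega)
    have l0 := S.L0 n (by omega)
    have y := S.Yeq (n := n) (by omega)
    have leq := S.Leq (n := n) (by omega)
    have de := S.de (n := n) (by omega)
    have x0 : M n / L n - 1 ≠ 0 := sub_ne_zero.mpr (S.e1 (n := n) (by omega))
    have dl : 𝒦.d (L n) = 𝒦.d ((M n - L n) / (M n / L n - 1)) := by rw [← leq]
    rw [𝒦.ddiv _ x0, map_sub 𝒦.d (M n / L n) 1, 𝒦.done, sub_zero, de] at dl
    have e1 : L (n + 1) = L n + 𝒦.d (L n) / L n := by rw [← y]; ring
    have leq' : L n * (M n / L n - 1) = M n - L n := by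
      conv_lhs => rw [leq]
      field_simp
    rw [e1, dl]
    generalize 𝒦.d (M n - L n) = da at *
    generalize M n / L n = e at *
    generalize M n - L n = a at *
    generalize BB L M n = b at *
    subst leq'
    field_simp
  have bk := S.Bk' (n := n) (by omega)
  have a0 := S.a0 n (by omega)
  set a := M n - L n with had
  set b := BB L M n with hbd
  set w := 𝒦.d a / a with hw
  have wk : w ∈ 𝒦.k0 := 𝒦.k0.div_mem (𝒦.dk0 _ ha) ha
  have hM1 : M (n + 1) = L (n + 1) + (a + b) := by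
    rw [had, hbd]; unfold BB; ring
  have ab0 : a + b ≠ 0 := by
    have := S.a0 (n + 1) (by omega)
    intro h
    apply this
    rw [hM1, h]; ring
  have bne : b ≠ 0 := by
    intro h
    obtain ⟨P, hP⟩ := h1
    apply hP
    apply P.k0A
    apply 𝒦.const0
    rw [S.de (by omega), ← hbd, h, mul_zero]
  obtain ⟨P1, h1⟩ := h1
  obtain ⟨P2, h2⟩ := h2
  -- at the first place
  have A1 : P1.m (L (n + 1) - (w - b)) := by
    have x0 : M n / L n - 1 ≠ 0 := sub_ne_zero.mpr (S.e1 (n := n) (by omega))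
    have xA : M n / L n - 1 ∉ P1.A := by
      rw [sub_eq_add_neg]
      exact nmem_add h1 (P1.A.neg_mem _ P1.A.one_mem)
    have e : L (n + 1) - (w - b) = a / (M n / L n - 1) - b / (M n / L n - 1) := by
      rw [l1 P1]
      field_simp
      ring
    rw [e]
    exact m_sub (m_div (P1.k0A _ ha) xA) (m_div (P1.k0A _ bk) xA)
  have A2 : P2.m (L (n + 1) - (w - a)) := by
    have x0 : M n / L n - 1 ≠ 0 := sub_ne_zero.mpr (S.e1 (n := n) (by omega))
    have xm : P2.m (M n / L n) := by
      have := m_inv h2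
      rwa [inv_inv] at this
    have x1 : ¬ P2.m (M n / L n - 1) := by
      intro h
      apply not_m_one (P := P2)
      have := m_sub xm h
      rwa [sub_sub_cancel] at this
    have e : L (n + 1) - (w - a) = (a - b) * (M n / L n) / (M n / L n - 1) := by
      rw [l1 P2]
      field_simp
      ring
    rw [e]
    exact m_div' (m_mul (sub_mem (P2.k0A _ ha) (P2.k0A _ bk)) xm) x1
  have B1 : P1.m (M (n + 1) - (w + a)) := by
    convert A1 using 1; rw [hM1]; ring
  have B2 : P2.m (M (n + 1) - (w + b)) := by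
    convert A2 using 1; rw [hM1]; ring
  -- transfer
  have tr : ∀ (P Q : Place 𝒦) (lam mu lam' mu' : K), lam ∈ 𝒦.k0 → mu ∈ 𝒦.k0 → lam' ∈ 𝒦.k0 →
      mu' ∈ 𝒦.k0 → lam ≠ 0 → mu ≠ 0 → P.m (L (n + 1) - lam) → P.m (M (n + 1) - mu) →
      Q.m (L (n + 1) - lam') → Q.m (M (n + 1) - mu') → mu' * lam = lam' * mu := by
    intro P Q lam mu lam' mu' k1 k2 k3 k4 hl0 hm0 c1 c2 c3 c4
    have q0 := S.L0 (n + 1) (by omega)
    have q1 := S.M0 (n + 1) (by omega)
    have q2 : ¬ P.m (L (n + 1)) := by
      intro h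
      have := m_sub h c1
      rw [sub_sub_cancel] at this
      exact hl0 (m_k0 k1 this)
    have q3 : P.m (M (n + 1) / L (n + 1) - mu / lam) := by
      have : M (n + 1) / L (n + 1) - mu / lam =
          ((M (n + 1) - mu) * lam - mu * (L (n + 1) - lam)) / L (n + 1) / lam := by
        field_simp
        ring
      rw [this]
      exact m_div' (m_div' (m_sub (m_mul' c2 (P.k0A _ k1)) (m_mul (P.k0A _ k2) c1)) q2)
        (not_m_k0 k1 hl0)
    have q4 := unit_eq (P := P) (by
      rw [S.de (by omega), mul_div_cancel_left₀ _ (S.e0 (n := n + 1) (by omega))]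
      exact S.Bk' (by omega)) (S.e0 (n := n + 1) (by omega)) (𝒦.k0.div_mem k2 k1)
      (div_ne_zero hm0 hl0) q3
    rw [div_eq_div_iff q0 hl0] at q4
    apply k0_congr (P := Q) (𝒦.k0.mul_mem k4 k1) (𝒦.k0.mul_mem k3 k2)
    have := m_sub (m_mul' c3 (Q.k0A _ k2)) (m_mul' c4 (Q.k0A _ k1))
    convert this using 1
    linear_combination q4
  have kwb := 𝒦.k0.sub_mem wk bk
  have kwa := 𝒦.k0.add_mem wk ha
  have kwa' := 𝒦.k0.sub_mem wk ha
  have kwb' := 𝒦.k0.add_mem wk bk
  have fin : (w + b) * (w - b) = (w - a) * (w + a) → a = b := by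
    intro h
    have : (a - b) * (a + b) = 0 := by linear_combination h
    exact sub_eq_zero.mp ((mul_eq_zero.mp this).resolve_right ab0)
  by_cases z1 : w - b = 0
  · by_cases z3 : w - a = 0
    · linear_combination z1 - z3
    · by_cases z4 : w + b = 0
      · exfalso
        apply bne
        have : 2 * b = 0 := by linear_combination z4 - z1
        exact (mul_eq_zero.mp this).resolve_left two_ne_zero
      · apply fin
        have := tr P2 P1 _ _ _ _ kwa' kwb' kwb kwa z3 z4 A2 B2 A1 B1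
        linear_combination -this
  · by_cases z2 : w + a = 0
    · by_cases z4 : w + b = 0
      · linear_combination z2 - z4
      · by_cases z3 : w - a = 0
        · exfalso
          apply a0
          have : 2 * a = 0 := by linear_combination z2 - z3
          exact (mul_eq_zero.mp this).resolve_left two_ne_zero
        · apply fin
          have := tr P2 P1 _ _ _ _ kwa' kwb' kwb kwa z3 z4 A2 B2 A1 B1
          linear_combination -this
    · apply fin
      exact tr P1 P2 _ _ _ _ kwb kwa kwa' kwb' z1 z2 A1 B1 A2 B2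

/-- small differences: quotients of positive index are small -/
theorem smallSmall {n : ℕ} (hn : n + 1 < N) (ha : M n - L n ∈ 𝒦.k0)
    (hU : UDich 𝒦 (M n / L n)) (hU1 : UDich 𝒦 (M (n + 1) / L (n + 1))) :
    M (n + 1) / L (n + 1) ∈ 𝒦.k0 := by
  rcases hU1 with h | ⟨⟨P, hP⟩, -⟩
  · exact h
  exfalso
  have a0 := S.a0 n (by omega)
  have bk := S.Bk' (n := n) (by omega)
  have leq := S.Leq (n := n) (by omega)
  have y := S.Yeq (n := n) (by omega)
  have e1 : L (n + 1) = L n + 𝒦.d (L n) / L n := by rw [← y]; ring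
  have x0 : M n / L n - 1 ≠ 0 := sub_ne_zero.mpr (S.e1 (n := n) (by omega))
  -- `L (n+1)` is small
  have lk : L (n + 1) ∈ 𝒦.k0 := by
    rcases hU with h | ⟨h1, h2⟩
    · have l0 : L n ∈ 𝒦.k0 := by
        rw [leq]
        exact 𝒦.k0.div_mem ha (𝒦.k0.sub_mem h 𝒦.k0.one_mem)
      rw [e1]
      exact 𝒦.k0.add_mem l0 (𝒦.k0.div_mem (𝒦.dk0 _ l0) l0)
    · have hab := S.smallBig hn ha h1 h2
      have de := S.de (n := n) (by omega)
      have dl : 𝒦.d (L n) = 𝒦.d ((M n - L n) / (M n / L n - 1)) := by rw [← leq]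
      rw [𝒦.ddiv _ x0, map_sub 𝒦.d (M n / L n) 1, 𝒦.done, sub_zero, de, ← hab] at dl
      have l0 := S.L0 n (by omega)
      have leq' : L n * (M n / L n - 1) = M n - L n := by
        conv_lhs => rw [leq]
        field_simp
      have : L (n + 1) = 𝒦.d (M n - L n) / (M n - L n) - (M n - L n) := by
        rw [e1, dl]
        generalize 𝒦.d (M n - L n) = da at *
        generalize M n / L n = e at *
        generalize M n - L n = a at *
        subst leq'
        field_simp
        ring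
      rw [this]
      exact 𝒦.k0.sub_mem (𝒦.k0.div_mem (𝒦.dk0 _ ha) ha) ha
  -- and tiny
  have lm : P.m (L (n + 1)) := by
    rw [S.Leq (n := n + 1) (by omega)]
    have : M (n + 1) - L (n + 1) = (M n - L n) + BB L M n := by unfold BB; ring
    rw [this]
    apply m_div (P.k0A _ (𝒦.k0.add_mem ha bk))
    rw [sub_eq_add_neg]
    exact nmem_add hP (P.A.neg_mem _ P.A.one_mem)
  exact S.L0 (n + 1) (by omega) (m_k0 lk lm)

/-- the first quotient large and `a₀ = b₁` exclude `a₁ = b₂` -/
theorem smallEnd (hN : 2 < N) (hE0 : ∃ P : Place 𝒦, M 0 / L 0 ∉ P.A)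
    (h0 : M 0 - L 0 = BB L M 0) (h1 : M 1 - L 1 = BB L M 1)
    (hk : M 1 / L 1 ∈ 𝒦.k0) : False := by
  obtain ⟨P, hP⟩ := hE0
  have e0 := S.e0 (n := 0) (by omega)
  have e1 := S.e0 (n := 1) (by omega)
  have hb : BB L M 1 = 2 * BB L M 0 := by
    rw [← h1]
    have : M 1 - L 1 = (M 0 - L 0) + BB L M 0 := by unfold BB; ring
    rw [this, h0]; ring
  have hc : 𝒦.d ((M 1 / L 1) / ((M 0 / L 0) * (M 0 / L 0))) = 0 := by
    rw [𝒦.ddiv _ (mul_ne_zero e0 e0), 𝒦.dmul (M 0 / L 0), S.de (n := 1) (by omega),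
      S.de (n := 0) (by omega), hb]
    field_simp
    ring
  have ck := 𝒦.const0 _ hc
  have c0 : (M 1 / L 1) / ((M 0 / L 0) * (M 0 / L 0)) ≠ 0 := div_ne_zero e1 (mul_ne_zero e0 e0)
  have h2 : (M 0 / L 0) * (M 0 / L 0) ∈ P.A := by
    have : (M 0 / L 0) * (M 0 / L 0) =
        (M 1 / L 1) / ((M 1 / L 1) / ((M 0 / L 0) * (M 0 / L 0))) := by
      rw [div_div_cancel₀ e1]
    rw [this]
    exact P.k0A _ (𝒦.k0.div_mem hk ck)
  refine nmem_mul hP ?_ h2
  intro h
  exact hP (m_mem h)

end Sys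

end Pool.Agent.TH217.BC
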