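import Pool.Agent.TH217.BA5
import Pool.Agent.TH217.BC7

/-!
The differential field of a growth context and its places.
-/

set_option autoImplicit false

namespace Pool.Agent.TH217.BA

open Filter Metric Real Set Topology Pool.Agent.TH217.BC

/-- extension of a derivation to the fraction field -/
theorem exists_derivation {R K : Type*} [CommRing R] [IsDomain R] [Field K] [Algebra R K]
    [IsFractionRing R K] (d : Derivation ℤ R R) :
    ∃ D : Derivation ℤ K K, ∀ r, D (algebraMap R K r) = algebraMap R K (d r) := by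
  set ψ : R →+* TrivSqZeroExt K K :=
    { toFun := fun r => ((algebraMap R K r, algebraMap R K (d r)) : K × K)
      map_one' := by
        apply TrivSqZeroExt.ext
        · change algebraMap R K 1 = 1
          simp
        · change algebraMap R K (d 1) = 0
          simp
      map_mul' := fun x y => by
        apply TrivSqZeroExt.ext
        · change algebraMap R K (x * y) = algebraMap R K x * algebraMap R K y
          simp
        · rw [TrivSqZeroExt.snd_mul]
          change algebraMap R K (d (x * y)) = algebraMap R K x * algebraMap R K (d y) +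
            algebraMap R K (d x) * algebraMap R K y
          rw [d.leibniz, smul_eq_mul, smul_eq_mul, map_add, map_mul, map_mul]
          ring
      map_zero' := by
        apply TrivSqZeroExt.ext
        · change algebraMap R K 0 = 0
          simp
        · change algebraMap R K (d 0) = 0
          simp
      map_add' := fun x y => by
        apply TrivSqZeroExt.ext
        · change algebraMap R K (x + y) = algebraMap R K x + algebraMap R K y
          simp
        · change algebraMap R K (d (x + y)) = algebraMap R K (d x) + algebraMap R K (d y)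
          simp } with hψ
  have hu : ∀ y : nonZeroDivisors R, IsUnit (ψ y) := by
    intro y
    rw [TrivSqZeroExt.isUnit_iff_isUnit_fst]
    have h : algebraMap R K y ≠ 0 := IsFractionRing.to_map_ne_zero_of_mem_nonZeroDivisors y.2
    have e : (ψ y).fst = algebraMap R K y := rfl
    rw [e]
    exact h.isUnit
  set Ψ : K →+* TrivSqZeroExt K K := IsLocalization.lift hu with hΨ
  have hfst : ∀ x, (Ψ x).fst = x := by
    have : (TrivSqZeroExt.fstHom ℤ K K).toRingHom.comp Ψ = RingHom.id K := by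
      apply IsLocalization.ringHom_ext (nonZeroDivisors R)
      ext r
      change (Ψ (algebraMap R K r)).fst = algebraMap R K r
      rw [hΨ, IsLocalization.lift_eq]
      rfl
    intro x
    exact RingHom.congr_fun this x
  refine ⟨Derivation.mk' (AddMonoidHom.toIntLinearMap
    { toFun := fun x => (Ψ x).snd
      map_zero' := by simp
      map_add' := fun x y => by simp }) ?_, ?_⟩
  · intro a b
    change (Ψ (a * b)).snd = a • (Ψ b).snd + b • (Ψ a).snd
    rw [map_mul, TrivSqZeroExt.snd_mul, hfst, hfst]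
    simp [mul_comm]
  · intro r
    change (Ψ (algebraMap R K r)).snd = _
    rw [hΨ, IsLocalization.lift_eq]
    rfl

variable (𝒢 : GC)

/-- the ring of functions of the large class -/
def Rg : Subring (ℂ → ℂ) where
  carrier := {f | Cl (lg 𝒢) f}
  mul_mem' := fun hf hg => hf.mul hg
  one_mem' := Cl.const 1
  add_mem' := fun hf hg => hf.add hg
  zero_mem' := Cl.const 0
  neg_mem' := fun hf => hf.neg

variable {𝒢}

theorem Rg.diff (f : Rg 𝒢) : Differentiable ℂ (f : ℂ → ℂ) := f.2.1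

theorem Rg.ne {f : Rg 𝒢} (h : f ≠ 0) : ∃ x, (f : ℂ → ℂ) x ≠ 0 := by
  by_contra hc
  push Not at hc
  apply h
  apply Subtype.ext
  funext x
  exact hc x

instance : IsDomain (Rg 𝒢) := by
  have : Nontrivial (Rg 𝒢) := ⟨⟨0, 1, fun h => by
    have := congrArg (fun f : Rg 𝒢 => (f : ℂ → ℂ) 0) h
    simp at this⟩⟩
  have : NoZeroDivisors (Rg 𝒢) := by
    refine ⟨fun {f g} h => ?_⟩
    have hf : AnalyticOnNhd ℂ (f : ℂ → ℂ) univ := fun z _ => (Rg.diff f).analyticAt z
    have hg : AnalyticOnNhd ℂ (g : ℂ → ℂ) univ := fun z _ => (Rg.diff g).analyticAt z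
    have h1 : ∀ z ∈ (univ : Set ℂ), (f : ℂ → ℂ) z * (g : ℂ → ℂ) z = 0 := fun z _ => by
      have := congrArg (fun f : Rg 𝒢 => (f : ℂ → ℂ) z) h
      simpa using this
    rcases AnalyticOnNhd.eq_zero_or_eq_zero_of_mul_eq_zero hf hg h1 isPreconnected_univ with h | h
    · left; apply Subtype.ext; funext z; exact h z (mem_univ z)
    · right; apply Subtype.ext; funext z; exact h z (mem_univ z)
  exact NoZeroDivisors.to_isDomain _

/-- the derivation of the ring -/
noncomputable def dRg (𝒢 : GC) : Derivation ℤ (Rg 𝒢) (Rg 𝒢) :=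
  Derivation.mk' (AddMonoidHom.toIntLinearMap
    { toFun := fun f => (⟨deriv f, f.2.deriv⟩ : Rg 𝒢)
      map_zero' := by
        apply Subtype.ext; funext z
        change deriv (fun _ => (0 : ℂ)) z = 0
        simp
      map_add' := fun f g => by
        apply Subtype.ext; funext z
        exact deriv_add (Rg.diff f z) (Rg.diff g z) }) (by
    intro f g
    apply Subtype.ext; funext z
    change deriv ((f : ℂ → ℂ) * (g : ℂ → ℂ)) z = _
    rw [deriv_mul (Rg.diff f z) (Rg.diff g z)]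
    change _ = (f : ℂ → ℂ) z * deriv g z + (g : ℂ → ℂ) z * deriv f z
    ring)

/-- the field -/
def KK (𝒢 : GC) : Type := FractionRing (Rg 𝒢)

noncomputable instance : Field (KK 𝒢) := inferInstanceAs (Field (FractionRing (Rg 𝒢)))
noncomputable instance : Algebra (Rg 𝒢) (KK 𝒢) :=
  inferInstanceAs (Algebra (Rg 𝒢) (FractionRing (Rg 𝒢)))
instance : IsFractionRing (Rg 𝒢) (KK 𝒢) :=
  inferInstanceAs (IsFractionRing (Rg 𝒢) (FractionRing (Rg 𝒢)))

noncomputable def dK (𝒢 : GC) : Derivation ℤ (KK 𝒢) (KK 𝒢) :=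
  (exists_derivation (R := Rg 𝒢) (K := KK 𝒢) (dRg 𝒢)).choose

/-- the image of a function -/
noncomputable def em (f : Rg 𝒢) : KK 𝒢 := algebraMap (Rg 𝒢) (KK 𝒢) f

theorem dK_em (f : Rg 𝒢) : dK 𝒢 (em f) = em (dRg 𝒢 f) :=
  (exists_derivation (R := Rg 𝒢) (K := KK 𝒢) (dRg 𝒢)).choose_spec f

theorem em_inj {f g : Rg 𝒢} (h : em f = em g) : f = g := IsFractionRing.injective _ _ h

theorem em_ne {f : Rg 𝒢} (h : f ≠ 0) : em f ≠ 0 := fun h' => h (em_inj (by
  rw [h']; exact (map_zero _).symm))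

theorem em_surj (x : KK 𝒢) : ∃ f g : Rg 𝒢, g ≠ 0 ∧ x = em f / em g := by
  obtain ⟨f, g, hg, h⟩ := IsFractionRing.div_surjective (A := Rg 𝒢) x
  exact ⟨f, g, nonZeroDivisors.ne_zero hg, h.symm⟩

/-- constants -/
def cst (𝒢 : GC) (c : ℂ) : Rg 𝒢 := ⟨fun _ => c, Cl.const c⟩

/-- the identity function -/
def idd (𝒢 : GC) : Rg 𝒢 := ⟨fun z => z, Cl.id⟩

instance : CharZero (Rg 𝒢) := by
  refine ⟨fun a b h => ?_⟩
  have := congrArg (fun f : Rg 𝒢 => (f : ℂ → ℂ) 0) h
  simp only [Subring.coe_natCast, Pi.natCast_apply] at this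
  exact_mod_cast this

instance : CharZero (KK 𝒢) := by
  refine ⟨fun a b h => ?_⟩
  have h1 : em (𝒢 := 𝒢) (a : Rg 𝒢) = em (b : Rg 𝒢) := by
    unfold em
    rw [map_natCast, map_natCast, h]
  exact_mod_cast em_inj h1

/-- constants of the field -/
theorem const_of {x : KK 𝒢} (h : dK 𝒢 x = 0) : ∃ c, x = em (cst 𝒢 c) := by
  obtain ⟨f, g, hg, rfl⟩ := em_surj x
  have hg' := em_ne hg
  have h1 : dK 𝒢 (em f) * em g - em f * dK 𝒢 (em g) = 0 := by
    have e : em f = (em f / em g) * em g := by field_simp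
    have := congrArg (dK 𝒢) e
    rw [d_mul, h, mul_zero, add_zero] at this
    rw [this]
    field_simp
    ring
  rw [dK_em, dK_em] at h1
  have h2 : dRg 𝒢 f * g = f * dRg 𝒢 g := by
    apply em_inj
    unfold em at *
    rw [map_mul, map_mul]
    linear_combination h1
  obtain ⟨x0, hx0⟩ := Rg.ne hg
  set c := (f : ℂ → ℂ) x0 / (g : ℂ → ℂ) x0 with hc
  refine ⟨c, ?_⟩
  rw [div_eq_iff hg']
  -- `f = c g` near `x0`, hence everywhere
  have hfd := Rg.diff f
  have hgd := Rg.diff g
  have key : ∀ z, (f : ℂ → ℂ) z = c * (g : ℂ → ℂ) z := by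
    have hA : AnalyticOnNhd ℂ (f : ℂ → ℂ) univ := fun z _ => hfd.analyticAt z
    have hB : AnalyticOnNhd ℂ (fun z => c * (g : ℂ → ℂ) z) univ := fun z _ =>
      (hgd.const_mul c).analyticAt z
    have hnear : (f : ℂ → ℂ) =ᶠ[𝓝 x0] (fun z => c * (g : ℂ → ℂ) z) := by
      obtain ⟨r, hr, hball⟩ := Metric.isOpen_iff.mp
        (isOpen_ne_fun hgd.continuous (continuous_const (y := (0 : ℂ)))) x0 hx0
      have hq : ∀ z ∈ ball x0 r, (f : ℂ → ℂ) z / (g : ℂ → ℂ) z = c := by
        intro z hz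
        have hd : DifferentiableOn ℂ (fun z => (f : ℂ → ℂ) z / (g : ℂ → ℂ) z) (ball x0 r) :=
          hfd.differentiableOn.div hgd.differentiableOn (fun w hw => hball hw)
        have := IsOpen.is_const_of_deriv_eq_zero (f := fun z => (f : ℂ → ℂ) z / (g : ℂ → ℂ) z)
          (s := ball x0 r) isOpen_ball (convex_ball _ _).isPreconnected hd (by
            intro w hw
            have hw' : (g : ℂ → ℂ) w ≠ 0 := hball hw
            have := ((hfd w).hasDerivAt.div (hgd w).hasDerivAt hw').deriv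
            have h3 := congrArg (fun f : Rg 𝒢 => (f : ℂ → ℂ) w) h2
            have h4 : deriv (f : ℂ → ℂ) w * (g : ℂ → ℂ) w = (f : ℂ → ℂ) w * deriv (g : ℂ → ℂ) w :=
              h3
            change deriv (fun z => (f : ℂ → ℂ) z / (g : ℂ → ℂ) z) w = 0
            have e : deriv (fun z => (f : ℂ → ℂ) z / (g : ℂ → ℂ) z) w =
              (deriv (f : ℂ → ℂ) w * (g : ℂ → ℂ) w - (f : ℂ → ℂ) w * deriv (g : ℂ → ℂ) w) /
                (g : ℂ → ℂ) w ^ 2 := this
            rw [e, h4, sub_self, zero_div]) hz (mem_ball_self hr)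
        exact this
      filter_upwards [ball_mem_nhds x0 hr] with z hz
      have := hq z hz
      have hz' : (g : ℂ → ℂ) z ≠ 0 := hball hz
      rwa [div_eq_iff hz'] at this
    intro z
    exact hA.eqOn_of_preconnected_of_eventuallyEq hB isPreconnected_univ (mem_univ x0) hnear
      (mem_univ z)
  have : f = cst 𝒢 c * g := by
    apply Subtype.ext; funext z; exact key z
  rw [this]
  unfold em
  rw [map_mul]

theorem dRg_apply (f : Rg 𝒢) (z : ℂ) : (dRg 𝒢 f : ℂ → ℂ) z = deriv f z := rfl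

theorem dK_idd : dK 𝒢 (em (idd 𝒢)) = 1 := by
  rw [dK_em]
  have : dRg 𝒢 (idd 𝒢) = 1 := by
    apply Subtype.ext; funext z
    rw [dRg_apply]
    change deriv (fun z : ℂ => z) z = 1
    simp
  rw [this]
  exact map_one _

/-- the small field -/
noncomputable def k0 (𝒢 : GC) : Subfield (KK 𝒢) where
  carrier := {x | ∃ f g : Rg 𝒢, Cl (sm 𝒢) f ∧ Cl (sm 𝒢) g ∧ g ≠ 0 ∧ x = em f / em g}
  mul_mem' := by
    rintro _ _ ⟨f, g, hf, hg, hg0, rfl⟩ ⟨f', g', hf', hg', hg0', rfl⟩
    refine ⟨f * f', g * g', hf.mul hf', hg.mul hg', mul_ne_zero hg0 hg0', ?_⟩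
    unfold em
    rw [map_mul, map_mul, div_mul_div_comm]
  one_mem' := ⟨1, 1, Cl.const 1, Cl.const 1, one_ne_zero, by unfold em; simp⟩
  add_mem' := by
    rintro _ _ ⟨f, g, hf, hg, hg0, rfl⟩ ⟨f', g', hf', hg', hg0', rfl⟩
    refine ⟨f * g' + g * f', g * g', (hf.mul hg').add (hg.mul hf'), hg.mul hg',
      mul_ne_zero hg0 hg0', ?_⟩
    have h1 := em_ne hg0
    have h2 := em_ne hg0'
    unfold em at *
    rw [map_add, map_mul, map_mul, map_mul, div_add_div _ _ h1 h2]
  zero_mem' := ⟨0, 1, Cl.const 0, Cl.const 1, one_ne_zero, by unfold em; simp⟩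
  neg_mem' := by
    rintro _ ⟨f, g, hf, hg, hg0, rfl⟩
    refine ⟨-f, g, hf.neg, hg, hg0, ?_⟩
    unfold em
    rw [map_neg, neg_div]
  inv_mem' := by
    rintro _ ⟨f, g, hf, hg, hg0, rfl⟩
    by_cases h : f = 0
    · refine ⟨0, 1, Cl.const 0, Cl.const 1, one_ne_zero, ?_⟩
      rw [h]; unfold em; simp
    · exact ⟨g, f, hg, hf, h, by rw [inv_div]⟩

theorem mem_k0 {f : Rg 𝒢} (hf : Cl (sm 𝒢) f) : em f ∈ k0 𝒢 :=
  ⟨f, 1, hf, Cl.const 1, one_ne_zero, by unfold em; simp⟩

theorem cst_k0 (c : ℂ) : em (cst 𝒢 c) ∈ k0 𝒢 := mem_k0 (Cl.const c)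

/-- the differential field of the context -/
noncomputable def DD (𝒢 : GC) : DF (KK 𝒢) where
  d := dK 𝒢
  k0 := k0 𝒢
  Ent := (algebraMap (Rg 𝒢) (KK 𝒢)).range
  dk0 := by
    rintro _ ⟨f, g, hf, hg, hg0, rfl⟩
    have h1 := em_ne hg0
    have e : dK 𝒢 (em f / em g) =
        em (dRg 𝒢 f * g - f * dRg 𝒢 g) / em (g * g) := by
      have e0 : em f = (em f / em g) * em g := by field_simp
      have := congrArg (dK 𝒢) e0
      rw [d_mul, dK_em, dK_em] at this
      unfold em at *
      rw [map_sub, map_mul, map_mul, map_mul]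
      rw [this]
      field_simp
      ring
    rw [e]
    refine ⟨_, _, ?_, hg.mul hg, mul_ne_zero hg0 hg0, rfl⟩
    exact ((hf.deriv).mul hg).add ((hf.mul hg.deriv).neg) |> fun h => by
      have e2 : ((dRg 𝒢 f * g - f * dRg 𝒢 g : Rg 𝒢) : ℂ → ℂ) =
        fun z => deriv (f : ℂ → ℂ) z * (g : ℂ → ℂ) z +
          -((f : ℂ → ℂ) z * deriv (g : ℂ → ℂ) z) := by
        funext z
        change deriv (f : ℂ → ℂ) z * (g : ℂ → ℂ) z - (f : ℂ → ℂ) z * deriv (g : ℂ → ℂ) z = _
        ring
      rw [e2]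
      exact h
  dEnt := by
    rintro _ ⟨f, rfl⟩
    exact ⟨dRg 𝒢 f, (dK_em f).symm⟩
  const0 := fun x h => by
    obtain ⟨c, rfl⟩ := const_of h
    exact cst_k0 c
  constE := fun x h => by
    obtain ⟨c, rfl⟩ := const_of h
    exact ⟨_, rfl⟩
  lin := fun s h => by
    have h1 : dK 𝒢 (s - em (idd 𝒢)) = 0 := by rw [map_sub, h, dK_idd, sub_self]
    obtain ⟨c, hc⟩ := const_of h1
    refine ⟨idd 𝒢 + cst 𝒢 c, ?_⟩
    rw [map_add]
    change em (idd 𝒢) + em (cst 𝒢 c) = s
    rw [← hc]; ring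
  lin0 := by
    rintro s h _ ⟨u, rfl⟩ h2
    have h1 : dK 𝒢 (s - em (idd 𝒢)) = 0 := by rw [map_sub, h, dK_idd, sub_self]
    obtain ⟨c, hc⟩ := const_of h1
    have hs : s = em (idd 𝒢 + cst 𝒢 c) := by
      unfold em at *
      rw [map_add]
      linear_combination hc
    have h3 : (idd 𝒢 + cst 𝒢 c) * u = 1 := by
      apply em_inj
      rw [hs] at h2
      unfold em at *
      rw [map_mul, map_one]
      exact h2
    have h4 := congrArg (fun f : Rg 𝒢 => (f : ℂ → ℂ) (-c)) h3
    have h5 : ((-c) + c) * (u : ℂ → ℂ) (-c) = 1 := h4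
    rw [neg_add_cancel, zero_mul] at h5
    exact zero_ne_one h5

end Pool.Agent.TH217.BA
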