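import Pool.Agent.TH217.BA6

/-!
Places from big functions.
-/

set_option autoImplicit false

namespace Pool.Agent.TH217.BA

open Filter Metric Real Set Topology Pool.Agent.TH217.BC

variable {𝒢 : GC}

/-- the valuation ring of an ultrafilter with a scale -/
noncomputable def Bv (U : Ultrafilter ℂ) (s : ℂ → ℝ) (hs : ∀ n : ℕ, ∀ᶠ z in (U : Filter ℂ), (n : ℝ) ≤ s z) :
    ValuationSubring (Germ (U : Filter ℂ) ℂ) where
  carrier := {x | ∃ u : ℂ → ℂ, (u : Germ (U : Filter ℂ) ℂ) = x ∧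
    ∀ n : ℕ, ∀ᶠ z in (U : Filter ℂ), ‖u z‖ ≤ Real.exp (s z / (n + 1))}
  mul_mem' := by
    rintro _ _ ⟨u, rfl, hu⟩ ⟨v, rfl, hv⟩
    refine ⟨u * v, rfl, fun n => ?_⟩
    filter_upwards [hu (2 * n + 1), hv (2 * n + 1)] with z h1 h2
    rw [Pi.mul_apply, norm_mul]
    have e : s z / (n + 1) = s z / ((2 * n + 1 : ℕ) + 1) + s z / ((2 * n + 1 : ℕ) + 1) := by
      push_cast
      field_simp
      ring
    rw [e, Real.exp_add]
    exact mul_le_mul h1 h2 (norm_nonneg _) (Real.exp_nonneg _)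
  one_mem' := by
    refine ⟨1, rfl, fun n => ?_⟩
    filter_upwards [hs 0] with z h
    rw [Pi.one_apply, norm_one]
    apply Real.one_le_exp
    have : 0 ≤ s z := by simpa using h
    positivity
  add_mem' := by
    rintro _ _ ⟨u, rfl, hu⟩ ⟨v, rfl, hv⟩
    refine ⟨u + v, rfl, fun n => ?_⟩
    filter_upwards [hu (2 * n + 1), hv (2 * n + 1), hs (2 * n + 2)] with z h1 h2 h3
    rw [Pi.add_apply]
    have e : s z / (n + 1) = s z / ((2 * n + 1 : ℕ) + 1) + s z / ((2 * n + 1 : ℕ) + 1) := by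
      push_cast
      field_simp
      ring
    rw [e, Real.exp_add]
    have h4 : 1 ≤ s z / ((2 * n + 1 : ℕ) + 1) := by
      rw [le_div_iff₀ (by positivity)]
      push_cast at h3 ⊢
      linarith
    have h5 : 2 ≤ Real.exp (s z / ((2 * n + 1 : ℕ) + 1)) := by
      have := Real.add_one_le_exp (s z / ((2 * n + 1 : ℕ) + 1))
      linarith
    have h6 := Real.exp_pos (s z / ((2 * n + 1 : ℕ) + 1))
    refine (norm_add_le _ _).trans ?_
    nlinarith
  zero_mem' := by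
    refine ⟨0, rfl, fun n => ?_⟩
    filter_upwards with z
    rw [Pi.zero_apply, norm_zero]
    positivity
  neg_mem' := by
    rintro _ ⟨u, rfl, hu⟩
    refine ⟨-u, rfl, fun n => ?_⟩
    filter_upwards [hu n] with z h
    rwa [Pi.neg_apply, norm_neg]
  mem_or_inv_mem' := by
    intro x
    induction x using Filter.Germ.inductionOn with
    | _ u =>
      by_cases h : ∀ n : ℕ, ∀ᶠ z in (U : Filter ℂ), ‖u z‖ ≤ Real.exp (s z / (n + 1))
      · left; exact ⟨u, rfl, h⟩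
      · right
        push Not at h
        obtain ⟨n, hn⟩ := h
        refine ⟨u⁻¹, rfl, fun m => ?_⟩
        filter_upwards [hn, hs 0] with z h1 h2
        have h3 : 0 ≤ s z := by simpa using h2
        have h4 : 1 ≤ Real.exp (s z / (n + 1)) := Real.one_le_exp (by positivity)
        have h5 : 1 ≤ Real.exp (s z / (m + 1)) := Real.one_le_exp (by positivity)
        rw [Pi.inv_apply, norm_inv]
        have h6 : 1 ≤ ‖u z‖ := by linarith
        exact (inv_le_one_of_one_le₀ h6).trans h5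

theorem mem_Bv {U : Ultrafilter ℂ} {s : ℂ → ℝ}
    (hs : ∀ n : ℕ, ∀ᶠ z in (U : Filter ℂ), (n : ℝ) ≤ s z) {u : ℂ → ℂ} :
    (u : Germ (U : Filter ℂ) ℂ) ∈ Bv U s hs ↔
      ∀ n : ℕ, ∀ᶠ z in (U : Filter ℂ), ‖u z‖ ≤ Real.exp (s z / (n + 1)) := by
  constructor
  · rintro ⟨v, hv, h⟩ n
    rw [Germ.coe_eq] at hv
    filter_upwards [hv, h n] with z h1 h2
    rwa [← h1]
  · intro h
    exact ⟨u, rfl, h⟩

theorem exists_place {φ : Rg 𝒢} (hbig : Big 𝒢 (φ : ℂ → ℂ)) : ∃ P : Place (DD 𝒢), em φ ∉ P.A := by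
  obtain ⟨U, hU⟩ := exists_ultra (Rg.diff φ) hbig
  set s : ℂ → ℝ := fun z => Real.log ‖(φ : ℂ → ℂ) z‖ with hs
  have hone : ∃ x, (fun _ : ℂ => (1 : ℂ)) x ≠ 0 := ⟨0, one_ne_zero⟩
  have hs' : ∀ n : ℕ, ∀ᶠ z in (U : Filter ℂ), (n : ℝ) ≤ s z := by
    intro n
    filter_upwards [hU (fun _ => 1) (Cl.const 1) hone n] with z hz
    exact hz.1
  set gm : Rg 𝒢 →+* Germ (U : Filter ℂ) ℂ := (Germ.coeRingHom _).comp (Rg 𝒢).subtype with hgm
  have gm_apply : ∀ f : Rg 𝒢, gm f = ((f : ℂ → ℂ) : Germ (U : Filter ℂ) ℂ) := fun f => rfl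
  have hne : ∀ f : Rg 𝒢, f ≠ 0 → ∀ᶠ z in (U : Filter ℂ), (f : ℂ → ℂ) z ≠ 0 := by
    intro f hf
    filter_upwards [hU f f.2 (Rg.ne hf) 0] with z hz
    exact hz.2.1
  have hinj : Function.Injective gm := by
    rw [injective_iff_map_eq_zero]
    intro f hf
    by_contra h0
    have h1 := hne f h0
    rw [gm_apply] at hf
    have h2 : (f : ℂ → ℂ) =ᶠ[(U : Filter ℂ)] 0 := Germ.coe_eq.mp hf
    obtain ⟨z, h3, h4⟩ := (h1.and h2).exists
    exact h3 h4
  set Φ : KK 𝒢 →+* Germ (U : Filter ℂ) ℂ := IsFractionRing.lift hinj with hΦ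
  have Φ_em : ∀ f : Rg 𝒢, Φ (em f) = ((f : ℂ → ℂ) : Germ (U : Filter ℂ) ℂ) := by
    intro f
    exact IsFractionRing.lift_algebraMap hinj f
  have Φ_div : ∀ f g : Rg 𝒢, Φ (em f / em g) =
      ((fun z => (f : ℂ → ℂ) z / (g : ℂ → ℂ) z : ℂ → ℂ) : Germ (U : Filter ℂ) ℂ) := by
    intro f g
    rw [map_div₀, Φ_em, Φ_em]
    rfl
  refine ⟨⟨(Bv U s hs').comap Φ, ?_, ?_⟩, ?_⟩
  · -- logarithmic derivatives
    have key : ∀ f : Rg 𝒢, f ≠ 0 → (DD 𝒢).d (em f) / em f ∈ (Bv U s hs').comap Φ := by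
      intro f hf
      change dK 𝒢 (em f) / em f ∈ _
      rw [dK_em]
      change Φ _ ∈ Bv U s hs'
      rw [Φ_div, mem_Bv]
      intro n
      filter_upwards [hU f f.2 (Rg.ne hf) n] with z hz
      obtain ⟨-, h1, h2, -⟩ := hz
      rw [norm_div, div_le_iff₀ (norm_pos_iff.mpr h1)]
      exact h2
    intro x hx
    obtain ⟨f, g, hg, rfl⟩ := em_surj x
    have hf : f ≠ 0 := by
      rintro rfl
      apply hx
      unfold em
      rw [map_zero, zero_div]
    have h1 := em_ne hf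
    have h2 := em_ne hg
    have e : (DD 𝒢).d (em f / em g) / (em f / em g) =
        (DD 𝒢).d (em f) / em f - (DD 𝒢).d (em g) / em g := by
      rw [(DD 𝒢).ddiv _ h2]
      field_simp
    rw [e]
    exact sub_mem (key f hf) (key g hg)
  · rintro x ⟨f, g, hf, hg, hg0, rfl⟩
    change Φ _ ∈ Bv U s hs'
    rw [Φ_div, mem_Bv]
    intro n
    by_cases h0 : f = 0
    · filter_upwards with z
      rw [h0]
      simp [Real.exp_nonneg]
    · filter_upwards [hU f f.2 (Rg.ne h0) (2 * n + 1), hU g g.2 (Rg.ne hg0) (2 * n + 1)]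
        with z h1 h2
      obtain ⟨-, a1, -, a2⟩ := h1
      obtain ⟨-, b1, -, b2⟩ := h2
      have a3 := (abs_le.mp (a2 hf)).2
      have b3 := (abs_le.mp (b2 hg)).1
      have e : s z / (n + 1) = s z / ((2 * n + 1 : ℕ) + 1) + s z / ((2 * n + 1 : ℕ) + 1) := by
        push_cast
        field_simp
        ring
      rw [← Real.log_le_iff_le_exp (norm_pos_iff.mpr (div_ne_zero a1 b1)), norm_div,
        Real.log_div (norm_ne_zero_iff.mpr a1) (norm_ne_zero_iff.mpr b1), e]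
      have a4 : Real.log ‖(f : ℂ → ℂ) z‖ ≤ s z / ((2 * n + 1 : ℕ) + 1) := a3
      have b4 : -(s z / ((2 * n + 1 : ℕ) + 1)) ≤ Real.log ‖(g : ℂ → ℂ) z‖ := b3
      linarith
  · intro h
    change Φ _ ∈ Bv U s hs' at h
    rw [Φ_em, mem_Bv] at h
    obtain ⟨z, h1, h2⟩ := ((h 1).and (hs' 1)).exists
    have h3 : (1 : ℝ) ≤ s z := by simpa using h2
    have h4 : (φ : ℂ → ℂ) z ≠ 0 := by
      intro h5
      simp only [hs] at h3
      rw [h5, norm_zero, Real.log_zero] at h3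
      linarith
    rw [← Real.log_le_iff_le_exp (norm_pos_iff.mpr h4)] at h1
    have h5 : s z ≤ s z / ((1 : ℕ) + 1) := h1
    push_cast at h5
    linarith

end Pool.Agent.TH217.BA
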