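import Pool.Agent.TH217.BA7

/-!
The growth context of a finite family of entire functions.
-/

set_option autoImplicit false

namespace Pool.Agent.TH217.BA

open Filter Metric Real Set Topology Pool.Agent.TH217.BC Pool.Agent.H159R3.NV

variable {ι : Type*} [Fintype ι]

/-- the family with the exponential added -/
noncomputable def aug (F : ι → ℂ → ℂ) : Option ι → ℂ → ℂ
  | none => Complex.exp
  | some i => F i

variable {F : ι → ℂ → ℂ}

omit [Fintype ι] in
theorem aug_cont (hF : ∀ i, Differentiable ℂ (F i)) (i : Option ι) : Continuous (aug F i) := by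
  cases i with
  | none => exact Complex.continuous_exp
  | some i => exact (hF i).continuous

theorem mu_exp_ge (t : ℝ) : Real.exp t ≤ mu Complex.exp t := by
  have h := le_mu Complex.continuous_exp (t := t) (z := ((Real.exp t : ℝ) : ℂ)) (by
    rw [Complex.norm_real, Real.norm_of_nonneg (Real.exp_nonneg t)])
  rw [Complex.norm_exp, Complex.ofReal_re, Real.posLog_apply, Real.log_exp] at h
  exact (le_max_right _ _).trans h

theorem mu_exp_le (t : ℝ) : mu Complex.exp t ≤ Real.exp t := by
  obtain ⟨z, hz, h⟩ := exists_mu Complex.continuous_exp t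
  rw [← h, Complex.norm_exp, Real.posLog_apply, Real.log_exp]
  exact max_le (Real.exp_nonneg t) ((Complex.re_le_norm z).trans hz)

theorem gg_ge (hF : ∀ i, Differentiable ℂ (F i)) (t : ℝ) : t ≤ gg (aug F) t ∧ 1 ≤ gg (aug F) t := by
  have h1 := GG_le_gg (aug_cont hF) none t
  have h2 : 1 ≤ GG (aug F none) t := GG_ge_one (aug_cont hF none) t
  refine ⟨?_, h2.trans h1⟩
  refine le_trans ?_ h1
  change t ≤ Real.log (Real.exp 1 + mu Complex.exp t)
  have h3 := mu_exp_ge t
  have h4 := Real.exp_pos t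
  have h5 := Real.exp_pos 1
  rw [Real.le_log_iff_exp_le (by linarith)]
  linarith

theorem exists_T (hF : ∀ i, Differentiable ℂ (F i)) :
    ∃ T : Ultrafilter ℝ, (T : Filter ℝ) ≤ atTop ∧
      ∀ᶠ t in (T : Filter ℝ), HH (aug F) (t + dl (aug F) t) ≤ HH (aug F) t + Real.log 2 := by
  have hfr : ∃ᶠ t in (atTop : Filter ℝ),
      HH (aug F) (t + dl (aug F) t) ≤ HH (aug F) t + Real.log 2 := by
    rw [frequently_atTop]
    intro a
    obtain ⟨t, ht, h⟩ := slow (aug_cont hF) a
    exact ⟨t, ht, h⟩
  set 𝓕 : Filter ℝ :=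
    atTop ⊓ 𝓟 {t | HH (aug F) (t + dl (aug F) t) ≤ HH (aug F) t + Real.log 2} with h𝓕
  have hne : 𝓕.NeBot := frequently_mem_iff_neBot.mp hfr
  refine ⟨Ultrafilter.of 𝓕, (Ultrafilter.of_le 𝓕).trans inf_le_left, ?_⟩
  exact ((Ultrafilter.of_le 𝓕).trans inf_le_right) (mem_principal_self _)

/-- the context -/
noncomputable def ctx (hF : ∀ i, Differentiable ℂ (F i)) : GC where
  T := (exists_T hF).choose
  g := gg (aug F)
  δ := dl (aug F)
  top := (exists_T hF).choose_spec.1
  δpos := dl_pos (aug_cont hF)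
  δle := dl_le_one (aug_cont hF)
  gge := Eventually.of_forall fun t => (gg_ge hF t).1
  δg := fun t => by
    have h1 := HH_le_gg (aug_cont hF) t
    have h2 := HH_nonneg (aug_cont hF) t
    have h3 := (gg_ge hF t).2
    unfold dl
    rw [one_div_one_div]
    have : (1 + HH (aug F) t) ^ 2 ≤ (2 * gg (aug F) t) ^ 2 :=
      pow_le_pow_left₀ (by positivity) (by linarith) 2
    linarith

theorem ctx_slow (hF : ∀ i, Differentiable ℂ (F i)) (i : Option ι) :
    ∀ᶠ t in ((ctx hF).T : Filter ℝ), ∀ z, ‖z‖ ≤ Real.exp (t + (ctx hF).δ t) →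
      ‖aug F i z‖ ≤ Real.exp ((Real.exp 1 + mu (aug F i) t) ^ 2) := by
  filter_upwards [(exists_T hF).choose_spec.2] with t ht z hz
  have h1 := slow_all (aug_cont hF) ht i
  have h2 := norm_le_mu (aug_cont hF i) (t := t + dl (aug F) t) hz
  refine h2.trans (Real.exp_le_exp.mpr ?_)
  have := Real.exp_pos 1
  linarith

theorem ctx_lg (hF : ∀ i, Differentiable ℂ (F i)) (i : ι) : Cl (lg (ctx hF)) (F i) := by
  refine ⟨hF i, fun ρ hρ => ⟨fun t => (Real.exp 1 + mu (F i) t) ^ 2, ⟨2, ?_⟩, ?_⟩⟩
  · filter_upwards with t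
    have h1 := GG_le_gg (aug_cont hF) (some i) t
    have h2 := mu_nonneg (hF i).continuous t
    have h3 : 0 < Real.exp 1 + mu (F i) t := by positivity
    change (Real.exp 1 + mu (F i) t) ^ 2 ≤ Real.exp (gg (aug F) t) ^ 2
    apply pow_le_pow_left₀ h3.le
    have h4 : Real.log (Real.exp 1 + mu (F i) t) ≤ gg (aug F) t := h1
    rwa [Real.log_le_iff_le_exp h3] at h4
  · filter_upwards [ctx_slow hF (some i)] with t ht
    refine ⟨by positivity, fun z hz => ht z (hz.trans (Real.exp_le_exp.mpr ?_))⟩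
    have := (ctx hF).δpos t
    nlinarith

theorem ctx_dich (hF : ∀ i, Differentiable ℂ (F i)) (i : ι) :
    Cl (sm (ctx hF)) (F i) ∨ Big (ctx hF) (F i) := by
  by_cases h : ∃ C : ℕ, ∀ᶠ t in ((ctx hF).T : Filter ℝ), mu (F i) t ≤ (ctx hF).g t ^ C
  · left
    obtain ⟨C, h⟩ := h
    have hp : PB (sm (ctx hF)) (fun t => (Real.exp 1 + mu (F i) t) ^ 2) := by
      have h1 : PB (sm (ctx hF)) (fun t => mu (F i) t) := ⟨C, h⟩
      have h2 := (PB.const (𝒲 := sm (ctx hF)) (Real.exp 1)).add h1
      have h3 : ∀ᶠ t in ((ctx hF).T : Filter ℝ), 0 ≤ Real.exp 1 + mu (F i) t := by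
        filter_upwards with t
        have := mu_nonneg (hF i).continuous t
        positivity
      refine (h2.mul h2 h3 h3).mono ?_
      filter_upwards with t
      rw [sq]
    refine ⟨hF i, fun ρ hρ => ⟨_, hp, ?_⟩⟩
    filter_upwards [ctx_slow hF (some i)] with t ht
    refine ⟨by positivity, fun z hz => ht z (hz.trans (Real.exp_le_exp.mpr ?_))⟩
    have := (ctx hF).δpos t
    nlinarith
  · right
    push Not at h
    intro C
    filter_upwards [h C, (ctx hF).g_ge 1] with t ht hg
    obtain ⟨z, hz, h2⟩ := exists_mu (hF i).continuous t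
    refine ⟨z, hz, ?_⟩
    rw [← h2, Real.posLog_apply] at ht
    have h3 : (0 : ℝ) < (ctx hF).g t ^ C := by positivity
    rcases lt_max_iff.mp ht with h4 | h4
    · linarith
    · exact h4.le

/-- if everything is small then the units are constant -/
theorem ctx_const (hF : ∀ i, Differentiable ℂ (F i)) (hall : ∀ i, Cl (sm (ctx hF)) (F i))
    {i j : ι} (hij : ∀ z, F i z * F j z = 1) : ∀ z, F i z = F i 0 := by
  classical
  set 𝒢 := ctx hF with h𝒢
  have hmu : ∀ k, ∃ C : ℕ, ∀ᶠ t in (𝒢.T : Filter ℝ), mu (F k) t ≤ 𝒢.g t ^ C := by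
    intro k
    obtain ⟨X, ⟨C, hX⟩, h⟩ := (hall k).2 1 one_pos
    refine ⟨C, ?_⟩
    filter_upwards [h, hX] with t h1 h2
    obtain ⟨z, hz, h3⟩ := exists_mu (hF k).continuous t
    rw [← h3, Real.posLog_apply]
    apply max_le
    · have := h1.1; exact this.trans h2
    · refine le_trans ?_ h2
      rcases eq_or_ne (F k z) 0 with h0 | h0
      · rw [h0, norm_zero, Real.log_zero]; exact h1.1
      · rw [Real.log_le_iff_le_exp (norm_pos_iff.mpr h0)]
        apply h1.2 z
        simpa using hz
  choose C hC using hmu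
  set D := Finset.univ.sup C with hD
  have hCD : ∀ᶠ t in (𝒢.T : Filter ℝ), ∀ k, mu (F k) t ≤ 𝒢.g t ^ D := by
    rw [eventually_all]
    intro k
    filter_upwards [hC k, 𝒢.g_ge 1] with t h1 h2
    exact h1.trans (pow_le_pow_right₀ h2 (Finset.le_sup (Finset.mem_univ k)))
  -- `g` is at most linear
  have hglin : ∀ᶠ t in (𝒢.T : Filter ℝ), 𝒢.g t ≤ 2 * t + 4 := by
    have hlog : ∀ᶠ x : ℝ in atTop, (Fintype.card ι : ℝ) * ((D + 1 : ℕ) * Real.log x + 2) ≤ x / 2 := by
      have h1 : Tendsto (fun x : ℝ => Real.log x / x) atTop (𝓝 0) := by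
        simpa using Real.isLittleO_log_id_atTop.tendsto_div_nhds_zero
      have h2 : Tendsto (fun x : ℝ => (2 : ℝ) / x) atTop (𝓝 0) :=
        tendsto_const_nhds.div_atTop tendsto_id
      have h3 : Tendsto (fun x : ℝ => (Fintype.card ι : ℝ) * ((D + 1 : ℕ) * (Real.log x / x) + 2 / x))
          atTop (𝓝 ((Fintype.card ι : ℝ) * ((D + 1 : ℕ) * 0 + 0))) :=
        ((h1.const_mul _).add h2).const_mul _
      simp only [mul_zero, add_zero] at h3
      filter_upwards [h3.eventually (gt_mem_nhds (show (0 : ℝ) < 1 / 2 by norm_num)),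
        eventually_gt_atTop 0] with x hx hx0
      have e : (Fintype.card ι : ℝ) * ((D + 1 : ℕ) * Real.log x + 2) =
          (Fintype.card ι : ℝ) * ((D + 1 : ℕ) * (Real.log x / x) + 2 / x) * x := by
        field_simp
      rw [e]
      nlinarith
    have hgt : Tendsto 𝒢.g (𝒢.T : Filter ℝ) atTop := by
      rw [Filter.tendsto_atTop]
      exact fun b => 𝒢.g_ge b
    filter_upwards [hCD, hgt.eventually hlog, 𝒢.g_ge 3, 𝒢.ev_ge 0] with t h1 h2 h3 h4
    have e1 : 𝒢.g t = GG Complex.exp t + ∑ k, GG (F k) t := by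
      change gg (aug F) t = _
      unfold gg
      rw [Fintype.sum_option]
      rfl
    have e2 : GG Complex.exp t ≤ t + 2 := by
      unfold GG
      have h5 := mu_exp_le t
      have h6 := mu_nonneg Complex.continuous_exp t
      have h7 : Real.exp 1 + mu Complex.exp t ≤ Real.exp (t + 2) := by
        have a1 : Real.exp (t + 2) = Real.exp t * Real.exp 1 * Real.exp 1 := by
          rw [← Real.exp_add, ← Real.exp_add]; congr 1; ring
        have a2 : 1 ≤ Real.exp t := Real.one_le_exp h4
        have a3 : 2 ≤ Real.exp 1 := by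
          have := Real.add_one_le_exp 1; linarith
        rw [a1]
        nlinarith [mul_nonneg (by linarith : (0:ℝ) ≤ Real.exp t - 1) (by linarith : (0:ℝ) ≤ Real.exp 1 - 2)]
      rw [Real.log_le_iff_le_exp (by positivity)]
      exact h7
    have e3 : ∑ k, GG (F k) t ≤ (Fintype.card ι : ℝ) * ((D + 1 : ℕ) * Real.log (𝒢.g t) + 2) := by
      have : ∀ k ∈ (Finset.univ : Finset ι), GG (F k) t ≤ (D + 1 : ℕ) * Real.log (𝒢.g t) + 2 := by
        intro k _
        unfold GG
        have b1 := h1 k
        have b2 := mu_nonneg (hF k).continuous t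
        have b3 : Real.exp 1 < 3 := by
          have := Real.exp_one_lt_d9; linarith
        have b4 : 𝒢.g t ^ (D + 1) = 𝒢.g t ^ D * 𝒢.g t := pow_succ _ _
        have b5 : 1 ≤ 𝒢.g t ^ D := one_le_pow₀ (by linarith)
        have b6 : Real.exp 1 + mu (F k) t ≤ 𝒢.g t ^ (D + 1) * Real.exp 2 := by
          have b7 : 3 ≤ Real.exp 2 := by
            have := Real.add_one_le_exp 2; linarith
          have b8 : 𝒢.g t ^ D ≤ 𝒢.g t ^ (D + 1) := by rw [b4]; nlinarith
          nlinarith
        rw [← Real.log_pow, ← Real.log_exp 2, ← Real.log_mul (by positivity) (Real.exp_ne_zero _)]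
        exact Real.log_le_log (by positivity) b6
      have := Finset.sum_le_sum this
      rwa [Finset.sum_const, nsmul_eq_mul] at this
    linarith
  -- the unit has constant modulus
  have hne : ∀ z, F i z ≠ 0 := fun z h => by
    have := hij z
    rw [h, zero_mul] at this
    exact zero_ne_one this
  have hmod : ∀ w, Real.log ‖F i w‖ = Real.log ‖F i 0‖ := by
    intro w
    have hb : ∀ᶠ t in (𝒢.T : Filter ℝ), |Real.log ‖F i w‖ - Real.log ‖F i 0‖| ≤
        8 * ‖w‖ * 6 ^ D * (t ^ D * Real.exp (-t)) := by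
      filter_upwards [hCD, hglin, 𝒢.ev_ge 1, 𝒢.ev_ge (2 * ‖w‖), 𝒢.g_ge 0] with t h1 h2 h3 h4 h5
      have hR : 0 < Real.exp t := Real.exp_pos t
      have h6 := poisson_diff (k := F i) (R := Real.exp t) (δ := Real.exp t / 2) hR (by positivity)
        (fun z _ => (hF i).analyticAt z) (fun z _ => hne z) (w := w) (z := 0) (by
          have := Real.add_one_le_exp t
          linarith) (by rw [norm_zero]; linarith)
      refine h6.trans ?_
      rw [sub_zero]
      have h7 : Real.circleAverage (fun ζ => |Real.log ‖F i ζ‖|) 0 (Real.exp t) ≤ (6 * t) ^ D := by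
        apply Real.circleAverage_mono_on_of_le_circle
          (ci_abs (ci_log (mero_of_diff (hF i)) _))
        intro z hz
        rw [mem_sphere, dist_zero_right, abs_of_pos hR] at hz
        have c1 : Real.log ‖F i z‖ ≤ mu (F i) t := by
          have := le_mu (hF i).continuous (t := t) (z := z) hz.le
          rw [Real.posLog_apply] at this
          exact (le_max_right _ _).trans this
        have c2 : Real.log ‖F j z‖ ≤ mu (F j) t := by
          have := le_mu (hF j).continuous (t := t) (z := z) hz.le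
          rw [Real.posLog_apply] at this
          exact (le_max_right _ _).trans this
        have c3 : Real.log ‖F j z‖ = - Real.log ‖F i z‖ := by
          have : F j z = (F i z)⁻¹ := by
            have := hij z
            field_simp [hne z]
            linear_combination this
          rw [this, norm_inv, Real.log_inv]
        have c4 : 𝒢.g t ^ D ≤ (6 * t) ^ D := pow_le_pow_left₀ h5 (by linarith) D
        rw [abs_le]
        constructor
        · linarith [h1 j]
        · linarith [h1 i]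
      have h8 : 2 * Real.exp t * ‖w‖ / (Real.exp t / 2) ^ 2 = 8 * ‖w‖ * Real.exp (-t) := by
        rw [Real.exp_neg]
        field_simp
        ring
      rw [h8]
      calc 8 * ‖w‖ * Real.exp (-t) * Real.circleAverage (fun ζ => |Real.log ‖F i ζ‖|) 0 (Real.exp t)
          ≤ 8 * ‖w‖ * Real.exp (-t) * (6 * t) ^ D := by gcongr
        _ = _ := by rw [mul_pow]; ring
    have hlim : Tendsto (fun t : ℝ => 8 * ‖w‖ * 6 ^ D * (t ^ D * Real.exp (-t)))
        (𝒢.T : Filter ℝ) (𝓝 (8 * ‖w‖ * 6 ^ D * 0)) :=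
      ((Real.tendsto_pow_mul_exp_neg_atTop_nhds_zero D).mono_left 𝒢.top).const_mul _
    rw [mul_zero] at hlim
    have h0 := ge_of_tendsto hlim hb
    have h1 := abs_nonneg (Real.log ‖F i w‖ - Real.log ‖F i 0‖)
    exact sub_eq_zero.mp (abs_eq_zero.mp (le_antisymm h0 h1))
  have hbd : Bornology.IsBounded (Set.range (F i)) := by
    rw [isBounded_iff_forall_norm_le]
    refine ⟨‖F i 0‖, ?_⟩
    rintro _ ⟨z, rfl⟩
    have h1 := hmod z
    have h2 := norm_pos_iff.mpr (hne z)
    have h3 := norm_pos_iff.mpr (hne 0)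
    rw [← Real.exp_log h2, ← Real.exp_log h3, h1]
  intro z
  exact (hF i).apply_eq_apply_of_bounded hbd z 0

end Pool.Agent.TH217.BA
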