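import Mathlib

/-!
Differential algebra for two Riccati chains: the second differences.
-/

set_option autoImplicit false
set_option linter.unusedSectionVars false

namespace Pool.Agent.TH217.BC

variable {F : Type*} [Field F] [CharZero F] (d : Derivation ℤ F F)

theorem d_mul (a b : F) : d (a * b) = a * d b + b * d a := by
  rw [d.leibniz, smul_eq_mul, smul_eq_mul]

/-- the hypotheses on a chain -/
structure Chain (l y D : ℕ → F) (N : ℕ) : Prop where
  h1 : ∀ n, n ≤ N → l (n + 1) = l n + y n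
  h2 : ∀ n, n ≤ N → y (n + 1) = y n + D n
  h3 : ∀ n, n ≤ N → d (l n) = l n * y n

variable {d} {l y D : ℕ → F} {N : ℕ}

theorem Chain.yd (h : Chain d l y D N) {n : ℕ} (hn : n + 1 ≤ N) :
    d (y n) = y n ^ 2 + D n * y n + D n * l n := by
  have e1 : y n = l (n + 1) - l n := by rw [h.h1 n (by omega)]; ring
  have e2 : d (y n) = d (l (n + 1)) - d (l n) := by rw [← map_sub, ← e1]
  rw [e2, h.h3 (n + 1) hn, h.h3 n (by omega), h.h1 n (by omega), h.h2 n (by omega)]
  ring

theorem Chain.star (h : Chain d l y D N) {n : ℕ} (hn : n + 2 ≤ N) :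
    d (D n) = l n * (D (n + 1) - D n) + y n * (D n + 2 * D (n + 1)) + D n ^ 2
      + D n * D (n + 1) := by
  have e1 : D n = y (n + 1) - y n := by rw [h.h2 n (by omega)]; ring
  have e2 : d (D n) = d (y (n + 1)) - d (y n) := by rw [← map_sub, ← e1]
  rw [e2, h.yd (n := n + 1) (by omega), h.yd (n := n) (by omega), h.h1 n (by omega),
    h.h2 n (by omega)]
  ring

variable {F0 : Subfield F}

theorem Chain.back (h : Chain d l y D N) (hD : ∀ n, n ≤ N → D n ∈ F0) {n : ℕ} (hn : n ≤ N)
    (hl : l n ∈ F0) (hy : y n ∈ F0) : l 0 ∈ F0 ∧ y 0 ∈ F0 := by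
  induction n with
  | zero => exact ⟨hl, hy⟩
  | succ n ih =>
    have e1 := h.h1 n (by omega)
    have e2 := h.h2 n (by omega)
    have hy' : y n ∈ F0 := by
      have : y n = y (n + 1) - D n := by rw [e2]; ring
      rw [this]; exact F0.sub_mem hy (hD n (by omega))
    have hl' : l n ∈ F0 := by
      have : l n = l (n + 1) - y n := by rw [e1]; ring
      rw [this]; exact F0.sub_mem hl hy'
    exact ih (by omega) hl' hy'

/-- the determinant vanishes -/
theorem Chain.theta (h : Chain d l y D N) (hD : ∀ n, n ≤ N → D n ∈ F0)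
    (hd : ∀ x ∈ F0, d x ∈ F0) (h3 : ¬ (l 0 ∈ F0 ∧ y 0 ∈ F0)) {n : ℕ} (hn : n + 3 ≤ N) :
    -3 * D (n + 2) * (D n - D (n + 1)) + (D n + 2 * D (n + 1)) * (D (n + 1) - D (n + 2)) = 0 := by
  by_contra hne
  apply h3
  have s0 := h.star (n := n) (by omega)
  have s1 := h.star (n := n + 1) (by omega)
  rw [h.h1 n (by omega), h.h2 n (by omega)] at s1
  have m0 := hD n (by omega)
  have m1 := hD (n + 1) (by omega)
  have m2 := hD (n + 2) (by omega)
  set D0 := D n
  set D1 := D (n + 1)
  set D2 := D (n + 2)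
  set r0 : F := D0 ^ 2 + D0 * D1 - d D0 with hr0
  set r1 : F := D0 * (D1 + 2 * D2) + D1 ^ 2 + D1 * D2 - d D1 with hr1
  have c2 : (2 : F) ∈ F0 := by exact_mod_cast natCast_mem F0 2
  have c3 : (3 : F) ∈ F0 := by exact_mod_cast natCast_mem F0 3
  have mr0 : r0 ∈ F0 := F0.sub_mem (F0.add_mem (F0.pow_mem m0 2) (F0.mul_mem m0 m1)) (hd _ m0)
  have mr1 : r1 ∈ F0 := F0.sub_mem (F0.add_mem (F0.add_mem (F0.mul_mem m0
    (F0.add_mem m1 (F0.mul_mem c2 m2))) (F0.pow_mem m1 2)) (F0.mul_mem m1 m2)) (hd _ m1)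
  set Θ : F := -3 * D2 * (D0 - D1) + (D0 + 2 * D1) * (D1 - D2) with hΘ
  have mΘ : Θ ∈ F0 := by
    apply F0.add_mem
    · exact F0.mul_mem (F0.mul_mem (F0.neg_mem c3) m2) (F0.sub_mem m0 m1)
    · exact F0.mul_mem (F0.add_mem m0 (F0.mul_mem c2 m1)) (F0.sub_mem m1 m2)
  have el : l n = (-(3 * D2) * r0 + (D0 + 2 * D1) * r1) / Θ := by
    rw [eq_div_iff hne, hr0, hr1, hΘ]
    linear_combination (-(3 * D2)) * s0 + (D0 + 2 * D1) * s1
  have ey : y n = ((D0 - D1) * r1 - (D1 - D2) * r0) / Θ := by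
    rw [eq_div_iff hne, hr0, hr1, hΘ]
    linear_combination (D0 - D1) * s1 - (D1 - D2) * s0
  refine h.back hD (n := n) (by omega) ?_ ?_
  · rw [el]
    exact F0.div_mem (F0.add_mem (F0.mul_mem (F0.neg_mem (F0.mul_mem c3 m2)) mr0)
      (F0.mul_mem (F0.add_mem m0 (F0.mul_mem c2 m1)) mr1)) mΘ
  · rw [ey]
    exact F0.div_mem (F0.sub_mem (F0.mul_mem (F0.sub_mem m0 m1) mr1)
      (F0.mul_mem (F0.sub_mem m1 m2) mr0)) mΘ

theorem two_mem (F0 : Subfield F) : (2 : F) ∈ F0 := by exact_mod_cast natCast_mem F0 2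
theorem three_mem (F0 : Subfield F) : (3 : F) ∈ F0 := by exact_mod_cast natCast_mem F0 3

/-- a zero after a non-zero second difference is followed by zeros -/
theorem Chain.zeros (h : Chain d l y D N) (hD : ∀ n, n ≤ N → D n ∈ F0)
    (hd : ∀ x ∈ F0, d x ∈ F0) (h3 : ¬ (l 0 ∈ F0 ∧ y 0 ∈ F0)) {n : ℕ} (hn : n + 6 ≤ N)
    (h0 : D n ≠ 0) (h1 : D (n + 1) = 0) :
    D (n + 2) = 0 ∧ D (n + 3) = 0 ∧ D (n + 4) = 0 := by
  have s0 := h.star (n := n) (by omega)
  rw [h1] at s0
  have m0 := hD n (by omega)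
  have l1 := h.h1 n (by omega)
  have l2 := h.h1 (n + 1) (by omega)
  have l3 := h.h1 (n + 2) (by omega)
  have y1 := h.h2 n (by omega)
  have y2 := h.h2 (n + 1) (by omega)
  have y3 := h.h2 (n + 2) (by omega)
  rw [h1] at y2
  set c : F := D n - d (D n) / D n with hc
  have mc : c ∈ F0 := F0.sub_mem m0 (F0.div_mem (hd _ m0) m0)
  have ec : l n = y n + c := by
    rw [hc]
    field_simp
    linear_combination s0
  have key : ∀ q r : ℚ, q ≠ 0 → (q : F) * y n + (r : F) * D n + c = 0 → False := by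
    intro q r hq he
    apply h3
    have hq' : (q : F) ≠ 0 := by exact_mod_cast hq
    have mq : (q : F) ∈ F0 := SubfieldClass.ratCast_mem F0 q
    have mr : (r : F) ∈ F0 := SubfieldClass.ratCast_mem F0 r
    have my : y n ∈ F0 := by
      have : y n = -((r : F) * D n + c) / (q : F) := by
        rw [eq_div_iff hq']
        linear_combination he
      rw [this]
      exact F0.div_mem (F0.neg_mem (F0.add_mem (F0.mul_mem mr m0) mc)) mq
    refine h.back hD (n := n) (by omega) ?_ my
    rw [ec]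
    exact F0.add_mem my mc
  have d2 : D (n + 2) = 0 := by
    by_contra hne
    have s := h.star (n := n + 1) (by omega)
    rw [h1, map_zero] at s
    have e : D (n + 2) * (l (n + 1) + 2 * y (n + 1)) = 0 := by
      have : D (n + 1 + 1) = D (n + 2) := rfl
      rw [this] at s
      linear_combination -s
    have e' := (mul_eq_zero.mp e).resolve_left hne
    refine key 4 2 (by norm_num) ?_
    push_cast
    rw [l1, y1, ec] at e'
    linear_combination e'
  have d3 : D (n + 3) = 0 := by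
    by_contra hne
    have s := h.star (n := n + 2) (by omega)
    rw [d2, map_zero] at s
    have e : D (n + 3) * (l (n + 2) + 2 * y (n + 2)) = 0 := by
      have : D (n + 2 + 1) = D (n + 3) := rfl
      rw [this] at s
      linear_combination -s
    have e' := (mul_eq_zero.mp e).resolve_left hne
    refine key 5 3 (by norm_num) ?_
    push_cast
    have a1 : l (n + 2) = l (n + 1) + y (n + 1) := l2
    have a2 : y (n + 2) = y (n + 1) + 0 := y2
    rw [a1, a2, l1, y1, ec] at e'
    linear_combination e'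
  have d4 : D (n + 4) = 0 := by
    by_contra hne
    have s := h.star (n := n + 3) (by omega)
    rw [d3, map_zero] at s
    have e : D (n + 4) * (l (n + 3) + 2 * y (n + 3)) = 0 := by
      have : D (n + 3 + 1) = D (n + 4) := rfl
      rw [this] at s
      linear_combination -s
    have e' := (mul_eq_zero.mp e).resolve_left hne
    refine key 6 4 (by norm_num) ?_
    push_cast
    have a1 : l (n + 2) = l (n + 1) + y (n + 1) := l2
    have a2 : y (n + 2) = y (n + 1) + 0 := y2
    have a3 : l (n + 3) = l (n + 2) + y (n + 2) := l3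
    have a4 : y (n + 3) = y (n + 2) + D (n + 2) := y3
    rw [a3, a4, d2, a1, a2, l1, y1, ec] at e'
    linear_combination e'
  exact ⟨d2, d3, d4⟩

theorem Chain.distinct (h : Chain d l y D N) (hD : ∀ n, n ≤ N → D n ∈ F0)
    (hd : ∀ x ∈ F0, d x ∈ F0) (h3 : ¬ (l 0 ∈ F0 ∧ y 0 ∈ F0)) {n : ℕ} (hn : n + 3 ≤ N)
    (h0 : D n ≠ 0) : D n ≠ D (n + 1) := by
  intro he
  have t := h.theta hD hd h3 (n := n) hn
  have s0 := h.star (n := n) (by omega)
  have s1 := h.star (n := n + 1) (by omega)
  have y1 := h.h2 n (by omega)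
  rw [← he] at t s0 s1
  have e2 : D n = D (n + 2) := by
    have : D n * (D n - D (n + 2)) = 0 := by linear_combination t / 3
    have := (mul_eq_zero.mp this).resolve_left h0
    linear_combination this
  have e3 : D (n + 1 + 1) = D (n + 2) := rfl
  rw [e3, ← e2] at s1
  have : D n * (y (n + 1) - y n) = 0 := by linear_combination (s0 - s1) / 3
  have := (mul_eq_zero.mp this).resolve_left h0
  rw [y1] at this
  apply h0
  linear_combination this

theorem Chain.trichotomy (h : Chain d l y D N) (hN : 20 ≤ N) (hD : ∀ n, n ≤ N → D n ∈ F0)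
    (hd : ∀ x ∈ F0, d x ∈ F0) (h3 : ¬ (l 0 ∈ F0 ∧ y 0 ∈ F0)) :
    (∃ m, m ≤ 12 ∧ D m = 0 ∧ D (m + 1) = 0 ∧ D (m + 2) = 0 ∧ D (m + 3) = 0) ∨
    (∃ n w e, n ≤ 12 ∧ w ∈ F0 ∧ e ∈ F0 ∧ e ≠ 0 ∧ d e = 0 ∧ 2 * d w = e ∧
      D n * (w * (w + 1) * (w + 2)) = e) := by
  by_cases hz : ∃ m, m ≤ 12 ∧ D m = 0 ∧ D (m + 1) = 0 ∧ D (m + 2) = 0 ∧ D (m + 3) = 0
  · exact Or.inl hz
  right
  push Not at hz
  have hne : ∃ n, n ≤ 3 ∧ D n ≠ 0 := by
    by_contra hc
    push Not at hc
    exact hz 0 (by omega) (hc 0 (by omega)) (hc 1 (by omega)) (hc 2 (by omega)) (hc 3 (by omega))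
  obtain ⟨n, hn3, hn0⟩ := hne
  have step : ∀ j, j ≤ 5 → D (n + j) ≠ 0 := by
    intro j
    induction j with
    | zero => intro _; simpa using hn0
    | succ j ih =>
      intro hj h1
      have h0 := ih (by omega)
      obtain ⟨a, b, c⟩ := h.zeros hD hd h3 (n := n + j) (by omega) h0 h1
      exact hz (n + j + 1) (by omega) h1 a b c
  have dist : ∀ j, j ≤ 5 → D (n + j) ≠ D (n + j + 1) := fun j hj =>
    h.distinct hD hd h3 (by omega) (step j hj)
  set w : ℕ → F := fun j => 3 * D (n + j + 1) / (D (n + j) - D (n + j + 1)) with hw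
  have c2 := two_mem F0
  have c3 := three_mem F0
  have mD : ∀ j, j ≤ 7 → D (n + j) ∈ F0 := fun j hj => hD _ (by omega)
  have mw : ∀ j, j ≤ 5 → w j ∈ F0 := fun j hj =>
    F0.div_mem (F0.mul_mem c3 (mD (j + 1) (by omega)))
      (F0.sub_mem (mD j (by omega)) (mD (j + 1) (by omega)))
  have sub_ne : ∀ j, j ≤ 5 → D (n + j) - D (n + j + 1) ≠ 0 := fun j hj =>
    sub_ne_zero.mpr (dist j hj)
  have wrec : ∀ j, j ≤ 4 → w (j + 1) = w j + 1 := by
    intro j hj
    have t := h.theta hD hd h3 (n := n + j) (by omega)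
    have a1 := sub_ne j (by omega)
    have a2 : D (n + j + 1) - D (n + j + 2) ≠ 0 := sub_ne (j + 1) (by omega)
    change 3 * D (n + j + 2) / (D (n + j + 1) - D (n + j + 2)) =
      3 * D (n + j + 1) / (D (n + j) - D (n + j + 1)) + 1
    rw [div_add_one a1, div_eq_div_iff a2 a1]
    linear_combination -t
  have wD : ∀ j, j ≤ 5 → D (n + j) * w j = D (n + j + 1) * (w j + 3) := by
    intro j hj
    have a1 := sub_ne j (by omega)
    simp only [hw]
    field_simp
    ring
  have w_ne : ∀ j, j ≤ 4 → w j ≠ 0 := by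
    intro j hj
    exact div_ne_zero (mul_ne_zero three_ne_zero (step (j + 1) (by omega))) (sub_ne j (by omega))
  have w1 : w 1 = w 0 + 1 := wrec 0 (by omega)
  have w2 : w 2 = w 0 + 2 := by rw [wrec 1 (by omega), w1]; ring
  have w3 : w 3 = w 0 + 3 := by rw [wrec 2 (by omega), w2]; ring
  have w4 : w 4 = w 0 + 4 := by rw [wrec 3 (by omega), w3]; ring
  have n0 := w_ne 0 (by omega)
  have n1 := w_ne 1 (by omega)
  have n2 := w_ne 2 (by omega)
  have n3 := w_ne 3 (by omega)
  have n4 := w_ne 4 (by omega)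
  set e : F := D n * (w 0 * (w 0 + 1) * (w 0 + 2)) with he
  have einv : ∀ j, j ≤ 3 → D (n + j) * (w j * (w j + 1) * (w j + 2)) = e := by
    intro j
    induction j with
    | zero => intro _; rfl
    | succ j ih =>
      intro hj
      rw [← ih (by omega), wrec j (by omega)]
      have := wD j (by omega)
      have e1 : D (n + (j + 1)) = D (n + j + 1) := rfl
      rw [e1]
      linear_combination (-(w j + 1) * (w j + 2)) * this
  have e_ne : e ≠ 0 := by
    rw [he, ← w1, ← w2]
    exact mul_ne_zero hn0 (mul_ne_zero (mul_ne_zero n0 n1) n2)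
  have me : e ∈ F0 := by
    rw [he]
    exact F0.mul_mem (mD 0 (by omega)) (F0.mul_mem (F0.mul_mem (mw 0 (by omega))
      (F0.add_mem (mw 0 (by omega)) F0.one_mem)) (F0.add_mem (mw 0 (by omega)) c2))
  have dwj : ∀ j, j ≤ 4 → d (w j) = d (w 0) := by
    intro j
    induction j with
    | zero => intro _; rfl
    | succ j ih =>
      intro hj
      rw [wrec j (by omega), map_add, ih (by omega)]
      simp
  -- the quantities kappa
  have kap : ∀ j, j ≤ 3 → ∃ κ ∈ F0, l (n + j) = (w j + 1) * y (n + j) + κ := by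
    intro j hj
    have s := h.star (n := n + j) (by omega)
    have a1 := sub_ne j (by omega)
    refine ⟨(D (n + j) ^ 2 + D (n + j) * D (n + j + 1) - d (D (n + j))) /
      (D (n + j) - D (n + j + 1)), ?_, ?_⟩
    · have b0 := mD j (by omega)
      have b1 := mD (j + 1) (by omega)
      have e1 : D (n + (j + 1)) = D (n + j + 1) := rfl
      rw [e1] at b1
      exact F0.div_mem (F0.sub_mem (F0.add_mem (F0.pow_mem b0 2) (F0.mul_mem b0 b1)) (hd _ b0))
        (F0.sub_mem b0 b1)
    · simp only [hw]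
      field_simp
      linear_combination s
  have kap2 : ∀ j, j ≤ 3 → ∃ κ ∈ F0, κ = d (w 0) + (w j + 1) * (w j + 2) * D (n + j) ∧
      d κ + (w j + 1) * D (n + j) * κ = 0 := by
    intro j hj
    obtain ⟨κ, mκ, hκ⟩ := kap j hj
    have dk : y (n + j) * (κ - d (w 0) - (w j + 1) * (w j + 2) * D (n + j)) =
        d κ + (w j + 1) * D (n + j) * κ := by
      have q1 := h.h3 (n + j) (by omega)
      have q2 := h.yd (n := n + j) (by omega)
      have q3 : d (l (n + j)) = (w j + 1) * d (y (n + j)) + y (n + j) * d (w j) + d κ := by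
        conv_lhs => rw [hκ]
        rw [map_add, d_mul, map_add]
        simp
      rw [q1, q2, dwj j (by omega)] at q3
      rw [hκ] at q3
      linear_combination q3
    have my : y (n + j) * (κ - d (w 0) - (w j + 1) * (w j + 2) * D (n + j)) ∈ F0 := by
      rw [dk]
      exact F0.add_mem (hd _ mκ) (F0.mul_mem (F0.mul_mem (F0.add_mem (mw j (by omega)) F0.one_mem)
        (mD j (by omega))) mκ)
    have mb : κ - d (w 0) - (w j + 1) * (w j + 2) * D (n + j) ∈ F0 :=
      F0.sub_mem (F0.sub_mem mκ (hd _ (mw 0 (by omega)))) (F0.mul_mem (F0.mul_mem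
        (F0.add_mem (mw j (by omega)) F0.one_mem) (F0.add_mem (mw j (by omega)) c2))
        (mD j (by omega)))
    have hb : κ - d (w 0) - (w j + 1) * (w j + 2) * D (n + j) = 0 := by
      by_contra hb
      apply h3
      have my' : y (n + j) ∈ F0 := by
        have : y (n + j) = y (n + j) * (κ - d (w 0) - (w j + 1) * (w j + 2) * D (n + j)) /
            (κ - d (w 0) - (w j + 1) * (w j + 2) * D (n + j)) := by field_simp
        rw [this]
        exact F0.div_mem my mb
      refine h.back hD (n := n + j) (by omega) ?_ my'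
      rw [hκ]
      exact F0.add_mem (F0.mul_mem (F0.add_mem (mw j (by omega)) F0.one_mem) my') mκ
    refine ⟨κ, mκ, by linear_combination hb, ?_⟩
    rw [← dk, hb, mul_zero]
  -- the cubic
  have cub : ∀ j, j ≤ 3 → d (d (w 0)) * (w j ^ 3 + 2 * w j ^ 2) + d e * (w j ^ 2 + 2 * w j)
      - 2 * e * d (w 0) + e ^ 2 = 0 := by
    intro j hj
    obtain ⟨κ, mκ, hκ, hκ2⟩ := kap2 j hj
    have wn : w j ≠ 0 := w_ne j (by omega)
    have ei := einv j hj
    -- kappa * w = w' w + e
    have k1 : κ * w j = d (w 0) * w j + e := by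
      rw [hκ, ← ei]; ring
    have k2 : d κ * w j + κ * d (w 0) = d (d (w 0)) * w j + d (w 0) * d (w 0) + d e := by
      have := congrArg d k1
      rw [d_mul, map_add, d_mul, dwj j (by omega)] at this
      linear_combination this
    have k3 : (w j + 1) * D (n + j) * (w j * (w j + 2)) = e := by
      rw [← ei]; ring
    have k4 : (d κ + (w j + 1) * D (n + j) * κ) * (w j * (w j * (w j + 2))) = 0 := by
      rw [hκ2, zero_mul]
    linear_combination k4 - (w j * (w j + 2)) * k2 - (κ * w j) * k3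
      + (-e + d (w 0) * (w j + 2)) * k1
  have c0 := cub 0 (by omega)
  have c1 := cub 1 (by omega)
  have c2' := cub 2 (by omega)
  have c3' := cub 3 (by omega)
  rw [w1] at c1
  rw [w2] at c2'
  rw [w3] at c3'
  have z2 : d (d (w 0)) = 0 := by
    have : 6 * d (d (w 0)) = 0 := by linear_combination c3' - 3 * c2' + 3 * c1 - c0
    exact (mul_eq_zero.mp this).resolve_left (by norm_num)
  rw [z2] at c0 c1 c2'
  have z1 : d e = 0 := by
    have : 2 * d e = 0 := by linear_combination c2' - 2 * c1 + c0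
    exact (mul_eq_zero.mp this).resolve_left (by norm_num)
  rw [z1] at c0
  have z0 : 2 * d (w 0) = e := by
    have : e * (2 * d (w 0) - e) = 0 := by linear_combination -c0
    have := (mul_eq_zero.mp this).resolve_left e_ne
    linear_combination this
  exact ⟨n, w 0, e, by omega, mw 0 (by omega), me, e_ne, z1, z0, rfl⟩

end Pool.Agent.TH217.BC
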