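import Pool.Agent.TH217.BC1

/-!
Differential algebra for two Riccati chains: the next order.
-/

set_option autoImplicit false
set_option linter.unusedSectionVars false

namespace Pool.Agent.TH217.BC

variable {F : Type*} [Field F] [CharZero F] {d : Derivation ℤ F F}

theorem quartic_zero {c0 c1 c2 c3 c4 w : F}
    (h : ∀ n : ℕ, n ≤ 4 → c4 * (w + n) ^ 4 + c3 * (w + n) ^ 3 + c2 * (w + n) ^ 2 + c1 * (w + n)
      + c0 = 0) : c4 = 0 ∧ c3 = 0 ∧ c2 = 0 ∧ c1 = 0 ∧ c0 = 0 := by
  have h0 := h 0 (by omega)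
  have h1 := h 1 (by omega)
  have h2 := h 2 (by omega)
  have h3 := h 3 (by omega)
  have h4 := h 4 (by omega)
  push_cast at h0 h1 h2 h3 h4
  have z4 : c4 = 0 := by
    have : 24 * c4 = 0 := by linear_combination h4 - 4 * h3 + 6 * h2 - 4 * h1 + h0
    exact (mul_eq_zero.mp this).resolve_left (by norm_num)
  subst z4
  have z3 : c3 = 0 := by
    have : 6 * c3 = 0 := by linear_combination h3 - 3 * h2 + 3 * h1 - h0
    exact (mul_eq_zero.mp this).resolve_left (by norm_num)
  subst z3
  have z2 : c2 = 0 := by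
    have : 2 * c2 = 0 := by linear_combination h2 - 2 * h1 + h0
    exact (mul_eq_zero.mp this).resolve_left (by norm_num)
  subst z2
  have z1 : c1 = 0 := by linear_combination h1 - h0
  subst z1
  refine ⟨rfl, rfl, rfl, rfl, by linear_combination h0⟩

/-- the window lemma -/
theorem window {l y D t : ℕ → F} {x : F} {F0 : Subfield F}
    (h1 : ∀ n, n ≤ 12 → l (n + 1) = l n + y n)
    (h2 : ∀ n, n ≤ 12 → y (n + 1) = y n + D n)
    (h3 : ∀ n, n ≤ 12 → d (l n) = l n * y n)
    (ht : ∀ n, n ≤ 12 → t (n + 1) = t n + x)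
    (hlt : ∀ n, n ≤ 12 → l (n + 1) * t (n + 1) - l n * t n = d (t n) - t n * x)
    (hy : ∀ n, n ≤ 12 → y n ∈ F0) (hx : x ∈ F0) (hx0 : x ≠ 0) (hd : ∀ x ∈ F0, d x ∈ F0) :
    (∃ m, m ≤ 8 ∧ D m = 0 ∧ D (m + 1) = 0 ∧ D (m + 2) = 0 ∧ D (m + 3) = 0) ∨
    (∃ n w e, n ≤ 8 ∧ w ∈ F0 ∧ e ∈ F0 ∧ e ≠ 0 ∧ d e = 0 ∧ 2 * d w = e ∧
      D n * (w * (w + 1) * (w + 2)) = e) := by
  by_cases hz : ∃ m, m ≤ 8 ∧ D m = 0 ∧ D (m + 1) = 0 ∧ D (m + 2) = 0 ∧ D (m + 3) = 0
  · exact Or.inl hz
  right
  push Not at hz
  have hne : ∃ n, n ≤ 3 ∧ D n ≠ 0 := by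
    by_contra hc
    push Not at hc
    exact hz 0 (by omega) (hc 0 (by omega)) (hc 1 (by omega)) (hc 2 (by omega)) (hc 3 (by omega))
  obtain ⟨n0, hn3, hn0⟩ := hne
  have c2 := two_mem F0
  have mD : ∀ n, n ≤ 11 → D n ∈ F0 := by
    intro n hn
    have : D n = y (n + 1) - y n := by rw [h2 n (by omega)]; ring
    rw [this]
    exact F0.sub_mem (hy _ (by omega)) (hy _ (by omega))
  -- second difference
  have S : ∀ n, n ≤ 10 → D n * t n = d x - x ^ 2 - 2 * x * y (n + 1) := by
    intro n hn
    have a0 := hlt n (by omega)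
    have a1 := hlt (n + 1) (by omega)
    have e1 : l (n + 1) = l n + y n := h1 n (by omega)
    have e2 : l (n + 1 + 1) = l (n + 1) + y (n + 1) := h1 (n + 1) (by omega)
    have e3 : t (n + 1) = t n + x := ht n (by omega)
    have e4 : t (n + 1 + 1) = t (n + 1) + x := ht (n + 1) (by omega)
    have e5 : y (n + 1) = y n + D n := h2 n (by omega)
    rw [e4, e2, e3, map_add, e1, e5] at a1
    rw [e3, e1] at a0
    rw [e5]
    linear_combination a1 - a0
  have mt0 : t n0 ∈ F0 := by
    have a := S n0 (by omega)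
    have : t n0 = (d x - x ^ 2 - 2 * x * y (n0 + 1)) / D n0 := by
      rw [eq_div_iff hn0, ← a]; ring
    rw [this]
    exact F0.div_mem (F0.sub_mem (F0.sub_mem (hd _ hx) (F0.pow_mem hx 2))
      (F0.mul_mem (F0.mul_mem c2 hx) (hy _ (by omega)))) (mD _ (by omega))
  have tn : ∀ n, n ≤ 12 → t n = t 0 + n * x := by
    intro n
    induction n with
    | zero => intro _; simp
    | succ n ih =>
      intro hn
      rw [ht n (by omega), ih (by omega)]
      push_cast
      ring
  have mt : t 0 ∈ F0 := by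
    have : t 0 = t n0 - n0 * x := by rw [tn n0 (by omega)]; ring
    rw [this]
    exact F0.sub_mem mt0 (F0.mul_mem (natCast_mem F0 n0) hx)
  set w0 : F := t 0 / x with hw0
  have mw0 : w0 ∈ F0 := F0.div_mem mt hx
  set w : ℕ → F := fun n => w0 + n with hw
  have mw : ∀ n, w n ∈ F0 := fun n => F0.add_mem mw0 (natCast_mem F0 n)
  have wrec : ∀ n, w (n + 1) = w n + 1 := by
    intro n
    simp only [hw]
    push_cast
    ring
  have tw : ∀ n, n ≤ 12 → t n = x * w n := by
    intro n hn
    rw [tn n hn]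
    simp only [hw, hw0]
    field_simp
  set ω : F := d w0 with hω
  have dw : ∀ n, d (w n) = ω := by
    intro n
    simp only [hw]
    rw [map_add]
    simp [hω]
  set θ : F := d x / x - x with hθ
  have Ft : ∀ n, n ≤ 11 → ω + w n * θ = w n * y n + l (n + 1) := by
    intro n hn
    have a := hlt n (by omega)
    rw [tw n (by omega), tw (n + 1) (by omega), d_mul, dw, h1 n (by omega), wrec n] at a
    have : x * (ω + w n * θ) = x * (w n * y n + (l n + y n)) := by
      rw [hθ]
      field_simp
      linear_combination -a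
    have := mul_left_cancel₀ hx0 this
    rw [this, h1 n (by omega)]
  have G : ∀ n, n ≤ 10 → θ = w n * D n + 2 * y (n + 1) := by
    intro n hn
    have a0 := Ft n (by omega)
    have a1 := Ft (n + 1) (by omega)
    rw [wrec n, h1 (n + 1) (by omega)] at a1
    have e5 : y (n + 1) = y n + D n := h2 n (by omega)
    linear_combination a1 - a0 + (w n) * e5
  have H : ∀ n, n ≤ 9 → w n * D n = (w n + 3) * D (n + 1) := by
    intro n hn
    have a0 := G n (by omega)
    have a1 := G (n + 1) (by omega)
    rw [wrec n, h2 (n + 1) (by omega)] at a1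
    linear_combination a1 - a0
  set e : F := D 0 * (w 0 * (w 0 + 1) * (w 0 + 2)) with he
  have einv : ∀ n, n ≤ 10 → D n * (w n * (w n + 1) * (w n + 2)) = e := by
    intro n
    induction n with
    | zero => intro _; rfl
    | succ n ih =>
      intro hn
      rw [← ih (by omega), wrec n]
      have := H n (by omega)
      linear_combination (-(w n + 1) * (w n + 2)) * this
  have me : e ∈ F0 := by
    rw [he]
    exact F0.mul_mem (mD 0 (by omega)) (F0.mul_mem (F0.mul_mem (mw 0)
      (F0.add_mem (mw 0) F0.one_mem)) (F0.add_mem (mw 0) c2))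
  have yq : ∀ n, n ≤ 10 → 2 * y n * (w n * (w n + 1)) = θ * (w n * (w n + 1)) - e := by
    intro n hn
    have a0 := G n (by omega)
    have e5 : y (n + 1) = y n + D n := h2 n (by omega)
    rw [e5] at a0
    rw [← einv n hn]
    linear_combination (-(w n * (w n + 1))) * a0
  have lq : ∀ n, n ≤ 10 → 2 * w n * l n = 2 * w n * ω + w n * (w n - 1) * θ + e := by
    intro n hn
    have a0 := Ft n (by omega)
    have a1 := yq n hn
    rw [h1 n (by omega)] at a0
    linear_combination (-(2 * w n)) * a0 - a1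
  have Φ : ∀ n, n ≤ 10 → (2 * d θ - θ ^ 2) * (w n) ^ 4 + (4 * d ω) * (w n) ^ 3
      + (2 * d e + 4 * d ω - 2 * d θ + θ ^ 2) * (w n) ^ 2 + (2 * d e - 2 * e * θ) * (w n)
      + (e ^ 2 - 2 * ω * e) = 0 := by
    intro n hn
    have a1 := lq n hn
    have a2 := yq n hn
    have d2 : d (2 : F) = 0 := by
      have := d.map_natCast 2
      simpa using this
    have d1 : d (w n - 1) = ω := by
      rw [map_sub, dw]
      simp
    have r1 : d (2 * w n * l n) = 2 * w n * (l n * y n) + l n * (2 * ω) := by
      rw [d_mul, d_mul, d2, dw, h3 n (by omega)]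
      ring
    have r2 : d (2 * w n * ω) = 2 * w n * d ω + ω * (2 * ω) := by
      rw [d_mul, d_mul, d2, dw]
      ring
    have r3 : d (w n * (w n - 1) * θ) = w n * (w n - 1) * d θ
        + θ * (w n * ω + (w n - 1) * ω) := by
      rw [d_mul, d_mul, dw, d1]
    have a3 := congrArg d a1
    rw [map_add, map_add, r1, r2, r3] at a3
    linear_combination (-(2 * w n * (w n + 1))) * a3
      + (2 * ω * (w n + 1) + 2 * y n * (w n * (w n + 1))) * a1
      + (2 * w n * ω + w n * (w n - 1) * θ + e) * a2
  have q := quartic_zero (w := w0) (fun n hn => Φ n (by omega))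
  obtain ⟨q4, q3, q2, q1, q0⟩ := q
  by_cases e0 : e = 0
  · exfalso
    rw [e0] at einv
    have wz : w n0 = 0 ∨ w n0 + 1 = 0 ∨ w n0 + 2 = 0 := by
      have := (mul_eq_zero.mp (einv n0 (by omega))).resolve_left hn0
      rcases mul_eq_zero.mp this with h | h
      · rcases mul_eq_zero.mp h with h | h
        · exact Or.inl h
        · exact Or.inr (Or.inl h)
      · exact Or.inr (Or.inr h)
    have wadd : ∀ j : ℕ, w (n0 + j) = w n0 + j := by
      intro j
      simp only [hw]
      push_cast
      ring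
    have Dz : ∀ j : ℕ, 3 ≤ j → j ≤ 6 → D (n0 + j) = 0 := by
      intro j hj3 hj6
      have a := einv (n0 + j) (by omega)
      rw [wadd j] at a
      refine (mul_eq_zero.mp a).resolve_right ?_
      have pos : ∀ k : ℕ, 1 ≤ k → w n0 + ((k + 2 : ℕ) : F) ≠ 0 := by
        intro k hk
        rcases wz with h | h | h
        · rw [h, zero_add]
          exact_mod_cast (by omega : k + 2 ≠ 0)
        · have : w n0 + ((k + 2 : ℕ) : F) = ((k + 1 : ℕ) : F) := by
            push_cast; linear_combination h
          rw [this]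
          exact_mod_cast (by omega : k + 1 ≠ 0)
        · have : w n0 + ((k + 2 : ℕ) : F) = ((k : ℕ) : F) := by
            push_cast; linear_combination h
          rw [this]
          exact_mod_cast (by omega : k ≠ 0)
      have b0 := pos (j - 2) (by omega)
      have b1 := pos (j - 1) (by omega)
      have b2 := pos j (by omega)
      rw [show j - 2 + 2 = j by omega] at b0
      rw [show j - 1 + 2 = j + 1 by omega] at b1
      push_cast at b1 b2
      refine mul_ne_zero (mul_ne_zero b0 ?_) ?_
      · rwa [add_assoc]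
      · rwa [add_assoc]
    exact hz (n0 + 3) (by omega) (Dz 3 (by omega) (by omega)) (Dz 4 (by omega) (by omega))
      (Dz 5 (by omega) (by omega)) (Dz 6 (by omega) (by omega))
  · have w00 : w 0 = w0 := by simp [hw]
    have z1 : d e = 0 := by linear_combination (q2 + q4 - q3) / 2
    refine ⟨0, w0, e, by omega, mw0, me, e0, z1, ?_, ?_⟩
    · have : e * (2 * ω - e) = 0 := by linear_combination -q0
      have := (mul_eq_zero.mp this).resolve_left e0
      rw [← hω]
      linear_combination this
    · rw [he, w00]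

end Pool.Agent.TH217.BC
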