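import Pool.Agent.TH217.BC2

/-!
Abstract places on a differential field containing a field of small elements.
-/

set_option autoImplicit false
set_option linter.unusedSectionVars false

namespace Pool.Agent.TH217.BC

/-- a differential field with a subfield of small elements and a subring of entire elements -/
structure DF (K : Type*) [Field K] where
  d : Derivation ℤ K K
  k0 : Subfield K
  Ent : Subring K
  dk0 : ∀ x ∈ k0, d x ∈ k0
  dEnt : ∀ x ∈ Ent, d x ∈ Ent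
  const0 : ∀ x, d x = 0 → x ∈ k0
  constE : ∀ x, d x = 0 → x ∈ Ent
  lin : ∀ s, d s = 1 → s ∈ Ent
  lin0 : ∀ s, d s = 1 → ∀ h ∈ Ent, s * h ≠ 1

variable {K : Type*} [Field K] [CharZero K] {𝒦 : DF K}

namespace DF

theorem dmul (𝒦 : DF K) (a b : K) : 𝒦.d (a * b) = a * 𝒦.d b + b * 𝒦.d a := d_mul _ _ _

theorem dnat (𝒦 : DF K) (n : ℕ) : 𝒦.d (n : K) = 0 := by
  have := 𝒦.d.map_natCast n
  simpa using this

theorem done (𝒦 : DF K) : 𝒦.d (1 : K) = 0 := 𝒦.d.map_one_eq_zero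

theorem d2 (𝒦 : DF K) : 𝒦.d (2 : K) = 0 := by
  have := 𝒦.dnat 2
  exact_mod_cast this

theorem dinv (𝒦 : DF K) {x : K} (hx : x ≠ 0) : 𝒦.d x⁻¹ = - 𝒦.d x / x ^ 2 := by
  have h := 𝒦.dmul x x⁻¹
  rw [mul_inv_cancel₀ hx, 𝒦.done] at h
  field_simp at h ⊢
  linear_combination -h

theorem ddiv (𝒦 : DF K) (x : K) {y : K} (hy : y ≠ 0) :
    𝒦.d (x / y) = (𝒦.d x * y - x * 𝒦.d y) / y ^ 2 := by
  rw [div_eq_mul_inv, 𝒦.dmul, 𝒦.dinv hy]
  field_simp
  ring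

/-- no solution of `c' = r c²` -/
theorem f1 (𝒦 : DF K) {c r : K} (hc : c ∈ 𝒦.Ent) (hr : 𝒦.d r = 0) (hr0 : r ≠ 0)
    (h : 𝒦.d c = r * c ^ 2) : c = 0 := by
  by_contra hc0
  have hs : 𝒦.d (-(r * c)⁻¹) = 1 := by
    rw [map_neg, 𝒦.dinv (mul_ne_zero hr0 hc0), 𝒦.dmul, hr, h]
    field_simp
    ring
  refine 𝒦.lin0 _ hs (-(r * c)) ?_ ?_
  · exact 𝒦.Ent.neg_mem (𝒦.Ent.mul_mem (𝒦.constE _ hr) hc)
  · field_simp

theorem f4 (𝒦 : DF K) {x : K} (hx : x ≠ 0) (h : 𝒦.d x = - x ^ 2) {m : ℕ} (hm : 1 ≤ m)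
    (hE : (m : K) * x ∈ 𝒦.Ent) : False := by
  have hm0 : (m : K) ≠ 0 := by exact_mod_cast (by omega : m ≠ 0)
  have hs : 𝒦.d (x⁻¹) = 1 := by
    rw [𝒦.dinv hx, h]
    field_simp
  refine 𝒦.lin0 _ hs ((m : K)⁻¹ * ((m : K) * x)) ?_ ?_
  · refine 𝒦.Ent.mul_mem (𝒦.constE _ ?_) hE
    rw [𝒦.dinv hm0, 𝒦.dnat]
    simp
  · field_simp

theorem two_inv_mem (𝒦 : DF K) : (2 : K)⁻¹ ∈ 𝒦.Ent := by
  refine 𝒦.constE _ ?_
  rw [𝒦.dinv two_ne_zero, 𝒦.d2]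
  simp

theorem fE2 (𝒦 : DF K) {q b : K} (hq0 : q ≠ 0) (hq : 𝒦.d q = q ^ 2) (hb : b ∈ 𝒦.Ent)
    (h : 𝒦.d b = b ^ 2 + 4 * q * b + 2 * q ^ 2) : False := by
  have hs : 𝒦.d (-q⁻¹) = 1 := by
    rw [map_neg, 𝒦.dinv hq0, hq]
    field_simp
  have hsE := 𝒦.lin _ hs
  refine 𝒦.lin0 _ hs ((2 : K)⁻¹ * (𝒦.d b * (-q⁻¹) - b ^ 2 * (-q⁻¹) + (b + b + b + b))) ?_ ?_
  · refine 𝒦.Ent.mul_mem 𝒦.two_inv_mem (𝒦.Ent.add_mem (𝒦.Ent.sub_mem
      (𝒦.Ent.mul_mem (𝒦.dEnt _ hb) hsE) (𝒦.Ent.mul_mem (𝒦.Ent.pow_mem hb 2) hsE))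
      (𝒦.Ent.add_mem (𝒦.Ent.add_mem (𝒦.Ent.add_mem hb hb) hb) hb))
  · rw [h]
    field_simp
    try ring

theorem fZ (𝒦 : DF K) {D w e : K} (hD : D ∈ 𝒦.Ent) (he0 : e ≠ 0) (he : 𝒦.d e = 0)
    (hw : 2 * 𝒦.d w = e) (h : D * (w * (w + 1) * (w + 2)) = e) : False := by
  have hs : 𝒦.d (2 * w / e) = 1 := by
    rw [𝒦.ddiv _ he0, 𝒦.dmul, he, 𝒦.d2]
    field_simp
    linear_combination e * hw
  have hsE := 𝒦.lin _ hs
  have hwE : w ∈ 𝒦.Ent := by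
    have : w = (2 : K)⁻¹ * (e * (2 * w / e)) := by field_simp
    rw [this]
    exact 𝒦.Ent.mul_mem 𝒦.two_inv_mem (𝒦.Ent.mul_mem (𝒦.constE _ he) hsE)
  refine 𝒦.lin0 _ hs ((2 : K)⁻¹ * (D * (w + 1) * (w + (1 + 1)))) ?_ ?_
  · exact 𝒦.Ent.mul_mem 𝒦.two_inv_mem (𝒦.Ent.mul_mem (𝒦.Ent.mul_mem hD
      (𝒦.Ent.add_mem hwE 𝒦.Ent.one_mem)) (𝒦.Ent.add_mem hwE
      (𝒦.Ent.add_mem 𝒦.Ent.one_mem 𝒦.Ent.one_mem)))
  · field_simp
    linear_combination h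

end DF

/-- a place -/
structure Place (𝒦 : DF K) where
  A : ValuationSubring K
  logd : ∀ x : K, x ≠ 0 → 𝒦.d x / x ∈ A
  k0A : ∀ x ∈ 𝒦.k0, x ∈ A

namespace Place

variable (P : Place 𝒦)

/-- membership in the maximal ideal -/
def m (x : K) : Prop := P.A.valuation x < 1

variable {P} {x y z : K}

theorem mem_iff : x ∈ P.A ↔ P.A.valuation x ≤ 1 := (P.A.valuation_le_one_iff x).symm
theorem nmem_iff : x ∉ P.A ↔ 1 < P.A.valuation x := by rw [mem_iff, not_le]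
theorem m_mem (h : P.m x) : x ∈ P.A := mem_iff.mpr h.le
theorem m_zero : P.m 0 := by unfold m; rw [map_zero]; exact zero_lt_one
theorem not_m_one : ¬ P.m 1 := by unfold m; rw [map_one]; exact lt_irrefl _
theorem m_add (hx : P.m x) (hy : P.m y) : P.m (x + y) := P.A.valuation.map_add_lt hx hy
theorem m_neg (hx : P.m x) : P.m (-x) := by unfold m at *; rwa [Valuation.map_neg]
theorem m_sub (hx : P.m x) (hy : P.m y) : P.m (x - y) := by
  rw [sub_eq_add_neg]; exact m_add hx (m_neg hy)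
theorem m_mul (hx : x ∈ P.A) (hy : P.m y) : P.m (x * y) := by
  unfold m at *
  rw [map_mul]
  have h1 := mem_iff.mp hx
  calc P.A.valuation x * P.A.valuation y ≤ 1 * P.A.valuation y := mul_le_mul_left h1 _
    _ < 1 := by rwa [one_mul]
theorem m_mul' (hx : P.m x) (hy : y ∈ P.A) : P.m (x * y) := by
  rw [mul_comm]; exact m_mul hy hx
theorem ne_zero_of_nmem (h : x ∉ P.A) : x ≠ 0 := by
  rintro rfl
  exact h P.A.zero_mem
theorem m_inv (h : x ∉ P.A) : P.m x⁻¹ := by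
  unfold m
  rw [map_inv₀]
  exact inv_lt_one_of_one_lt₀ (nmem_iff.mp h)
theorem m_div (hx : x ∈ P.A) (hy : y ∉ P.A) : P.m (x / y) := by
  rw [div_eq_mul_inv]; exact m_mul hx (m_inv hy)
theorem inv_mem_of_not_m (h : ¬ P.m x) : x⁻¹ ∈ P.A := by
  rw [mem_iff, map_inv₀]
  unfold m at h
  rw [not_lt] at h
  exact inv_le_one_of_one_le₀ h
theorem div_mem_of_not_m (hx : x ∈ P.A) (h : ¬ P.m y) : x / y ∈ P.A := by
  rw [div_eq_mul_inv]; exact P.A.mul_mem _ _ hx (inv_mem_of_not_m h)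
theorem m_div' (hx : P.m x) (h : ¬ P.m y) : P.m (x / y) := by
  rw [div_eq_mul_inv]; exact m_mul' hx (inv_mem_of_not_m h)
theorem not_m_ne_zero (h : ¬ P.m x) : x ≠ 0 := by
  rintro rfl
  exact h m_zero
theorem m_k0 (hx : x ∈ 𝒦.k0) (h : P.m x) : x = 0 := by
  by_contra hne
  apply not_m_one (P := P)
  have := m_mul' h (P.k0A _ (𝒦.k0.inv_mem hx))
  rwa [mul_inv_cancel₀ hne] at this
theorem not_m_k0 (hx : x ∈ 𝒦.k0) (h : x ≠ 0) : ¬ P.m x := fun hm => h (m_k0 hx hm)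
theorem k0_congr (hx : x ∈ 𝒦.k0) (hy : y ∈ 𝒦.k0) (h : P.m (x - y)) : x = y :=
  sub_eq_zero.mp (m_k0 (𝒦.k0.sub_mem hx hy) h)
theorem dA (hx : x ∈ P.A) : 𝒦.d x ∈ P.A := by
  by_cases h : x = 0
  · rw [h, map_zero]; exact P.A.zero_mem
  · have : 𝒦.d x = x * (𝒦.d x / x) := by field_simp
    rw [this]
    exact P.A.mul_mem _ _ hx (P.logd x h)
theorem dm (hx : P.m x) : P.m (𝒦.d x) := by
  by_cases h : x = 0
  · rw [h, map_zero]; exact m_zero
  · have : 𝒦.d x = x * (𝒦.d x / x) := by field_simp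
    rw [this]
    exact m_mul' hx (P.logd x h)

theorem nmem_add (hx : x ∉ P.A) (hy : y ∈ P.A) : x + y ∉ P.A := by
  intro h
  apply hx
  have : x = (x + y) - y := by ring
  rw [this]
  exact sub_mem h hy

theorem nmem_mul (hx : x ∉ P.A) (hy : ¬ P.m y) : x * y ∉ P.A := by
  intro h
  apply hx
  have : x = (x * y) / y := by
    have := not_m_ne_zero hy
    field_simp
  rw [this]
  exact div_mem_of_not_m h hy

/-- rigidity of units -/
theorem unit_eq {ε ρ : K} (hε : 𝒦.d ε / ε ∈ 𝒦.k0) (hε0 : ε ≠ 0) (hρ : ρ ∈ 𝒦.k0) (hρ0 : ρ ≠ 0)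
    (h : P.m (ε - ρ)) : ε = ρ := by
  have hη0 : ε / ρ ≠ 0 := div_ne_zero hε0 hρ0
  have h1 : P.m (ε / ρ - 1) := by
    have : ε / ρ - 1 = (ε - ρ) / ρ := by field_simp
    rw [this]
    exact m_div' h (not_m_k0 hρ hρ0)
  have h2 : P.m (𝒦.d (ε / ρ)) := by
    have := dm h1
    rwa [map_sub, 𝒦.done, sub_zero] at this
  have h3 : ¬ P.m (ε / ρ) := by
    intro h4
    apply not_m_one (P := P)
    have := m_sub h4 h1
    rwa [sub_sub_cancel] at this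
  have h5 : P.m (𝒦.d (ε / ρ) / (ε / ρ)) := m_div' h2 h3
  have h6 : 𝒦.d (ε / ρ) / (ε / ρ) ∈ 𝒦.k0 := by
    have : 𝒦.d (ε / ρ) / (ε / ρ) = 𝒦.d ε / ε - 𝒦.d ρ / ρ := by
      rw [𝒦.ddiv _ hρ0]
      field_simp
    rw [this]
    exact 𝒦.k0.sub_mem hε (𝒦.k0.div_mem (𝒦.dk0 _ hρ) hρ)
  have h7 := m_k0 h6 h5
  have h8 : 𝒦.d (ε / ρ) = 0 := (div_eq_zero_iff.mp h7).resolve_right hη0
  have h9 := 𝒦.const0 _ h8
  have h10 := m_k0 (𝒦.k0.sub_mem h9 𝒦.k0.one_mem) h1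
  have h11 : ε / ρ = 1 := sub_eq_zero.mp h10
  field_simp at h11
  exact h11

/-! ### the residue field -/

variable (P)

/-- the residue field -/
abbrev kap : Type _ := IsLocalRing.ResidueField P.A

/-- the residue map, with junk value `0` outside `A` -/
noncomputable def rs (x : K) : P.kap :=
  open Classical in if h : x ∈ P.A then IsLocalRing.residue P.A ⟨x, h⟩ else 0

variable {P}

theorem rs_of (h : x ∈ P.A) : P.rs x = IsLocalRing.residue P.A ⟨x, h⟩ := by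
  unfold rs; rw [dif_pos h]

theorem rs_zero_iff (hx : x ∈ P.A) : P.rs x = 0 ↔ P.m x := by
  rw [rs_of hx, IsLocalRing.residue_eq_zero_iff, P.A.valuation_lt_one_iff]
  rfl

theorem rs_add (hx : x ∈ P.A) (hy : y ∈ P.A) : P.rs (x + y) = P.rs x + P.rs y := by
  rw [rs_of hx, rs_of hy, rs_of (P.A.add_mem _ _ hx hy), ← map_add]
  rfl

theorem rs_sub (hx : x ∈ P.A) (hy : y ∈ P.A) : P.rs (x - y) = P.rs x - P.rs y := by
  rw [rs_of hx, rs_of hy, rs_of (sub_mem hx hy), ← map_sub]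
  rfl

theorem rs_mul (hx : x ∈ P.A) (hy : y ∈ P.A) : P.rs (x * y) = P.rs x * P.rs y := by
  rw [rs_of hx, rs_of hy, rs_of (P.A.mul_mem _ _ hx hy), ← map_mul]
  rfl

theorem rs_one : P.rs 1 = 1 := by
  rw [rs_of P.A.one_mem, ← map_one (IsLocalRing.residue P.A)]
  rfl

theorem rs_zero : P.rs 0 = 0 := by
  rw [rs_of P.A.zero_mem, ← map_zero (IsLocalRing.residue P.A)]
  rfl

theorem rs_congr (hx : x ∈ P.A) (hy : y ∈ P.A) : P.rs x = P.rs y ↔ P.m (x - y) := by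
  rw [← sub_eq_zero, ← rs_sub hx hy, rs_zero_iff (sub_mem hx hy)]

theorem rs_eq_of (hy : y ∈ P.A) (h : P.m (x - y)) : P.rs x = P.rs y := by
  have hx : x ∈ P.A := by
    have : x = (x - y) + y := by ring
    rw [this]
    exact P.A.add_mem _ _ (m_mem h) hy
  exact (rs_congr hx hy).mpr h

/-- the derivation on the valuation ring -/
noncomputable def dA' (P : Place 𝒦) : Derivation ℤ P.A P.A where
  toFun x := ⟨𝒦.d x, dA x.2⟩
  map_add' x y := by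
    apply Subtype.ext
    simp
  map_smul' n x := by
    apply Subtype.ext
    simp
  map_one_eq_zero' := by
    apply Subtype.ext
    simp
  leibniz' x y := by
    apply Subtype.ext
    simp

theorem dA'_ker (P : Place 𝒦) : ∀ x : P.A, (IsLocalRing.residue P.A).toIntAlgHom x = 0 →
    (IsLocalRing.residue P.A).toIntAlgHom (P.dA' x) = 0 := by
  intro x hx
  change IsLocalRing.residue P.A x = 0 at hx
  change IsLocalRing.residue P.A _ = 0
  rw [IsLocalRing.residue_eq_zero_iff, P.A.valuation_lt_one_iff] at hx ⊢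
  exact dm (P := P) hx

/-- the derivation on the residue field -/
noncomputable def dκ (P : Place 𝒦) : Derivation ℤ P.kap P.kap :=
  Derivation.liftOfSurjective (f := (IsLocalRing.residue P.A).toIntAlgHom)
    (IsLocalRing.residue_surjective) (d := P.dA') P.dA'_ker

theorem dκ_rs (hx : x ∈ P.A) : P.dκ (P.rs x) = P.rs (𝒦.d x) := by
  rw [rs_of hx, rs_of (dA hx)]
  exact Derivation.liftOfSurjective_apply (f := (IsLocalRing.residue P.A).toIntAlgHom)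
    (IsLocalRing.residue_surjective) (d := P.dA') P.dA'_ker ⟨x, hx⟩

/-- the embedding of the small field in the residue field -/
noncomputable def emb (P : Place 𝒦) : 𝒦.k0 →+* P.kap :=
  (IsLocalRing.residue P.A).comp
    (Subring.inclusion (S := 𝒦.k0.toSubring) (T := P.A.toSubring) (fun x hx => P.k0A x hx))

theorem emb_apply (x : 𝒦.k0) : P.emb x = P.rs x := by
  rw [rs_of (P.k0A _ x.2)]
  rfl

/-- the image of the small field -/
noncomputable def F0 (P : Place 𝒦) : Subfield P.kap := P.emb.fieldRange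

theorem rs_mem_F0 (hx : x ∈ 𝒦.k0) : P.rs x ∈ P.F0 := ⟨⟨x, hx⟩, emb_apply _⟩

theorem mem_F0 {u : P.kap} : u ∈ P.F0 ↔ ∃ x ∈ 𝒦.k0, P.rs x = u := by
  constructor
  · rintro ⟨x, rfl⟩
    exact ⟨x, x.2, (emb_apply _).symm⟩
  · rintro ⟨x, hx, rfl⟩
    exact rs_mem_F0 hx

theorem F0_d : ∀ u ∈ P.F0, P.dκ u ∈ P.F0 := by
  intro u hu
  obtain ⟨x, hx, rfl⟩ := mem_F0.mp hu
  rw [dκ_rs (P.k0A _ hx)]
  exact rs_mem_F0 (𝒦.dk0 _ hx)

theorem rs_inj (hx : x ∈ 𝒦.k0) (hy : y ∈ 𝒦.k0) (h : P.rs x = P.rs y) : x = y :=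
  k0_congr hx hy ((rs_congr (P.k0A _ hx) (P.k0A _ hy)).mp h)

instance : CharZero P.kap := by
  refine ⟨fun a b h => ?_⟩
  have h1 : ∀ n : ℕ, P.rs (n : K) = (n : P.kap) := by
    intro n
    induction n with
    | zero => simpa using rs_zero (P := P)
    | succ n ih =>
      push_cast
      rw [rs_add (P.k0A _ (natCast_mem _ _)) P.A.one_mem, ih, rs_one]
  rw [← h1, ← h1] at h
  have := rs_inj (P := P) (natCast_mem _ _) (natCast_mem _ _) h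
  exact_mod_cast this

end Place

end Pool.Agent.TH217.BC
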