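import Pool.Agent.TH217.BC3

/-!
Systems of two Riccati chains: the case of a large difference.
-/

set_option autoImplicit false
set_option linter.unusedSectionVars false

namespace Pool.Agent.TH217.BC

variable {K : Type*} [Field K] [CharZero K] {𝒦 : DF K}

/-- two Riccati chains with entire difference and quotients -/
structure Sys (𝒦 : DF K) (L M : ℕ → K) (N : ℕ) : Prop where
  L0 : ∀ n, n < N → L n ≠ 0
  M0 : ∀ n, n < N → M n ≠ 0
  dL : ∀ n, n < N → 𝒦.d (L n) = L n * (L (n + 1) - L n)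
  dM : ∀ n, n < N → 𝒦.d (M n) = M n * (M (n + 1) - M n)
  aE : ∀ n, n ≤ N → M n - L n ∈ 𝒦.Ent
  a0 : ∀ n, n ≤ N → M n - L n ≠ 0
  Bk : ∀ n, n < N → (M (n + 1) - L (n + 1)) - (M n - L n) ∈ 𝒦.k0
  eE : ∀ n, n < N → M n / L n ∈ 𝒦.Ent
  eE' : ∀ n, n < N → L n / M n ∈ 𝒦.Ent

/-- the differences -/
def BB (L M : ℕ → K) (n : ℕ) : K := (M (n + 1) - L (n + 1)) - (M n - L n)

/-- five equal differences -/
def Five (L M : ℕ → K) (m : ℕ) : Prop :=
  BB L M m = BB L M (m + 1) ∧ BB L M (m + 1) = BB L M (m + 2) ∧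
    BB L M (m + 2) = BB L M (m + 3) ∧ BB L M (m + 3) = BB L M (m + 4)

variable {L M : ℕ → K} {N : ℕ} {P : Place 𝒦}

open Place

namespace Sys

theorem swap (S : Sys 𝒦 L M N) : Sys 𝒦 M L N where
  L0 := S.M0
  M0 := S.L0
  dL := S.dM
  dM := S.dL
  aE n hn := by
    have := 𝒦.Ent.neg_mem (S.aE n hn)
    rwa [neg_sub] at this
  a0 n hn := by
    have := neg_ne_zero.mpr (S.a0 n hn)
    rwa [neg_sub] at this
  Bk n hn := by
    have := 𝒦.k0.neg_mem (S.Bk n hn)
    have e : -(M (n + 1) - L (n + 1) - (M n - L n)) = L (n + 1) - M (n + 1) - (L n - M n) := by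
      ring
    rwa [e] at this
  eE := S.eE'
  eE' := S.eE

theorem _root_.Pool.Agent.TH217.BC.Five.swap {m : ℕ} (h : Five L M m) : Five M L m := by
  obtain ⟨h1, h2, h3, h4⟩ := h
  unfold BB at *
  refine ⟨?_, ?_, ?_, ?_⟩
  · unfold BB; linear_combination -h1
  · unfold BB; linear_combination -h2
  · unfold BB; linear_combination -h3
  · unfold BB; linear_combination -h4

theorem mono (S : Sys 𝒦 L M N) {N' : ℕ} (h : N' ≤ N) : Sys 𝒦 L M N' where
  L0 n hn := S.L0 n (by omega)
  M0 n hn := S.M0 n (by omega)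
  dL n hn := S.dL n (by omega)
  dM n hn := S.dM n (by omega)
  aE n hn := S.aE n (by omega)
  a0 n hn := S.a0 n (by omega)
  Bk n hn := S.Bk n (by omega)
  eE n hn := S.eE n (by omega)
  eE' n hn := S.eE' n (by omega)

theorem shift {s N' : ℕ} (S : Sys 𝒦 L M N) (h : s + N' ≤ N) :
    Sys 𝒦 (fun n => L (s + n)) (fun n => M (s + n)) N' where
  L0 n hn := S.L0 (s + n) (by omega)
  M0 n hn := S.M0 (s + n) (by omega)
  dL n hn := S.dL (s + n) (by omega)
  dM n hn := S.dM (s + n) (by omega)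
  aE n hn := S.aE (s + n) (by omega)
  a0 n hn := S.a0 (s + n) (by omega)
  Bk n hn := S.Bk (s + n) (by omega)
  eE n hn := S.eE (s + n) (by omega)
  eE' n hn := S.eE' (s + n) (by omega)

variable (S : Sys 𝒦 L M N)
include S

theorem BE {n : ℕ} (hn : n < N) : BB L M n ∈ 𝒦.Ent :=
  𝒦.Ent.sub_mem (S.aE (n + 1) (by omega)) (S.aE n (by omega))

theorem Bk' {n : ℕ} (hn : n < N) : BB L M n ∈ 𝒦.k0 := S.Bk n hn

theorem Yeq {n : ℕ} (hn : n < N) : L (n + 1) - L n = 𝒦.d (L n) / L n := by
  have h := S.L0 n (by omega)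
  rw [S.dL n hn]
  field_simp

theorem Ymem (P : Place 𝒦) {n : ℕ} (hn : n < N) : L (n + 1) - L n ∈ P.A := by
  rw [S.Yeq hn]
  exact P.logd _ (S.L0 n (by omega))

theorem Lmem (h : L 0 ∈ P.A) {n : ℕ} (hn : n ≤ N) : L n ∈ P.A := by
  induction n with
  | zero => exact h
  | succ n ih =>
    have : L (n + 1) = L n + (L (n + 1) - L n) := by ring
    rw [this]
    exact P.A.add_mem _ _ (ih (by omega)) (S.Ymem P (by omega))

theorem Lnmem (h : L 0 ∉ P.A) {n : ℕ} (hn : n ≤ N) : L n ∉ P.A := by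
  induction n with
  | zero => exact h
  | succ n ih =>
    have : L (n + 1) = L n + (L (n + 1) - L n) := by ring
    rw [this]
    exact nmem_add (ih (by omega)) (S.Ymem P (by omega))

theorem Ystep {n : ℕ} (hn : n + 1 < N) :
    L (n + 1) * ((L (n + 2) - L (n + 1)) - (L (n + 1) - L n)) =
      𝒦.d (L (n + 1) - L n) - (L (n + 1) - L n) ^ 2 := by
  rw [map_sub, S.dL (n + 1) hn, S.dL n (by omega)]
  ring

theorem Ym (h : L 0 ∉ P.A) {n : ℕ} (hn : n + 1 < N) :
    P.m ((L (n + 2) - L (n + 1)) - (L (n + 1) - L n)) := by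
  have h1 := S.Ystep hn
  have h2 := S.L0 (n + 1) (by omega)
  have h3 : (L (n + 2) - L (n + 1)) - (L (n + 1) - L n) =
      (𝒦.d (L (n + 1) - L n) - (L (n + 1) - L n) ^ 2) / L (n + 1) := by
    rw [← h1]; field_simp
  rw [h3]
  have hY := S.Ymem P (n := n) (by omega)
  exact m_div (sub_mem (dA hY) (pow_mem hY 2)) (S.Lnmem h (by omega))

/-- both large: all differences are equal -/
theorem caseB0 (hL : L 0 ∉ P.A) (hM : M 0 ∉ P.A) {n : ℕ} (hn : n + 1 < N) :
    BB L M n = BB L M (n + 1) := by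
  apply k0_congr (P := P) (S.Bk' (by omega)) (S.Bk' (by omega))
  have h1 := S.Ym hL hn
  have h2 := S.swap.Ym hM hn
  have := m_sub h1 h2
  unfold BB
  convert this using 1
  ring

/-- the residue chain -/
theorem chain (hL : L 0 ∈ P.A) (hM : M 0 ∉ P.A) {N' : ℕ} (hN : N' + 2 ≤ N) :
    Chain P.dκ (fun n => P.rs (L n)) (fun n => P.rs (L (n + 1) - L n))
      (fun n => P.rs (BB L M n - BB L M (n + 1))) N' where
  h1 n hn := by
    have a1 := S.Lmem hL (n := n) (by omega)
    have a2 := S.Lmem hL (n := n + 1) (by omega)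
    change P.rs (L (n + 1)) = P.rs (L n) + P.rs (L (n + 1) - L n)
    rw [← rs_add a1 (sub_mem a2 a1)]
    congr 1
    ring
  h2 n hn := by
    have a1 := S.Ymem P (n := n) (by omega)
    have a2 : BB L M n - BB L M (n + 1) ∈ P.A :=
      sub_mem (P.k0A _ (S.Bk' (by omega))) (P.k0A _ (S.Bk' (by omega)))
    change P.rs (L (n + 2) - L (n + 1)) = P.rs (L (n + 1) - L n) + _
    rw [← rs_add a1 a2]
    apply rs_eq_of (P.A.add_mem _ _ a1 a2)
    have := S.swap.Ym hM (n := n) (by omega)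
    convert this using 1
    unfold BB
    ring
  h3 n hn := by
    have a1 := S.Lmem hL (n := n) (by omega)
    change P.dκ (P.rs (L n)) = P.rs (L n) * P.rs (L (n + 1) - L n)
    rw [dκ_rs a1, ← rs_mul a1 (S.Ymem P (by omega)), S.dL n (by omega)]

theorem lift_four {m : ℕ} (hm : m + 4 < N)
    (h0 : P.rs (BB L M m - BB L M (m + 1)) = 0)
    (h1 : P.rs (BB L M (m + 1) - BB L M (m + 2)) = 0)
    (h2 : P.rs (BB L M (m + 2) - BB L M (m + 3)) = 0)
    (h3 : P.rs (BB L M (m + 3) - BB L M (m + 4)) = 0) : Five L M m := by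
  have key : ∀ i j, i < N → j < N → P.rs (BB L M i - BB L M j) = 0 → BB L M i = BB L M j := by
    intro i j hi hj h
    apply k0_congr (P := P) (S.Bk' hi) (S.Bk' hj)
    rwa [rs_zero_iff] at h
    exact sub_mem (P.k0A _ (S.Bk' hi)) (P.k0A _ (S.Bk' hj))
  exact ⟨key _ _ (by omega) (by omega) h0, key _ _ (by omega) (by omega) h1,
    key _ _ (by omega) (by omega) h2, key _ _ (by omega) (by omega) h3⟩

theorem lift_Z {n : ℕ} (hn : n + 1 < N) {w e : P.kap} (hw : w ∈ P.F0) (he : e ∈ P.F0)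
    (he0 : e ≠ 0) (hde : P.dκ e = 0) (hdw : 2 * P.dκ w = e)
    (h : P.rs (BB L M n - BB L M (n + 1)) * (w * (w + 1) * (w + 2)) = e) : False := by
  obtain ⟨w', hw', rfl⟩ := mem_F0.mp hw
  obtain ⟨e', he', rfl⟩ := mem_F0.mp he
  have aw := P.k0A _ hw'
  have ae := P.k0A _ he'
  have two_k : (2 : K) ∈ 𝒦.k0 := two_mem _
  have two_A := P.k0A _ two_k
  have rs2 : P.rs (2 : K) = 2 := by
    have : (2 : K) = 1 + 1 := by norm_num
    rw [this, rs_add P.A.one_mem P.A.one_mem, rs_one]
    norm_num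
  have hD : BB L M n - BB L M (n + 1) ∈ 𝒦.k0 :=
    𝒦.k0.sub_mem (S.Bk' (by omega)) (S.Bk' (by omega))
  have h0 : e' ≠ 0 := by
    rintro rfl
    exact he0 rs_zero
  have h1 : 𝒦.d e' = 0 := by
    rw [dκ_rs ae, ← rs_zero (P := P)] at hde
    exact rs_inj (𝒦.dk0 _ he') 𝒦.k0.zero_mem hde
  have h2 : 2 * 𝒦.d w' = e' := by
    rw [dκ_rs aw, ← rs2, ← rs_mul two_A (dA aw)] at hdw
    exact rs_inj (𝒦.k0.mul_mem two_k (𝒦.dk0 _ hw')) he' hdw
  have h3 : (BB L M n - BB L M (n + 1)) * (w' * (w' + 1) * (w' + 2)) = e' := by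
    have q1 : w' + 1 ∈ 𝒦.k0 := 𝒦.k0.add_mem hw' 𝒦.k0.one_mem
    have q2 : w' + 2 ∈ 𝒦.k0 := 𝒦.k0.add_mem hw' two_k
    rw [← rs2, ← rs_one (P := P), ← rs_add aw P.A.one_mem, ← rs_add aw two_A,
      ← rs_mul aw (P.k0A _ q1), ← rs_mul (P.k0A _ (𝒦.k0.mul_mem hw' q1)) (P.k0A _ q2),
      ← rs_mul (P.k0A _ hD) (P.k0A _ (𝒦.k0.mul_mem (𝒦.k0.mul_mem hw' q1) q2))] at h
    exact rs_inj (𝒦.k0.mul_mem hD (𝒦.k0.mul_mem (𝒦.k0.mul_mem hw' q1) q2)) he' h
  exact 𝒦.fZ (𝒦.Ent.sub_mem (S.BE (by omega)) (S.BE (by omega))) h0 h1 h2 h3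

/-- a window with nonzero small parts -/
theorem windowCase (hN : 16 ≤ N) (hL : L 0 ∈ P.A) (hM : M 0 ∉ P.A) {lam : ℕ → K} {ξ : K}
    (hlam : ∀ n, n ≤ 14 → lam n ∈ 𝒦.k0) (hlam0 : ∀ n, n ≤ 13 → lam n ≠ 0)
    (hLl : ∀ n, n ≤ 14 → P.m (L n - lam n)) (hξ : ξ ∈ 𝒦.k0)
    (hX : ∀ n, n ≤ 13 → P.m (M (n + 1) - M n - ξ))
    (hl1 : ∀ n, n ≤ 13 → lam (n + 1) = lam n + (ξ - BB L M n))
    (hl2 : ∀ n, n ≤ 13 → 𝒦.d (lam n) = lam n * (ξ - BB L M n)) :
    ∃ m, m ≤ 8 ∧ Five L M m := by
  set e : ℕ → K := fun n => M n / L n with he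
  have e0 : ∀ n, n ≤ 14 → e n ≠ 0 := fun n hn =>
    div_ne_zero (S.M0 n (by omega)) (S.L0 n (by omega))
  have de : ∀ n, n ≤ 14 → 𝒦.d (e n) = e n * BB L M n := by
    intro n hn
    have h1 := S.L0 n (by omega)
    simp only [he]
    rw [𝒦.ddiv _ h1, S.dM n (by omega), S.dL n (by omega)]
    unfold BB
    field_simp
    ring
  have Lnm : ∀ n, n ≤ 13 → ¬ P.m (L n) := by
    intro n hn h
    have h1 := m_sub h (hLl n (by omega))
    rw [sub_sub_cancel] at h1
    exact hlam0 n hn (m_k0 (hlam n (by omega)) h1)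
  have ratio : ∀ n, n ≤ 12 → e (n + 1) / e n = lam n / lam (n + 1) := by
    intro n hn
    have hl := hlam0 n (by omega)
    have hl' := hlam0 (n + 1) (by omega)
    have a0 := e0 n (by omega)
    have a1 := e0 (n + 1) (by omega)
    have b0 := S.M0 n (by omega)
    have b1 := S.L0 n (by omega)
    have b2 := S.L0 (n + 1) (by omega)
    apply unit_eq (P := P)
    · have : 𝒦.d (e (n + 1) / e n) / (e (n + 1) / e n) = BB L M (n + 1) - BB L M n := by
        rw [𝒦.ddiv _ a0, de n (by omega), de (n + 1) (by omega)]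
        field_simp
      rw [this]
      exact 𝒦.k0.sub_mem (S.Bk' (by omega)) (S.Bk' (by omega))
    · exact div_ne_zero a1 a0
    · exact 𝒦.k0.div_mem (hlam _ (by omega)) (hlam _ (by omega))
    · exact div_ne_zero hl hl'
    · have h1 : e (n + 1) / e n - lam n / lam (n + 1) =
          ((M (n + 1) - M n) / M n) * (L n / L (n + 1)) +
          ((L n - lam n) * lam (n + 1) - lam n * (L (n + 1) - lam (n + 1))) /
            L (n + 1) / lam (n + 1) := by
        simp only [he]
        field_simp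
        ring
      rw [h1]
      apply m_add
      · apply m_mul'
        · exact m_div (S.swap.Ymem P (by omega)) (S.swap.Lnmem hM (by omega))
        · exact div_mem_of_not_m (S.Lmem hL (by omega)) (Lnm _ (by omega))
      · apply m_div'
        · apply m_div' _ (Lnm _ (by omega))
          exact m_sub (m_mul' (hLl _ (by omega)) (P.k0A _ (hlam _ (by omega))))
            (m_mul (P.k0A _ (hlam _ (by omega))) (hLl _ (by omega)))
        · exact not_m_k0 (hlam _ (by omega)) hl'
  set Ω : K := e 0 * lam 0 with hΩ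
  have Ωn : ∀ n, n ≤ 13 → e n * lam n = Ω := by
    intro n
    induction n with
    | zero => intro _; rfl
    | succ n ih =>
      intro hn
      rw [← ih (by omega)]
      have h1 := ratio n (by omega)
      rw [div_eq_div_iff (e0 n (by omega)) (hlam0 (n + 1) (by omega))] at h1
      linear_combination h1
  have Ω0 : Ω ≠ 0 := mul_ne_zero (e0 0 (by omega)) (hlam0 0 (by omega))
  have dΩ : 𝒦.d Ω = Ω * ξ := by
    rw [hΩ, 𝒦.dmul, de 0 (by omega), hl2 0 (by omega)]
    ring
  have LM : ∀ n, n ≤ 13 → lam n * M n = Ω * L n := by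
    intro n hn
    have b1 := S.L0 n (by omega)
    rw [← Ωn n hn]
    simp only [he]
    field_simp
  have ξ0 : ξ ≠ 0 := by
    intro h
    rw [h, mul_zero] at dΩ
    have h1 := P.k0A _ (𝒦.const0 _ dΩ)
    apply hM
    have h2 := hlam0 0 (by omega)
    have h3 : M 0 = Ω * L 0 / lam 0 := by
      rw [← LM 0 (by omega)]
      field_simp
    rw [h3]
    exact div_mem_of_not_m (P.A.mul_mem _ _ h1 hL) (not_m_k0 (hlam 0 (by omega)) h2)
  set T : ℕ → K := fun n => M n - Ω with hT
  have rel : ∀ n, n ≤ 12 → lam (n + 1) * T (n + 1) - lam n * T n =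
      𝒦.d (T n) - T n * (M (n + 1) - M n) := by
    intro n hn
    simp only [hT]
    rw [map_sub, dΩ, S.dM n (by omega)]
    have h1 := LM n (by omega)
    have h2 := LM (n + 1) (by omega)
    have h3 := hl1 n (by omega)
    unfold BB at h3
    linear_combination h2 - h1 - Ω * h3
  by_cases hT0 : T 0 ∈ P.A
  · -- bounded
    have TA : ∀ n, n ≤ 13 → T n ∈ P.A := by
      intro n
      induction n with
      | zero => intro _; exact hT0
      | succ n ih =>
        intro hn
        have : T (n + 1) = T n + (M (n + 1) - M n) := by simp only [hT]; ring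
        rw [this]
        exact P.A.add_mem _ _ (ih (by omega)) (S.swap.Ymem P (by omega))
    have C := S.chain hL hM (N' := 13) (by omega)
    have hXr : ∀ n, n ≤ 13 → P.rs (M (n + 1) - M n) = P.rs ξ := fun n hn =>
      rs_eq_of (P.k0A _ hξ) (hX n hn)
    have hLr : ∀ n, n ≤ 14 → P.rs (L n) = P.rs (lam n) := fun n hn =>
      rs_eq_of (P.k0A _ (hlam n hn)) (hLl n hn)
    have W := window (d := P.dκ) (l := fun n => P.rs (L n)) (y := fun n => P.rs (L (n + 1) - L n))
      (D := fun n => P.rs (BB L M n - BB L M (n + 1))) (t := fun n => P.rs (T n)) (x := P.rs ξ)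
      (F0 := P.F0) (fun n hn => C.h1 n (by omega)) (fun n hn => C.h2 n (by omega))
      (fun n hn => C.h3 n (by omega)) ?_ ?_ ?_ (rs_mem_F0 hξ) ?_ F0_d
    · rcases W with ⟨m, hm, z0, z1, z2, z3⟩ | ⟨n, w, e', hn, hw, he', h0, h1, h2, h3⟩
      · exact ⟨m, hm, S.lift_four (by omega) z0 z1 z2 z3⟩
      · exact (S.lift_Z (by omega) hw he' h0 h1 h2 h3).elim
    · intro n hn
      change P.rs (T (n + 1)) = P.rs (T n) + P.rs ξ
      rw [← hXr n (by omega), ← rs_add (TA n (by omega)) (S.swap.Ymem P (by omega))]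
      congr 1
      simp only [hT]
      ring
    · intro n hn
      change P.rs (L (n + 1)) * P.rs (T (n + 1)) - P.rs (L n) * P.rs (T n) =
        P.dκ (P.rs (T n)) - P.rs (T n) * P.rs ξ
      have t0 := TA n (by omega)
      have t1 := TA (n + 1) (by omega)
      have l0 := P.k0A _ (hlam n (by omega))
      have l1 := P.k0A _ (hlam (n + 1) (by omega))
      have x0 := S.swap.Ymem P (n := n) (by omega)
      rw [hLr n (by omega), hLr (n + 1) (by omega), ← hXr n (by omega), dκ_rs t0,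
        ← rs_mul l1 t1, ← rs_mul l0 t0, ← rs_mul t0 x0,
        ← rs_sub (P.A.mul_mem _ _ l1 t1) (P.A.mul_mem _ _ l0 t0),
        ← rs_sub (dA t0) (P.A.mul_mem _ _ t0 x0), rel n hn]
    · intro n hn
      change P.rs (L (n + 1) - L n) ∈ P.F0
      have : P.rs (L (n + 1) - L n) = P.rs (lam (n + 1) - lam n) := by
        rw [rs_sub (S.Lmem hL (by omega)) (S.Lmem hL (by omega)), hLr n (by omega),
          hLr (n + 1) (by omega), ← rs_sub (P.k0A _ (hlam _ (by omega)))
          (P.k0A _ (hlam _ (by omega)))]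
      rw [this]
      exact rs_mem_F0 (𝒦.k0.sub_mem (hlam _ (by omega)) (hlam _ (by omega)))
    · intro h
      apply ξ0
      rw [rs_zero_iff (P.k0A _ hξ)] at h
      exact m_k0 hξ h
  · -- unbounded: all differences equal
    have TnA : ∀ n, n ≤ 13 → T n ∉ P.A := by
      intro n
      induction n with
      | zero => intro _; exact hT0
      | succ n ih =>
        intro hn
        have : T (n + 1) = T n + (M (n + 1) - M n) := by simp only [hT]; ring
        rw [this]
        exact nmem_add (ih (by omega)) (S.swap.Ymem P (by omega))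
    have key : ∀ n, n ≤ 12 → P.m (𝒦.d (T n) / T n - (2 * ξ - BB L M n)) := by
      intro n hn
      have T0 := ne_zero_of_nmem (TnA n (by omega))
      have h1 : 𝒦.d (T n) / T n - (2 * ξ - BB L M n) =
          (M (n + 1) - M n - ξ) + lam (n + 1) * ((M (n + 1) - M n) / T n) := by
        have h2 := rel n hn
        have h3 := hl1 n (by omega)
        have h4 : T (n + 1) = T n + (M (n + 1) - M n) := by simp only [hT]; ring
        rw [h4] at h2
        field_simp
        linear_combination -h2 + T n * h3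
      rw [h1]
      exact m_add (hX n (by omega)) (m_mul (P.k0A _ (hlam _ (by omega)))
        (m_div (S.swap.Ymem P (by omega)) (TnA n (by omega))))
    have key2 : ∀ n, n ≤ 11 → P.m (𝒦.d (T (n + 1)) / T (n + 1) - 𝒦.d (T n) / T n) := by
      intro n hn
      have T0 := ne_zero_of_nmem (TnA n (by omega))
      have T1 := ne_zero_of_nmem (TnA (n + 1) (by omega))
      have h0 : T (n + 1) / T n - 1 = (M (n + 1) - M n) / T n := by
        simp only [hT] at T0 ⊢
        field_simp
        ring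
      have h1 : P.m (T (n + 1) / T n - 1) := by
        rw [h0]
        exact m_div (S.swap.Ymem P (by omega)) (TnA n (by omega))
      have h2 := dm h1
      rw [map_sub, 𝒦.done, sub_zero] at h2
      have h3 : ¬ P.m (T (n + 1) / T n) := by
        intro h4
        apply not_m_one (P := P)
        have := m_sub h4 h1
        rwa [sub_sub_cancel] at this
      have h4 := m_div' h2 h3
      convert h4 using 1
      rw [𝒦.ddiv _ T0]
      field_simp
    have key3 : ∀ n, n ≤ 11 → BB L M n = BB L M (n + 1) := by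
      intro n hn
      apply k0_congr (P := P) (S.Bk' (by omega)) (S.Bk' (by omega))
      have h1 := m_sub (key n (by omega)) (key (n + 1) (by omega))
      have h2 := m_add h1 (key2 n hn)
      convert h2 using 1
      ring
    exact ⟨0, by omega, key3 0 (by omega), key3 1 (by omega), key3 2 (by omega),
      key3 3 (by omega)⟩

end Sys

end Pool.Agent.TH217.BC
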