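import Pool.Agent.TH217.BC4

/-!
Systems of two Riccati chains: the case of a large difference, conclusion.
-/

set_option autoImplicit false
set_option linter.unusedSectionVars false

namespace Pool.Agent.TH217.BC

variable {K : Type*} [Field K] [CharZero K] {𝒦 : DF K}
variable {L M : ℕ → K} {N : ℕ} {P : Place 𝒦}

open Place

namespace Sys

variable (S : Sys 𝒦 L M N)
include S

theorem shiftWindow (s : ℕ) (hN : s + 16 ≤ N) (hL : L 0 ∈ P.A) (hM : M 0 ∉ P.A) {lam : ℕ → K}
    {ξ : K}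
    (hlam : ∀ n, n ≤ s + 14 → lam n ∈ 𝒦.k0) (hlam0 : ∀ n, s ≤ n → n ≤ s + 13 → lam n ≠ 0)
    (hLl : ∀ n, n ≤ s + 14 → P.m (L n - lam n)) (hξ : ξ ∈ 𝒦.k0)
    (hX : ∀ n, n ≤ s + 13 → P.m (M (n + 1) - M n - ξ))
    (hl1 : ∀ n, n ≤ s + 13 → lam (n + 1) = lam n + (ξ - BB L M n))
    (hl2 : ∀ n, n ≤ s + 13 → 𝒦.d (lam n) = lam n * (ξ - BB L M n)) :
    ∃ m, m ≤ s + 8 ∧ Five L M m := by
  have S' := S.shift (s := s) (N' := 16) (by omega)
  have hL' : L (s + 0) ∈ P.A := S.Lmem hL (by omega)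
  have hM' : M (s + 0) ∉ P.A := S.swap.Lnmem hM (by omega)
  obtain ⟨m, hm, h⟩ := S'.windowCase (P := P) (lam := fun n => lam (s + n)) (ξ := ξ)
    (by omega) hL' hM'
    (fun n hn => hlam (s + n) (by omega)) (fun n hn => hlam0 (s + n) (by omega) (by omega))
    (fun n hn => hLl (s + n) (by omega)) hξ (fun n hn => hX (s + n) (by omega))
    (fun n hn => hl1 (s + n) (by omega)) (fun n hn => hl2 (s + n) (by omega))
  exact ⟨s + m, by omega, h⟩

theorem caseB1 (hN : 40 ≤ N) (hL : L 0 ∈ P.A) (hM : M 0 ∉ P.A) :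
    ∃ m, m ≤ 30 ∧ Five L M m := by
  have C := S.chain hL hM (N' := 36) (by omega)
  by_cases h3 : P.rs (L 0) ∈ P.F0 ∧ P.rs (L (0 + 1) - L 0) ∈ P.F0
  swap
  · rcases C.trichotomy (F0 := P.F0) (by omega) (fun n hn => rs_mem_F0 (𝒦.k0.sub_mem
      (S.Bk' (by omega)) (S.Bk' (by omega)))) F0_d h3 with
      ⟨m, hm, z0, z1, z2, z3⟩ | ⟨n, w, e', hn, hw, he', h0, h1, h2, h3⟩
    · exact ⟨m, by omega, S.lift_four (by omega) z0 z1 z2 z3⟩
    · exact (S.lift_Z (by omega) hw he' h0 h1 h2 h3).elim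
  -- everything is small in the residue field
  have hD : ∀ n, n ≤ 36 → P.rs (BB L M n - BB L M (n + 1)) ∈ P.F0 := fun n hn =>
    rs_mem_F0 (𝒦.k0.sub_mem (S.Bk' (by omega)) (S.Bk' (by omega)))
  have hy : ∀ n, n ≤ 37 → P.rs (L (n + 1) - L n) ∈ P.F0 := by
    intro n
    induction n with
    | zero => intro _; exact h3.2
    | succ n ih =>
      intro hn
      have := C.h2 n (by omega)
      change P.rs (L (n + 1 + 1) - L (n + 1)) = P.rs (L (n + 1) - L n) + _ at this
      rw [this]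
      exact P.F0.add_mem (ih (by omega)) (hD n (by omega))
  have hl : ∀ n, n ≤ 37 → P.rs (L n) ∈ P.F0 := by
    intro n
    induction n with
    | zero => intro _; exact h3.1
    | succ n ih =>
      intro hn
      have := C.h1 n (by omega)
      change P.rs (L (n + 1)) = P.rs (L n) + P.rs (L (n + 1) - L n) at this
      rw [this]
      exact P.F0.add_mem (ih (by omega)) (hy n (by omega))
  have hex : ∀ n, ∃ x, n ≤ 37 → x ∈ 𝒦.k0 ∧ P.rs x = P.rs (L n) := by
    intro n
    by_cases hn : n ≤ 37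
    · obtain ⟨x, hx, h⟩ := mem_F0.mp (hl n hn)
      exact ⟨x, fun _ => ⟨hx, h⟩⟩
    · exact ⟨0, fun h => absurd h hn⟩
  choose lam hlam using hex
  have X0 : P.rs (M 1 - M 0) ∈ P.F0 := by
    have : M 1 - M 0 = (L (0 + 1) - L 0) + BB L M 0 := by
      unfold BB; ring
    rw [this, rs_add (S.Ymem P (by omega)) (P.k0A _ (S.Bk' (by omega)))]
    exact P.F0.add_mem h3.2 (rs_mem_F0 (S.Bk' (by omega)))
  obtain ⟨ξ, hξ, hξ'⟩ := mem_F0.mp X0
  have hX : ∀ n, n ≤ 37 → P.m (M (n + 1) - M n - ξ) := by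
    intro n
    induction n with
    | zero =>
      intro _
      rw [← rs_congr (S.swap.Ymem P (by omega)) (P.k0A _ hξ)]
      exact hξ'.symm
    | succ n ih =>
      intro hn
      have h1 := ih (by omega)
      have h2 := S.swap.Ym hM (n := n) (by omega)
      have := m_add h1 h2
      convert this using 1
      ring
  have hLl : ∀ n, n ≤ 37 → P.m (L n - lam n) := by
    intro n hn
    have h1 := hlam n hn
    rw [← rs_congr (S.Lmem hL (by omega)) (P.k0A _ h1.1)]
    exact h1.2.symm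
  have hl1 : ∀ n, n ≤ 36 → lam (n + 1) = lam n + (ξ - BB L M n) := by
    intro n hn
    have a0 := (hlam n (by omega)).1
    have a1 := (hlam (n + 1) (by omega)).1
    have b := S.Bk' (n := n) (by omega)
    apply k0_congr (P := P) a1 (𝒦.k0.add_mem a0 (𝒦.k0.sub_mem hξ b))
    have c0 := hLl n (by omega)
    have c1 := hLl (n + 1) (by omega)
    have c2 := hX n (by omega)
    have := m_add (m_sub c0 c1) c2
    convert this using 1
    unfold BB
    ring
  have hl2 : ∀ n, n ≤ 36 → 𝒦.d (lam n) = lam n * (ξ - BB L M n) := by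
    intro n hn
    have a0 := (hlam n (by omega)).1
    have b := S.Bk' (n := n) (by omega)
    apply k0_congr (P := P) (𝒦.dk0 _ a0) (𝒦.k0.mul_mem a0 (𝒦.k0.sub_mem hξ b))
    have c0 := hLl n (by omega)
    have c3 := dm c0
    rw [map_sub, S.dL n (by omega)] at c3
    have c1 := hLl (n + 1) (by omega)
    have c4 : P.m (L n * (L (n + 1) - L n) - lam n * (L (n + 1) - L n)) := by
      have := m_mul' c0 (S.Ymem P (n := n) (by omega))
      convert this using 1
      ring
    have c5 : P.m (lam n * (L (n + 1) - L n) - lam n * (ξ - BB L M n)) := by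
      have := m_mul (P.k0A _ a0) (hX n (by omega))
      convert this using 1
      unfold BB
      ring
    have := m_sub (m_add c4 c5) c3
    convert this using 1
    ring
  by_cases hz : ∀ n, n ≤ 5 → lam n = 0
  · have key : ∀ n, n ≤ 4 → BB L M n = ξ := by
      intro n hn
      have h1 := hl1 n (by omega)
      rw [hz n (by omega), hz (n + 1) (by omega)] at h1
      linear_combination h1
    refine ⟨0, by omega, ?_, ?_, ?_, ?_⟩
    · rw [key 0 (by omega), key (0 + 1) (by omega)]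
    · rw [key (0 + 1) (by omega), key (0 + 2) (by omega)]
    · rw [key (0 + 2) (by omega), key (0 + 3) (by omega)]
    · rw [key (0 + 3) (by omega), key (0 + 4) (by omega)]
  push Not at hz
  obtain ⟨n0, hn0, hn0'⟩ := hz
  by_cases hall : ∀ n, n0 ≤ n → n ≤ n0 + 13 → lam n ≠ 0
  · obtain ⟨m, hm, h⟩ := S.shiftWindow (P := P) n0 (by omega) hL hM
      (fun n hn => (hlam n (by omega)).1) hall (fun n hn => hLl n (by omega)) hξ
      (fun n hn => hX n (by omega)) (fun n hn => hl1 n (by omega))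
      (fun n hn => hl2 n (by omega))
    exact ⟨m, by omega, h⟩
  push Not at hall
  classical
  have hex2 : ∃ n, n0 ≤ n ∧ n ≤ n0 + 13 ∧ lam n = 0 := hall
  obtain ⟨hp1, hp2, hp3⟩ := Nat.find_spec hex2
  have hmin : ∀ m, m < Nat.find hex2 → ¬ (n0 ≤ m ∧ m ≤ n0 + 13 ∧ lam m = 0) :=
    fun m hm => Nat.find_min hex2 hm
  generalize Nat.find hex2 = p at hp1 hp2 hp3 hmin
  have hpn : p ≠ n0 := by
    intro h
    rw [h] at hp3
    exact hn0' hp3
  obtain ⟨q, rfl⟩ : ∃ q, p = q + 1 := ⟨p - 1, by omega⟩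
  have hu : lam q ≠ 0 := by
    intro h
    exact hmin q (by omega) ⟨by omega, by omega, h⟩
  have e1 := hl1 q (by omega)
  have e2 := hl2 q (by omega)
  rw [hp3] at e1
  have e3 : 𝒦.d (lam q) = - lam q ^ 2 := by
    rw [e2]
    linear_combination (- lam q) * e1
  have later : ∀ j, q + 1 + j ≤ 37 → lam (q + 1 + j) + (j : K) * lam q ∈ 𝒦.Ent := by
    intro j
    induction j with
    | zero =>
      intro _
      rw [Nat.add_zero, hp3]
      simp
    | succ j ih =>
      intro hj
      have h1 := ih (by omega)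
      have h2 := hl1 (q + 1 + j) (by omega)
      have h3 : lam (q + 1 + (j + 1)) + ((j + 1 : ℕ) : K) * lam q =
          (lam (q + 1 + j) + (j : K) * lam q) + (BB L M q - BB L M (q + 1 + j)) := by
        have h4 : lam (q + 1 + (j + 1)) = lam (q + 1 + j + 1) := rfl
        rw [h4, h2]
        push_cast
        linear_combination -e1
      rw [h3]
      exact 𝒦.Ent.add_mem h1 (𝒦.Ent.sub_mem (S.BE (by omega)) (S.BE (by omega)))
  have later0 : ∀ n, q + 2 ≤ n → n ≤ q + 2 + 13 → lam n ≠ 0 := by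
    intro n hn1 hn2 h0
    obtain ⟨j, rfl⟩ : ∃ j, n = q + 1 + j := ⟨n - (q + 1), by omega⟩
    have h1 := later j (by omega)
    rw [h0, zero_add] at h1
    exact 𝒦.f4 hu e3 (by omega) h1
  obtain ⟨m, hm, h⟩ := S.shiftWindow (P := P) (q + 2) (by omega) hL hM
    (fun n hn => (hlam n (by omega)).1) later0 (fun n hn => hLl n (by omega)) hξ
    (fun n hn => hX n (by omega)) (fun n hn => hl1 n (by omega))
    (fun n hn => hl2 n (by omega))
  exact ⟨m, by omega, h⟩

/-- a large difference forces five equal consecutive differences -/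
theorem caseB (hN : 40 ≤ N) (P : Place 𝒦) (ha : M 0 - L 0 ∉ P.A) :
    ∃ m, m ≤ 30 ∧ Five L M m := by
  by_cases hL : L 0 ∈ P.A
  · have hM : M 0 ∉ P.A := fun hM => ha (sub_mem hM hL)
    exact S.caseB1 hN hL hM
  · by_cases hM : M 0 ∈ P.A
    · obtain ⟨m, hm, h⟩ := S.swap.caseB1 (P := P) hN hM hL
      exact ⟨m, hm, h.swap⟩
    · exact ⟨0, by omega, S.caseB0 hL hM (by omega), S.caseB0 hL hM (by omega),
        S.caseB0 hL hM (by omega), S.caseB0 hL hM (by omega)⟩

end Sys

end Pool.Agent.TH217.BC
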