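import Pool.Agent.TH217.BC5

/-!
Five equal differences.
-/

set_option autoImplicit false
set_option linter.unusedSectionVars false

namespace Pool.Agent.TH217.BC

variable {K : Type*} [Field K] [CharZero K] {𝒦 : DF K}
variable {L M : ℕ → K} {N : ℕ}

open Place

namespace DF

/-- algebraic lemma: equal quotients -/
theorem gam (𝒦 : DF K) {E b : K} (hE0 : E ≠ 0) (hEi : E⁻¹ ∈ 𝒦.Ent)
    (hE1 : E ≠ 1) (hdE : 𝒦.d E = E * b) (hb0 : b ≠ 0)
    (hY : 𝒦.d (b / (E - 1)) = (b / (E - 1)) ^ 2) : False := by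
  have hE1' : E - 1 ≠ 0 := sub_ne_zero.mpr hE1
  set Y := b / (E - 1) with hYd
  have hY0 : Y ≠ 0 := div_ne_zero hb0 hE1'
  have hb : b = Y * (E - 1) := by rw [hYd]; field_simp
  -- the constant
  have hc : 𝒦.d (-(E⁻¹ - 1) / Y) = 0 := by
    rw [𝒦.ddiv _ hY0, map_neg, map_sub, 𝒦.done, 𝒦.dinv hE0, hdE, hY, hb]
    field_simp
    ring
  by_cases h0 : -(E⁻¹ - 1) / Y = 0
  · have h1 : -(E⁻¹ - 1) = 0 := (div_eq_zero_iff.mp h0).resolve_right hY0
    apply hE1
    have h2 : E⁻¹ = 1 := by linear_combination -h1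
    exact inv_eq_one.mp h2
  · apply hY0
    have h1 : Y ∈ 𝒦.Ent := by
      have h2 : Y = (-(E⁻¹ - 1)) * (-(E⁻¹ - 1) / Y)⁻¹ := by
        rw [inv_div]
        have h3 : -(E⁻¹ - 1) ≠ 0 := by
          intro h; apply h0; rw [h, zero_div]
        field_simp
      rw [h2]
      refine 𝒦.Ent.mul_mem (𝒦.Ent.neg_mem (𝒦.Ent.sub_mem hEi 𝒦.Ent.one_mem)) (𝒦.constE _ ?_)
      rw [𝒦.dinv h0, hc]
      simp
    exact 𝒦.f1 (r := 1) h1 𝒦.done one_ne_zero (by rw [hY, one_mul])

end DF

namespace Sys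

variable (S : Sys 𝒦 L M N)
include S

/-- the log derivative of the quotient -/
theorem de {n : ℕ} (hn : n < N) : 𝒦.d (M n / L n) = M n / L n * BB L M n := by
  have h1 := S.L0 n (by omega)
  rw [𝒦.ddiv _ h1, S.dM n (by omega), S.dL n (by omega)]
  unfold BB
  field_simp
  ring

theorem e1 {n : ℕ} (hn : n < N) : M n / L n ≠ 1 := by
  intro h
  have h1 := S.L0 n hn
  rw [div_eq_one_iff_eq h1] at h
  exact S.a0 n (by omega) (by rw [h, sub_self])

theorem e0 {n : ℕ} (hn : n < N) : M n / L n ≠ 0 := div_ne_zero (S.M0 n hn) (S.L0 n hn)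

theorem Leq {n : ℕ} (hn : n < N) : L n = (M n - L n) / (M n / L n - 1) := by
  have h1 := S.L0 n hn
  have h2 : M n / L n - 1 ≠ 0 := sub_ne_zero.mpr (S.e1 hn)
  rw [eq_div_iff h2]
  field_simp

/-- three equal quotients -/
theorem gamma3 (hN : 3 ≤ N) (hb : BB L M 0 ≠ 0) (hB : BB L M 0 = BB L M 1)
    (h01 : M 0 / L 0 = M 1 / L 1) (h12 : M 1 / L 1 = M 2 / L 2) : False := by
  set E := M 0 / L 0 with hE
  set b := BB L M 0 with hbd
  have hE1 : E ≠ 1 := S.e1 (by omega)
  have hE1' : E - 1 ≠ 0 := sub_ne_zero.mpr hE1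
  have l0 := S.Leq (n := 0) (by omega)
  have l1 := S.Leq (n := 1) (by omega)
  have l2 := S.Leq (n := 2) (by omega)
  rw [← hE] at l0
  rw [← h01] at l1
  rw [← h12, ← h01] at l2
  have y0 : L 1 - L 0 = b / (E - 1) := by
    rw [l1, l0, ← sub_div]
    rfl
  have y1 : L 2 - L 1 = b / (E - 1) := by
    rw [l2, l1, ← sub_div, hB]
    rfl
  have st := S.Ystep (n := 0) (by omega)
  change L 1 * ((L 2 - L 1) - (L 1 - L 0)) = 𝒦.d (L 1 - L 0) - (L 1 - L 0) ^ 2 at st
  rw [y0, y1, sub_self, mul_zero] at st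
  refine 𝒦.gam (S.e0 (n := 0) (by omega)) ?_ hE1 (S.de (n := 0) (by omega)) hb ?_
  · rw [inv_div]
    exact S.eE' 0 (by omega)
  · rw [← sub_eq_zero]
    exact st.symm

/-- the constants -/
theorem gconst (h5 : Five L M 0) (hN : 5 ≤ N) {n : ℕ} (hn : n ≤ 4) :
    𝒦.d ((M 0 / L 0) / (M n / L n)) = 0 := by
  have hb : BB L M n = BB L M 0 := by
    obtain ⟨h1, h2, h3, h4⟩ := h5
    simp only [Nat.zero_add] at h1 h2 h3 h4
    interval_cases n
    · rfl
    · exact h1.symm
    · rw [h1, h2]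
    · rw [h1, h2, h3]
    · rw [h1, h2, h3, h4]
  rw [𝒦.ddiv _ (S.e0 (n := n) (by omega)), S.de (n := 0) (by omega), S.de (n := n) (by omega), hb]
  have := S.e0 (n := n) (by omega)
  field_simp
  ring

/-- analysis at a place where the quotient is large -/
theorem plus (hN : 5 ≤ N) (h5 : Five L M 0) (hb0 : BB L M 0 ≠ 0) (P : Place 𝒦)
    (hE : M 0 / L 0 ∉ P.A) {g : ℕ → K} (hg : ∀ n, g n = (M 0 / L 0) / (M n / L n)) :
    (∀ n, n ≤ 3 → g (n + 1) = g n) ∨
    ∃ c, c ≠ 0 ∧ ∀ n, n ≤ 2 → g (n + 2) - 2 * g (n + 1) + g n = c := by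
  set E := M 0 / L 0 with hEd
  set b := BB L M 0 with hbd
  have hB : ∀ n, n ≤ 4 → BB L M n = b := by
    intro n hn
    obtain ⟨h1, h2, h3, h4⟩ := h5
    simp only [Nat.zero_add] at h1 h2 h3 h4
    interval_cases n
    · rfl
    · exact h1.symm
    · rw [hbd, h1, h2]
    · rw [hbd, h1, h2, h3]
    · rw [hbd, h1, h2, h3, h4]
  have bk : b ∈ 𝒦.k0 := S.Bk' (by omega)
  have bE : b ∈ 𝒦.Ent := S.BE (by omega)
  have bA := P.k0A _ bk
  have E0 : E ≠ 0 := S.e0 (by omega)
  have g0 : ∀ n, n ≤ 4 → g n ≠ 0 := fun n hn => by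
    rw [hg]; exact div_ne_zero E0 (S.e0 (by omega))
  have gk : ∀ n, n ≤ 4 → g n ∈ 𝒦.k0 := fun n hn => by
    apply 𝒦.const0; rw [hg]; exact S.gconst h5 hN hn
  have gA : ∀ n, n ≤ 4 → g n ∈ P.A := fun n hn => P.k0A _ (gk n hn)
  have gm : ∀ n, n ≤ 4 → ¬ P.m (g n) := fun n hn => not_m_k0 (gk n hn) (g0 n hn)
  have Eg : ∀ n, n ≤ 4 → E - g n ∉ P.A := fun n hn => by
    rw [sub_eq_add_neg]; exact nmem_add hE (P.A.neg_mem _ (gA n hn))
  have Eg0 : ∀ n, n ≤ 4 → E - g n ≠ 0 := fun n hn => ne_zero_of_nmem (Eg n hn)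
  -- the a's
  have an : ∀ n, n ≤ 5 → M n - L n = (M 0 - L 0) + n * b := by
    intro n
    induction n with
    | zero => intro _; simp
    | succ n ih =>
      intro hn
      have h1 := hB n (by omega)
      unfold BB at h1
      have h2 := ih (by omega)
      push_cast
      linear_combination h1 + h2
  set a := M 0 - L 0 with had
  have Ln : ∀ n, n ≤ 4 → L n = (a + n * b) * g n / (E - g n) := by
    intro n hn
    have h1 := S.L0 n (by omega)
    have h2 := S.M0 n (by omega)
    have h3 := Eg0 n hn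
    rw [eq_div_iff h3, ← an n (by omega)]
    have h4 : E * L n = g n * M n := by
      rw [hg n]
      field_simp
    linear_combination h4
  have db0 : 𝒦.d b - b ^ 2 ≠ 0 := by
    intro h
    exact hb0 (𝒦.f1 (r := 1) bE 𝒦.done one_ne_zero (by linear_combination h))
  have dbm : ¬ P.m (𝒦.d b - b ^ 2) :=
    not_m_k0 (𝒦.k0.sub_mem (𝒦.dk0 _ bk) (𝒦.k0.pow_mem bk 2)) db0
  -- exact formula
  have exact1 : ∀ n, n ≤ 3 → (a + (n + 1) * b) * ((L (n + 2) - L (n + 1)) - (L (n + 1) - L n)) =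
      𝒦.d b - b ^ 2 - 2 * b * (L (n + 1) - L n) := by
    intro n hn
    have h1 := S.Ystep (n := n) (by omega)
    have h2 := S.swap.Ystep (n := n) (by omega)
    have h3 := hB n (by omega)
    have h4 := hB (n + 1) (by omega)
    have h5 := an (n + 1) (by omega)
    unfold BB at h3 h4
    have h6 : M (n + 1) - M n = (L (n + 1) - L n) + b := by linear_combination h3
    have h7 : M (n + 2) - M (n + 1) = (L (n + 2) - L (n + 1)) + b := by linear_combination h4
    rw [h6, h7, map_add] at h2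
    push_cast at h5
    linear_combination h2 - h1 - ((L (n + 2) - L (n + 1)) - (L (n + 1) - L n)) * h5
  have aA : a ∉ P.A := by
    intro haA
    have Lm : ∀ n, n ≤ 4 → P.m (L n) := by
      intro n hn
      rw [Ln n hn]
      apply m_div _ (Eg n hn)
      exact P.A.mul_mem _ _ (P.A.add_mem _ _ haA (P.A.mul_mem _ _ (P.k0A _ (natCast_mem _ _)) bA))
        (gA n hn)
    apply dbm
    have h1 := exact1 0 (by omega)
    have h2 : 𝒦.d b - b ^ 2 = (a + ((0 : ℕ) + 1) * b) * ((L (0 + 2) - L (0 + 1))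
      - (L (0 + 1) - L 0)) + 2 * b * (L (0 + 1) - L 0) := by rw [h1]; ring
    rw [h2]
    have l0 := Lm 0 (by omega)
    have l1 := Lm 1 (by omega)
    have l2 := Lm 2 (by omega)
    apply m_add
    · apply m_mul
      · apply P.A.add_mem _ _ haA
        apply P.A.mul_mem _ _ _ bA
        apply P.A.add_mem _ _ (P.k0A _ (natCast_mem _ _)) P.A.one_mem
      · exact m_sub (m_sub l2 l1) (m_sub l1 l0)
    · apply m_mul _ (m_sub l1 l0)
      exact P.A.mul_mem _ _ (P.k0A _ (two_mem _)) bA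
  have anA : ∀ n : ℕ, a + n * b ∉ P.A := fun n =>
    nmem_add aA (P.A.mul_mem _ _ (P.k0A _ (natCast_mem _ _)) bA)
  by_cases hL : L 0 ∈ P.A
  swap
  · left
    intro n hn
    have c1 := g0 n (by omega)
    have c2 := g0 (n + 1) (by omega)
    have c3 := Eg0 n (by omega)
    have c4 := Eg0 (n + 1) (by omega)
    have c5 := ne_zero_of_nmem (anA n)
    have c6 := S.L0 n (by omega)
    apply k0_congr (P := P) (gk _ (by omega)) (gk _ (by omega))
    have h1 : P.m ((L (n + 1) - L n) / L n) :=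
      m_div (S.Ymem P (by omega)) (S.Lnmem hL (by omega))
    have h2 : P.m (b / (a + n * b)) := m_div bA (anA n)
    have h3 : P.m ((g (n + 1) - g n) / (E - g (n + 1))) :=
      m_div (sub_mem (gA _ (by omega)) (gA _ (by omega))) (Eg _ (by omega))
    have h4 : L (n + 1) / L n = (1 + b / (a + n * b)) * (g (n + 1) / g n) *
        (1 + (g (n + 1) - g n) / (E - g (n + 1))) := by
      have l0 := Ln n (by omega)
      have l1 := Ln (n + 1) (by omega)
      have e : a + ((n + 1 : ℕ) : K) * b = (a + n * b) + b := by push_cast; ring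
      rw [e] at l1
      rw [l0, l1]
      generalize a + (n : K) * b = s at c5
      field_simp
      ring
    have h5 : g (n + 1) - g n = g n * ((L (n + 1) - L n) / L n) - g (n + 1) *
        (b / (a + n * b)) - g (n + 1) * ((1 + b / (a + n * b)) *
          ((g (n + 1) - g n) / (E - g (n + 1)))) := by
      have h6 : (L (n + 1) - L n) / L n = L (n + 1) / L n - 1 := by field_simp
      rw [h6, h4]
      field_simp
      ring
    rw [h5]
    apply m_sub
    · exact m_sub (m_mul (gA _ (by omega)) h1) (m_mul (gA _ (by omega)) h2)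
    · apply m_mul (gA _ (by omega))
      apply m_mul _ h3
      exact P.A.add_mem _ _ P.A.one_mem (m_mem h2)
  -- now `L n ∈ A`
  have LA : ∀ n, n ≤ 5 → L n ∈ P.A := fun n hn => S.Lmem hL (by omega)
  have hM : M 0 ∉ P.A := by
    intro h
    exact aA (sub_mem h hL)
  have Em : P.m E⁻¹ := m_inv hE
  set p := a / E with hp
  have anp : ∀ n : ℕ, P.m ((a + n * b) / E - p) := by
    intro n
    have : (a + n * b) / E - p = (n * b) * E⁻¹ := by rw [hp]; field_simp; ring
    rw [this]
    exact m_mul (P.A.mul_mem _ _ (P.k0A _ (natCast_mem _ _)) bA) Em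
  have Lq : ∀ n, n ≤ 4 → L n = ((a + n * b) / E) * g n + L n * g n * E⁻¹ := by
    intro n hn
    have c := Eg0 n hn
    rw [Ln n hn]
    field_simp
    ring
  have Lp : ∀ n, n ≤ 4 → P.m (L n - p * g n) := by
    intro n hn
    have : L n - p * g n = ((a + n * b) / E - p) * g n + L n * g n * E⁻¹ := by
      conv_lhs => rw [Lq n hn]
      ring
    rw [this]
    exact m_add (m_mul' (anp n) (gA n hn)) (m_mul (P.A.mul_mem _ _ (LA n (by omega)) (gA n hn)) Em)
  have pA : p ∈ P.A := by
    have : p = (L 0 - (L 0 - p * g 0)) / g 0 := by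
      have := g0 0 (by omega)
      field_simp
      ring
    rw [this]
    exact div_mem_of_not_m (sub_mem hL (m_mem (Lp 0 (by omega)))) (gm 0 (by omega))
  have YY : ∀ n, n ≤ 3 → P.m ((L (n + 2) - L (n + 1)) - (L (n + 1) - L n)) := by
    intro n hn
    have h1 := S.swap.Ym hM (n := n) (by omega)
    convert h1 using 1
    have h3 := hB n (by omega)
    have h4 := hB (n + 1) (by omega)
    unfold BB at h3 h4
    linear_combination h3 - h4
  by_cases hpm : P.m p
  · -- small `p`
    right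
    have Lm : ∀ n, n ≤ 4 → P.m (L n) := by
      intro n hn
      have := m_add (Lp n hn) (m_mul' hpm (gA n hn))
      rwa [sub_add_cancel] at this
    have star : ∀ n, n ≤ 2 → P.m ((a ^ 2 / E) * (g (n + 2) - 2 * g (n + 1) + g n)
        - (𝒦.d b - b ^ 2)) := by
      intro n hn
      -- `a_{n+1} L_j ≡ (a²/E) g_j`
      have key : ∀ j, j ≤ 4 → P.m ((a + (n + 1) * b) * L j - (a ^ 2 / E) * g j) := by
        intro j hj
        have h1 : (a + (n + 1) * b) * L j - (a ^ 2 / E) * g j =
            p * ((j + (n + 1)) * b * g j + L j * g j) + (((n + 1) * b * (j * b)) * g j +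
              (n + 1) * b * (L j * g j)) * E⁻¹ := by
          conv_lhs => rw [Lq j hj]
          rw [hp]
          field_simp
          ring
        have nA : ((n : K) + 1) ∈ P.A := P.A.add_mem _ _ (P.k0A _ (natCast_mem _ _)) P.A.one_mem
        have jA : (j : K) ∈ P.A := P.k0A _ (natCast_mem _ _)
        have ljA := LA j (by omega)
        have gjA := gA j hj
        rw [h1]
        apply m_add
        · apply m_mul' hpm
          exact P.A.add_mem _ _ (P.A.mul_mem _ _ (P.A.mul_mem _ _ (P.A.add_mem _ _ jA nA) bA) gjA)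
            (P.A.mul_mem _ _ ljA gjA)
        · apply m_mul _ Em
          exact P.A.add_mem _ _ (P.A.mul_mem _ _ (P.A.mul_mem _ _ (P.A.mul_mem _ _ nA bA)
            (P.A.mul_mem _ _ jA bA)) gjA) (P.A.mul_mem _ _ (P.A.mul_mem _ _ nA bA)
            (P.A.mul_mem _ _ ljA gjA))
      have k0' := key n (by omega)
      have k1 := key (n + 1) (by omega)
      have k2 := key (n + 2) (by omega)
      have ex := exact1 n (by omega)
      have hy : P.m (2 * b * (L (n + 1) - L n)) :=
        m_mul (P.A.mul_mem _ _ (P.k0A _ (two_mem _)) bA)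
          (m_sub (Lm _ (by omega)) (Lm _ (by omega)))
      have h2 : (a ^ 2 / E) * (g (n + 2) - 2 * g (n + 1) + g n) - (𝒦.d b - b ^ 2) =
          -((a + (n + 1) * b) * L (n + 2) - (a ^ 2 / E) * g (n + 2))
          + (((a + (n + 1) * b) * L (n + 1) - (a ^ 2 / E) * g (n + 1))
            + ((a + (n + 1) * b) * L (n + 1) - (a ^ 2 / E) * g (n + 1)))
          - ((a + (n + 1) * b) * L n - (a ^ 2 / E) * g n) - 2 * b * (L (n + 1) - L n) := by
        linear_combination ex
      rw [h2]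
      exact m_sub (m_sub (m_add (m_neg k2) (m_add k1 k1)) k0') hy
    have dk : ∀ n, n ≤ 2 → g (n + 2) - 2 * g (n + 1) + g n ∈ 𝒦.k0 := fun n hn =>
      𝒦.k0.add_mem (𝒦.k0.sub_mem (gk _ (by omega)) (𝒦.k0.mul_mem (two_mem _) (gk _ (by omega))))
        (gk _ (by omega))
    have c0 : g (0 + 2) - 2 * g (0 + 1) + g 0 ≠ 0 := by
      intro h
      have := star 0 (by omega)
      rw [h, mul_zero, zero_sub] at this
      apply dbm
      have := m_neg this
      rwa [neg_neg] at this
    have dbA : 𝒦.d b - b ^ 2 ∈ P.A := sub_mem (dA bA) (pow_mem bA 2)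
    refine ⟨g (0 + 2) - 2 * g (0 + 1) + g 0, c0, ?_⟩
    intro n hn
    by_contra hne
    have h1 := m_sub (star n hn) (star 0 (by omega))
    have h2 : P.m ((a ^ 2 / E) * ((g (n + 2) - 2 * g (n + 1) + g n)
        - (g (0 + 2) - 2 * g (0 + 1) + g 0))) := by
      convert h1 using 1
      ring
    have h3 : P.m (a ^ 2 / E) := by
      have h4 := m_div' h2 (not_m_k0 (𝒦.k0.sub_mem (dk n hn) (dk 0 (by omega)))
        (sub_ne_zero.mpr hne))
      rwa [mul_div_assoc, div_self (sub_ne_zero.mpr hne), mul_one] at h4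
    have h5 := m_sub (m_mul' h3 (P.k0A _ (dk 0 (by omega)))) (star 0 (by omega))
    rw [sub_sub_cancel] at h5
    exact dbm h5
  · -- `p` of size one
    have d2g : ∀ n, n ≤ 2 → g (n + 2) - 2 * g (n + 1) + g n = 0 := by
      intro n hn
      have h0 := Lp n (by omega)
      have h1 := Lp (n + 1) (by omega)
      have h2 := Lp (n + 2) (by omega)
      have h3 := YY n (by omega)
      have h4 : P.m (p * (g (n + 2) - 2 * g (n + 1) + g n)) := by
        have h5 := m_sub h3 (m_add (m_sub h2 (m_add h1 h1)) h0)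
        convert h5 using 1
        ring
      have h6 := m_div' h4 hpm
      rw [mul_div_cancel_left₀ _ (not_m_ne_zero hpm)] at h6
      exact m_k0 (𝒦.k0.add_mem (𝒦.k0.sub_mem (gk _ (by omega)) (𝒦.k0.mul_mem (two_mem _)
        (gk _ (by omega)))) (gk _ (by omega))) h6
    have g2 : g 2 = g 0 + 2 * (g 1 - g 0) := by
      have := d2g 0 (by omega)
      change g 2 - 2 * g 1 + g 0 = 0 at this
      linear_combination this
    have g3 : g 3 = g 0 + 3 * (g 1 - g 0) := by
      have := d2g 1 (by omega)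
      change g 3 - 2 * g 2 + g 1 = 0 at this
      linear_combination this + 2 * g2
    have g4 : g 4 = g 0 + 4 * (g 1 - g 0) := by
      have := d2g 2 (by omega)
      change g 4 - 2 * g 3 + g 2 = 0 at this
      linear_combination this + 2 * g3 - g2
    by_cases hκ : g 1 - g 0 = 0
    · left
      intro n hn
      rw [hκ, mul_zero, add_zero] at g2 g3 g4
      have g1 : g 1 = g 0 := sub_eq_zero.mp hκ
      interval_cases n
      · exact g1
      · change g 2 = g 1; rw [g2, g1]
      · change g 3 = g 2; rw [g3, g2]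
      · change g 4 = g 3; rw [g4, g3]
    exfalso
    set κ := g 1 - g 0 with hκd
    have κk : κ ∈ 𝒦.k0 := 𝒦.k0.sub_mem (gk 1 (by omega)) (gk 0 (by omega))
    have κA := P.k0A _ κk
    have dg : ∀ n, n ≤ 4 → 𝒦.d (g n) = 0 := fun n hn => by rw [hg]; exact S.gconst h5 hN hn
    have dκ0 : 𝒦.d κ = 0 := by rw [hκd, map_sub, dg 1 (by omega), dg 0 (by omega), sub_zero]
    have g1 : g 1 = g 0 + κ := by rw [hκd]; ring
    set q := p * κ with hq
    have qA : q ∈ P.A := P.A.mul_mem _ _ pA κA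
    have bA2 : (2 : K) ∈ P.A := P.k0A _ (two_mem _)
    have lp0 := Lp 0 (by omega)
    have lp1 := Lp 1 (by omega)
    have lp2 := Lp 2 (by omega)
    have y0q : P.m ((L 1 - L 0) - q) := by
      have := m_sub lp1 lp0
      convert this using 1
      rw [hq, g1]
      ring
    -- the first relation
    have R1 : P.m (𝒦.d q - q ^ 2) := by
      have h1 := dm lp0
      rw [map_sub, 𝒦.dmul, dg 0 (by omega), S.dL 0 (by omega)] at h1
      change P.m (L 0 * (L 1 - L 0) - _) at h1
      have h2 : P.m (g 0 * (𝒦.d p - p * q)) := by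
        have h3 := m_add (m_mul' lp0 (S.Ymem P (n := 0) (by omega)))
          (m_mul (P.A.mul_mem _ _ pA (gA 0 (by omega))) y0q)
        have h4 := m_sub h3 h1
        convert h4 using 1
        ring
      have h5 := m_div' h2 (gm 0 (by omega))
      rw [mul_div_cancel_left₀ _ (g0 0 (by omega))] at h5
      have h6 := m_mul κA h5
      convert h6 using 1
      rw [hq, 𝒦.dmul, dκ0]
      ring
    -- the second relation
    have R2 : P.m (𝒦.d b - b ^ 2 - 4 * q * b - 2 * q ^ 2) := by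
      have ex := exact1 0 (by omega)
      change (a + (((0 : ℕ) : K) + 1) * b) * ((L 2 - L 1) - (L 1 - L 0)) =
        𝒦.d b - b ^ 2 - 2 * b * (L 1 - L 0) at ex
      have l0 := Lq 0 (by omega)
      have l1 := Lq 1 (by omega)
      have l2 := Lq 2 (by omega)
      have el0 : E * L 0 = a * g 0 + L 0 * g 0 := by
        rw [eq_comm, ← sub_eq_zero]
        have : E * L 0 - E * ((a + ((0 : ℕ) : K) * b) / E * g 0 + L 0 * g 0 * E⁻¹) = 0 := by
          rw [← l0, sub_self]
        field_simp at this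
        push_cast at this
        linear_combination -this
      have el1 : E * L 1 = (a + b) * g 1 + L 1 * g 1 := by
        rw [eq_comm, ← sub_eq_zero]
        have : E * L 1 - E * ((a + ((1 : ℕ) : K) * b) / E * g 1 + L 1 * g 1 * E⁻¹) = 0 := by
          rw [← l1, sub_self]
        field_simp at this
        push_cast at this
        linear_combination -this
      have el2 : E * L 2 = (a + 2 * b) * g 2 + L 2 * g 2 := by
        rw [eq_comm, ← sub_eq_zero]
        have : E * L 2 - E * ((a + ((2 : ℕ) : K) * b) / E * g 2 + L 2 * g 2 * E⁻¹) = 0 := by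
          rw [← l2, sub_self]
        field_simp at this
        push_cast at this
        linear_combination -this
      set W := L 2 * g 2 - 2 * (L 1 * g 1) + L 0 * g 0 with hW
      have eW : E * ((L 2 - L 1) - (L 1 - L 0)) = 2 * b * κ + W := by
        rw [hW]
        have : E * ((L 2 - L 1) - (L 1 - L 0)) = E * L 2 - 2 * (E * L 1) + E * L 0 := by ring
        rw [this, el0, el1, el2]
        have h3 : g 2 = g 0 + 2 * κ := g2
        rw [h3, g1]
        ring
      have an1 := anp 1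
      have h1 : ((a + ((1 : ℕ) : K) * b) / E) * (2 * b * κ + W) =
          𝒦.d b - b ^ 2 - 2 * b * (L 1 - L 0) := by
        rw [← ex, ← eW]
        field_simp
        push_cast
        ring
      have hW2 : P.m (W - 2 * p * κ ^ 2) := by
        have h3 : g 2 = g 0 + 2 * κ := g2
        have h4 := m_add (m_sub (m_mul' lp2 (gA 2 (by omega)))
          (m_mul bA2 (m_mul' lp1 (gA 1 (by omega))))) (m_mul' lp0 (gA 0 (by omega)))
        convert h4 using 1
        rw [hW, h3, g1]
        ring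
      have WA : 2 * b * κ + W ∈ P.A := by
        apply P.A.add_mem
        · exact P.A.mul_mem _ _ (P.A.mul_mem _ _ bA2 bA) κA
        · have : W = (W - 2 * p * κ ^ 2) + 2 * p * κ ^ 2 := by ring
          rw [this]
          exact P.A.add_mem _ _ (m_mem hW2) (P.A.mul_mem _ _ (P.A.mul_mem _ _ bA2 pA)
            (pow_mem κA 2))
      have h5 := m_add (m_add (m_mul' an1 WA) (m_mul pA hW2)) (m_mul (P.A.mul_mem _ _ bA2 bA) y0q)
      convert h5 using 1
      have h6 : 𝒦.d b = ((a + ((1 : ℕ) : K) * b) / E) * (2 * b * κ + W) + b ^ 2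
          + 2 * b * (L 1 - L 0) := by rw [h1]; ring
      rw [h6, hq]
      ring
    have dbk := 𝒦.dk0 _ bk
    have dbA := P.k0A _ dbk
    have ddbk := 𝒦.dk0 _ dbk
    have R3 := dm R2
    have eR3 : 𝒦.d (𝒦.d b - b ^ 2 - 4 * q * b - 2 * q ^ 2) = 𝒦.d (𝒦.d b) - 2 * b * 𝒦.d b
        - 4 * (q * 𝒦.d b + b * 𝒦.d q) - 4 * q * 𝒦.d q := by
      have h4 : (4 : K) = 2 * 2 := by norm_num
      rw [map_sub, map_sub, map_sub, pow_two, pow_two, 𝒦.dmul b b, 𝒦.dmul 2, 𝒦.dmul q q, 𝒦.d2,
        𝒦.dmul (4 * q), 𝒦.dmul 4 q, h4, 𝒦.dmul 2 2, 𝒦.d2]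
      ring
    rw [eR3] at R3
    have T : P.m (6 * q * (𝒦.d b + b ^ 2) - (𝒦.d (𝒦.d b) - 2 * b ^ 3)) := by
      have h1 := m_mul (sub_mem qA bA) R2
      have h2 := m_mul (P.A.add_mem _ _ bA qA) R1
      have h3 := m_sub (m_sub (m_add h1 h1) (m_add (m_add h2 h2) (m_add h2 h2))) R3
      convert h3 using 1
      ring
    have c0 : 𝒦.d b + b ^ 2 ≠ 0 := by
      intro h
      refine hb0 (𝒦.f1 (r := -1) bE ?_ (by norm_num) ?_)
      · rw [map_neg, 𝒦.done, neg_zero]
      · linear_combination h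
    have six : (6 : K) ∈ 𝒦.k0 := by exact_mod_cast natCast_mem 𝒦.k0 6
    set c := 6 * (𝒦.d b + b ^ 2) with hc
    have ck : c ∈ 𝒦.k0 := 𝒦.k0.mul_mem six (𝒦.k0.add_mem dbk (𝒦.k0.pow_mem bk 2))
    have cne : c ≠ 0 := mul_ne_zero (by norm_num) c0
    set r := (𝒦.d (𝒦.d b) - 2 * b ^ 3) / c with hr
    have rk : r ∈ 𝒦.k0 := 𝒦.k0.div_mem (𝒦.k0.sub_mem ddbk (𝒦.k0.mul_mem (two_mem _)
      (𝒦.k0.pow_mem bk 3))) ck
    have rA := P.k0A _ rk
    have qr : P.m (q - r) := by
      have h1 := m_div' T (not_m_k0 ck cne)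
      convert h1 using 1
      rw [hr]
      field_simp
      rw [hc]
      ring
    have qr2 := m_mul' qr (P.A.add_mem _ _ qA rA)
    have dr : 𝒦.d r = r ^ 2 := by
      apply k0_congr (P := P) (𝒦.dk0 _ rk) (𝒦.k0.pow_mem rk 2)
      have h1 := dm qr
      rw [map_sub] at h1
      have h2 := m_add (m_sub R1 h1) qr2
      convert h2 using 1
      ring
    have hb' : 𝒦.d b = b ^ 2 + 4 * r * b + 2 * r ^ 2 := by
      have four : (4 : K) ∈ 𝒦.k0 := by exact_mod_cast natCast_mem 𝒦.k0 4
      apply k0_congr (P := P) dbk (𝒦.k0.add_mem (𝒦.k0.add_mem (𝒦.k0.pow_mem bk 2)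
        (𝒦.k0.mul_mem (𝒦.k0.mul_mem four rk) bk)) (𝒦.k0.mul_mem (two_mem _)
        (𝒦.k0.pow_mem rk 2)))
      have h1 := m_mul' qr bA
      have h2 := m_add (m_add R2 (m_add (m_add h1 h1) (m_add h1 h1))) (m_add qr2 qr2)
      convert h2 using 1
      ring
    have r0 : r ≠ 0 := by
      intro h
      rw [h, sub_zero] at qr
      apply hpm
      have h1 := m_div' qr (not_m_k0 κk hκ)
      rwa [hq, mul_div_assoc, div_self hκ, mul_one] at h1
    exact 𝒦.fE2 r0 dr bE hb'

end Sys

end Pool.Agent.TH217.BC
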