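import Pool.Agent.TH217.BA8

/-!
Concrete systems of entire functions.
-/

set_option autoImplicit false

namespace Pool.Agent.TH217.BA

open Filter Metric Real Set Topology Pool.Agent.TH217.BC

/-- a concrete system of entire functions -/
structure CSys (a e : ℕ → ℂ → ℂ) (N : ℕ) : Prop where
  ha : ∀ n, n ≤ N → Differentiable ℂ (a n)
  ha0 : ∀ n, n ≤ N → ∃ x, a n x ≠ 0
  he : ∀ n, n < N → Differentiable ℂ (e n)
  he0 : ∀ n, n < N → ∀ z, e n z ≠ 0
  he1 : ∀ n, n < N → ∃ x, e n x ≠ 1
  r1 : ∀ n, n < N → ∀ z, deriv (e n) z = (a (n + 1) z - a n z) * e n z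
  r2 : ∀ n, n + 1 < N → ∀ z, (deriv (a n) z * (e n z - 1) -
    a n z * ((a (n + 1) z - a n z) * e n z)) * (e (n + 1) z - 1) =
    a n z * (a (n + 1) z * (e n z - 1) - a n z * (e (n + 1) z - 1))

variable {a e : ℕ → ℂ → ℂ} {N : ℕ}

theorem CSys.shift {s N' : ℕ} (S : CSys a e N) (h : s + N' ≤ N) :
    CSys (fun n => a (s + n)) (fun n => e (s + n)) N' where
  ha n hn := S.ha (s + n) (by omega)
  ha0 n hn := S.ha0 (s + n) (by omega)
  he n hn := S.he (s + n) (by omega)
  he0 n hn := S.he0 (s + n) (by omega)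
  he1 n hn := S.he1 (s + n) (by omega)
  r1 n hn := S.r1 (s + n) (by omega)
  r2 n hn := S.r2 (s + n) (by omega)

variable {𝒢 : GC}

section general

variable (A E E' : ℕ → Rg 𝒢) (N : ℕ)

/-- the first chain -/
noncomputable def LL (n : ℕ) : KK 𝒢 :=
  if n < N then em (A n) / (em (E n) - 1)
  else em (A (N - 1)) / (em (E (N - 1)) - 1) +
    dK 𝒢 (em (A (N - 1)) / (em (E (N - 1)) - 1)) / (em (A (N - 1)) / (em (E (N - 1)) - 1))

/-- the second chain -/
noncomputable def MM (n : ℕ) : KK 𝒢 :=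
  if n < N then em (E n) * (em (A n) / (em (E n) - 1))
  else em (E (N - 1)) * (em (A (N - 1)) / (em (E (N - 1)) - 1)) +
    dK 𝒢 (em (E (N - 1)) * (em (A (N - 1)) / (em (E (N - 1)) - 1))) /
      (em (E (N - 1)) * (em (A (N - 1)) / (em (E (N - 1)) - 1)))

end general

theorem em_add (f g : Rg 𝒢) : em (f + g) = em f + em g := map_add _ _ _
theorem em_sub (f g : Rg 𝒢) : em (f - g) = em f - em g := map_sub _ _ _
theorem em_mul (f g : Rg 𝒢) : em (f * g) = em f * em g := map_mul _ _ _
theorem em_one : em (1 : Rg 𝒢) = 1 := map_one _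
theorem em_zero : em (0 : Rg 𝒢) = 0 := map_zero _

/-- the system in the field -/
theorem toSys (S : CSys a e N) (A E E' : ℕ → Rg 𝒢) (hA : ∀ n, n ≤ N → (A n : ℂ → ℂ) = a n)
    (hE : ∀ n, n < N → (E n : ℂ → ℂ) = e n) (hE' : ∀ n, n < N → E n * E' n = 1)
    (hN0 : 0 < N) (hb : ∀ n, n < N → Cl (sm 𝒢) (fun z => a (n + 1) z - a n z)) :
    Sys (DD 𝒢) (LL A E N) (MM A E N) N ∧
      (∀ n, n ≤ N → MM A E N n - LL A E N n = em (A n)) ∧
      (∀ n, n < N → MM A E N n / LL A E N n = em (E n)) := by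
  have A0 : ∀ n, n ≤ N → em (A n) ≠ 0 := by
    intro n hn
    apply em_ne
    intro h
    obtain ⟨x, hx⟩ := S.ha0 n hn
    rw [← hA n hn, h] at hx
    exact hx rfl
  have E1 : ∀ n, n < N → em (E n) - 1 ≠ 0 := by
    intro n hn h
    obtain ⟨x, hx⟩ := S.he1 n hn
    rw [← em_one, ← em_sub] at h
    have h2 : E n - 1 = 0 := em_inj (h.trans em_zero.symm)
    apply hx
    rw [← hE n hn]
    have := congrArg (fun f : Rg 𝒢 => (f : ℂ → ℂ) x) h2
    have h3 : (E n : ℂ → ℂ) x - 1 = 0 := this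
    linear_combination h3
  have E0 : ∀ n, n < N → em (E n) ≠ 0 := by
    intro n hn h
    have := congrArg em (hE' n hn)
    rw [em_mul, h, zero_mul, em_one] at this
    exact zero_ne_one this
  have dE : ∀ n, n < N → dK 𝒢 (em (E n)) = (em (A (n + 1)) - em (A n)) * em (E n) := by
    intro n hn
    rw [dK_em, ← em_sub, ← em_mul]
    congr 1
    apply Subtype.ext; funext z
    have := S.r1 n hn z
    rw [← hE n hn, ← hA n hn.le, ← hA (n + 1) hn] at this
    exact this
  have rel : ∀ n, n + 1 < N → (dK 𝒢 (em (A n)) * (em (E n) - 1) -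
      em (A n) * ((em (A (n + 1)) - em (A n)) * em (E n))) * (em (E (n + 1)) - 1) =
      em (A n) * (em (A (n + 1)) * (em (E n) - 1) - em (A n) * (em (E (n + 1)) - 1)) := by
    intro n hn
    rw [dK_em, ← em_one, ← em_sub, ← em_sub, ← em_sub, ← em_mul, ← em_mul, ← em_mul, ← em_sub,
      ← em_mul, ← em_mul, ← em_mul, ← em_sub, ← em_mul]
    congr 1
    apply Subtype.ext; funext z
    have := S.r2 n hn z
    rw [← hE n (by omega), ← hE (n + 1) hn, ← hA n (by omega), ← hA (n + 1) (by omega)] at this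
    exact this
  have Llt : ∀ n, n < N → LL A E N n = em (A n) / (em (E n) - 1) := fun n hn => by
    unfold LL; rw [if_pos hn]
  have Mlt : ∀ n, n < N → MM A E N n = em (E n) * (em (A n) / (em (E n) - 1)) := fun n hn => by
    unfold MM; rw [if_pos hn]
  have L0 : ∀ n, n < N → LL A E N n ≠ 0 := fun n hn => by
    rw [Llt n hn]; exact div_ne_zero (A0 n hn.le) (E1 n hn)
  have M0 : ∀ n, n < N → MM A E N n ≠ 0 := fun n hn => by
    rw [Mlt n hn]; exact mul_ne_zero (E0 n hn) (div_ne_zero (A0 n hn.le) (E1 n hn))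
  have dLe : ∀ n, n < N → dK 𝒢 (em (A n) / (em (E n) - 1)) =
      (dK 𝒢 (em (A n)) * (em (E n) - 1) - em (A n) * ((em (A (n + 1)) - em (A n)) * em (E n))) /
        (em (E n) - 1) ^ 2 := by
    intro n hn
    have := (DD 𝒢).ddiv (em (A n)) (E1 n hn)
    rw [map_sub, (DD 𝒢).done, sub_zero] at this
    change dK 𝒢 _ = (dK 𝒢 _ * _ - _ * dK 𝒢 _) / _ at this
    rw [this, dE n hn]
  have dL : ∀ n, n < N → dK 𝒢 (LL A E N n) = LL A E N n * (LL A E N (n + 1) - LL A E N n) := by
    intro n hn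
    by_cases h : n + 1 < N
    · have r := rel n h
      have e0 := E1 n hn
      have e1 := E1 (n + 1) h
      rw [Llt n hn, Llt (n + 1) h, dLe n hn]
      field_simp
      linear_combination r
    · have hNn : N = n + 1 := by omega
      have e : LL A E N (n + 1) = LL A E N n + dK 𝒢 (LL A E N n) / LL A E N n := by
        rw [Llt n hn]
        unfold LL
        rw [if_neg (by omega)]
        have : N - 1 = n := by omega
        rw [this]
      have := L0 n hn
      rw [e]
      field_simp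
      ring
  have dM' : ∀ n, n < N → dK 𝒢 (MM A E N n) = MM A E N n * ((em (A (n + 1)) - em (A n)) +
      (LL A E N (n + 1) - LL A E N n)) := by
    intro n hn
    have e : MM A E N n = em (E n) * LL A E N n := by rw [Mlt n hn, Llt n hn]
    rw [e, d_mul, dL n hn, dE n hn]
    ring
  have diff : ∀ n, n < N → MM A E N n - LL A E N n = em (A n) := by
    intro n hn
    have e1 := E1 n hn
    rw [Mlt n hn, Llt n hn]
    field_simp
  have diff' : ∀ n, n ≤ N → 0 < N → MM A E N n - LL A E N n = em (A n) := by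
    intro n hn hN0
    by_cases h : n < N
    · exact diff n h
    · obtain ⟨k, rfl⟩ : ∃ k, n = k + 1 := ⟨n - 1, by omega⟩
      have hNn : N = k + 1 := by omega
      have hk : k < N := by omega
      have e1 : LL A E N (k + 1) = LL A E N k + dK 𝒢 (LL A E N k) / LL A E N k := by
        rw [Llt k hk]
        unfold LL
        rw [if_neg (by omega)]
        have : N - 1 = k := by omega
        rw [this]
      have e2 : MM A E N (k + 1) = MM A E N k + dK 𝒢 (MM A E N k) / MM A E N k := by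
        rw [Mlt k hk]
        unfold MM
        rw [if_neg (by omega)]
        have : N - 1 = k := by omega
        rw [this]
      have m0 := M0 k hk
      have l0 := L0 k hk
      have e3 : dK 𝒢 (MM A E N k) / MM A E N k = (em (A (k + 1)) - em (A k)) +
          dK 𝒢 (LL A E N k) / LL A E N k := by
        rw [dM' k hk, dL k hk]
        field_simp
      have := diff k hk
      rw [e2, e3]
      conv_lhs => rw [e1]
      linear_combination this
  have dM : ∀ n, n < N → dK 𝒢 (MM A E N n) = MM A E N n * (MM A E N (n + 1) - MM A E N n) := by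
    intro n hn
    rw [dM' n hn]
    have h1 := diff' n hn.le (by omega)
    have h2 := diff' (n + 1) hn (by omega)
    congr 1
    linear_combination h1 - h2
  have quo : ∀ n, n < N → MM A E N n / LL A E N n = em (E n) := by
    intro n hn
    have e : MM A E N n = em (E n) * LL A E N n := by rw [Mlt n hn, Llt n hn]
    have := L0 n hn
    rw [e]
    field_simp
  refine ⟨⟨L0, M0, dL, dM, ?_, ?_, ?_, ?_, ?_⟩, fun n hn => diff' n hn hN0, quo⟩
  · intro n hn
    rw [diff' n hn hN0]; exact ⟨_, rfl⟩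
  · intro n hn
    rw [diff' n hn hN0]; exact A0 n hn
  · intro n hn
    rw [diff' n hn.le hN0, diff' (n + 1) hn hN0, ← em_sub]
    apply mem_k0
    have := hb n hn
    rw [← hA n hn.le, ← hA (n + 1) hn] at this
    exact this
  · intro n hn
    rw [quo n hn]; exact ⟨_, rfl⟩
  · intro n hn
    have : LL A E N n / MM A E N n = em (E' n) := by
      have h1 := quo n hn
      have h2 := congrArg em (hE' n hn)
      rw [em_mul, em_one, ← h1] at h2
      have h3 := L0 n hn
      have h4 := M0 n hn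
      field_simp at h2 ⊢
      linear_combination -h2
    rw [this]; exact ⟨_, rfl⟩

/-! ### the context of a system -/

/-- the base family -/
noncomputable def fam (a e : ℕ → ℂ → ℂ) (N : ℕ) : Option (Fin N × Bool) → ℂ → ℂ
  | none => a 0
  | some (i, true) => e i
  | some (i, false) => fun z => (e i z)⁻¹

theorem fam_diff (S : CSys a e N) : ∀ i, Differentiable ℂ (fam a e N i) := by
  rintro (_ | ⟨i, _ | _⟩)
  · exact S.ha 0 (Nat.zero_le _)
  · exact (S.he i i.2).inv (S.he0 i i.2)
  · exact S.he i i.2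

/-- everything about a system in its context -/
theorem ctxSys (S : CSys a e N) (hN : 0 < N) :
    ∃ (𝒢 : GC) (A E : ℕ → Rg 𝒢) (L M : ℕ → KK 𝒢), Sys (DD 𝒢) L M N ∧
      (∀ n, n ≤ N → (A n : ℂ → ℂ) = a n) ∧ (∀ n, n < N → (E n : ℂ → ℂ) = e n) ∧
      (∀ n, n ≤ N → M n - L n = em (A n)) ∧ (∀ n, n < N → M n / L n = em (E n)) ∧
      (∀ n, n < N → UDich (DD 𝒢) (M n / L n)) ∧
      (M 0 - L 0 ∈ (DD 𝒢).k0 ∨ ∃ P : Place (DD 𝒢), M 0 - L 0 ∉ P.A) ∧
      (M 0 - L 0 ∈ (DD 𝒢).k0 → (∀ n, n < N → M n / L n ∈ (DD 𝒢).k0) →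
        ∀ n, n < N → BB L M n = 0) := by
  have hF := fam_diff S
  set 𝒢 := ctx hF with h𝒢
  have cle : ∀ n, n < N → Cl (lg 𝒢) (e n) := fun n hn => ctx_lg hF (some (⟨n, hn⟩, true))
  have cle' : ∀ n, n < N → Cl (lg 𝒢) (fun z => (e n z)⁻¹) := fun n hn =>
    ctx_lg hF (some (⟨n, hn⟩, false))
  have hb : ∀ n, n < N → Cl (sm 𝒢) (fun z => a (n + 1) z - a n z) := fun n hn =>
    (cle n hn).logDeriv (S.he0 n hn) ((S.ha (n + 1) hn).sub (S.ha n hn.le)) (S.r1 n hn)
  have cla : ∀ n, n ≤ N → Cl (lg 𝒢) (a n) := by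
    intro n
    induction n with
    | zero => intro _; exact ctx_lg hF none
    | succ n ih =>
      intro hn
      have := (ih (by omega)).add (hb n (by omega)).up
      have e : (fun z => a n z + (a (n + 1) z - a n z)) = a (n + 1) := by
        funext z; ring
      rwa [e] at this
  classical
  set A : ℕ → Rg 𝒢 := fun n => if h : n ≤ N then ⟨a n, cla n h⟩ else 0 with hAd
  set E : ℕ → Rg 𝒢 := fun n => if h : n < N then ⟨e n, cle n h⟩ else 0 with hEd
  set E' : ℕ → Rg 𝒢 := fun n => if h : n < N then ⟨fun z => (e n z)⁻¹, cle' n h⟩ else 0 with hEd'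
  have hA : ∀ n, n ≤ N → (A n : ℂ → ℂ) = a n := fun n hn => by
    simp only [hAd]; rw [dif_pos hn]
  have hE : ∀ n, n < N → (E n : ℂ → ℂ) = e n := fun n hn => by
    simp only [hEd]; rw [dif_pos hn]
  have hE'' : ∀ n, n < N → (E' n : ℂ → ℂ) = fun z => (e n z)⁻¹ := fun n hn => by
    simp only [hEd']; rw [dif_pos hn]
  have hE' : ∀ n, n < N → E n * E' n = 1 := by
    intro n hn
    apply Subtype.ext; funext z
    change (E n : ℂ → ℂ) z * (E' n : ℂ → ℂ) z = 1
    rw [hE n hn, hE'' n hn]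
    exact mul_inv_cancel₀ (S.he0 n hn z)
  obtain ⟨Sy, hd, hq⟩ := toSys S A E E' hA hE hE' hN hb
  have inv_em : ∀ n, n < N → (em (E n))⁻¹ = em (E' n) := by
    intro n hn
    have := congrArg em (hE' n hn)
    rw [em_mul, em_one] at this
    exact (eq_inv_of_mul_eq_one_right this).symm
  -- small or big
  have place_of : ∀ f : Rg 𝒢, em f ∈ (DD 𝒢).k0 → ¬ Big 𝒢 (f : ℂ → ℂ) := by
    intro f hf hbig
    obtain ⟨P, hP⟩ := exists_place hbig
    exact hP (P.k0A _ hf)
  have dich : ∀ i, ∀ f : Rg 𝒢, (f : ℂ → ℂ) = fam a e N i → Cl (sm 𝒢) (f : ℂ → ℂ) ∨ Big 𝒢 (f : ℂ → ℂ) := by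
    intro i f hf
    rw [hf]
    exact ctx_dich hF i
  have sm_of : ∀ i, ∀ f : Rg 𝒢, (f : ℂ → ℂ) = fam a e N i → em f ∈ (DD 𝒢).k0 →
      Cl (sm 𝒢) (fam a e N i) := by
    intro i f hf hk
    rcases dich i f hf with h | h
    · rwa [hf] at h
    · exact absurd h (place_of f hk)
  refine ⟨𝒢, A, E, _, _, Sy, hA, hE, hd, hq, ?_, ?_, ?_⟩
  · intro n hn
    rw [hq n hn]
    by_cases hk : em (E n) ∈ (DD 𝒢).k0
    · exact Or.inl hk
    right
    have hbig1 : Big 𝒢 (E n : ℂ → ℂ) := by
      rcases dich (some (⟨n, hn⟩, true)) (E n) (hE n hn) with h | h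
      · exact absurd (mem_k0 h) hk
      · exact h
    have hbig2 : Big 𝒢 (E' n : ℂ → ℂ) := by
      rcases dich (some (⟨n, hn⟩, false)) (E' n) (hE'' n hn) with h | h
      · exfalso
        apply hk
        have h1 := (DD 𝒢).k0.inv_mem (mem_k0 h)
        rwa [← inv_em n hn, inv_inv] at h1
      · exact h
    refine ⟨exists_place hbig1, ?_⟩
    rw [inv_em n hn]
    exact exists_place hbig2
  · rw [hd 0 (Nat.zero_le _)]
    rcases dich none (A 0) (hA 0 (Nat.zero_le _)) with h | h
    · exact Or.inl (mem_k0 h)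
    · exact Or.inr (exists_place h)
  · intro ha he n hn
    have hall : ∀ i, Cl (sm 𝒢) (fam a e N i) := by
      rintro (_ | ⟨i, _ | _⟩)
      · apply sm_of none (A 0) (hA 0 (Nat.zero_le _))
        rwa [hd 0 (Nat.zero_le _)] at ha
      · apply sm_of (some (i, false)) (E' i) (hE'' i i.2)
        rw [← inv_em i i.2]
        apply (DD 𝒢).k0.inv_mem
        have := he i i.2
        rwa [hq i i.2] at this
      · apply sm_of (some (i, true)) (E i) (hE i i.2)
        have := he i i.2
        rwa [hq i i.2] at this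
    have hc := ctx_const hF hall (i := some (⟨n, hn⟩, true)) (j := some (⟨n, hn⟩, false))
      (fun z => mul_inv_cancel₀ (S.he0 n hn z))
    have hconst : ∀ z, e n z = e n 0 := hc
    have h1 : dK 𝒢 (em (E n)) = 0 := by
      rw [dK_em]
      have : dRg 𝒢 (E n) = 0 := by
        apply Subtype.ext; funext z
        rw [dRg_apply, hE n hn]
        have e1 : e n = fun _ => e n 0 := funext hconst
        rw [e1]
        simp
      rw [this, em_zero]
    have h2 := Sy.de hn
    rw [hq n hn] at h2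
    change dK 𝒢 (em (E n)) = _ at h2
    rw [h1] at h2
    have h3 : em (E n) ≠ 0 := by
      rw [← hq n hn]; exact Sy.e0 hn
    exact (mul_eq_zero.mp h2.symm).resolve_left h3

end Pool.Agent.TH217.BA
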