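import Pool.Agent.TH217.BD1

/-!
The main theorem on concrete systems: two consecutive differences vanish.
-/

set_option autoImplicit false

namespace Pool.Agent.TH217.BA

open Filter Metric Real Set Topology Pool.Agent.TH217.BC

variable {a e : ℕ → ℂ → ℂ} {N : ℕ}

/-- five equal consecutive differences of functions -/
def FiveF (a : ℕ → ℂ → ℂ) (m : ℕ) : Prop :=
  ∀ j, j ≤ 3 → ∀ z, a (m + j + 1) z - a (m + j) z = a (m + j + 2) z - a (m + j + 1) z

theorem BB_em {𝒢 : GC} {A : ℕ → Rg 𝒢} {L M : ℕ → KK 𝒢}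
    (hd : ∀ n, n ≤ N → M n - L n = em (A n)) {n : ℕ} (hn : n < N) :
    BB L M n = em (A (n + 1) - A n) := by
  unfold BB
  rw [hd n hn.le, hd (n + 1) hn, em_sub]

theorem BB_eq {𝒢 : GC} {A : ℕ → Rg 𝒢} {L M : ℕ → KK 𝒢}
    (hA : ∀ n, n ≤ N → (A n : ℂ → ℂ) = a n)
    (hd : ∀ n, n ≤ N → M n - L n = em (A n)) {n m : ℕ} (hn : n < N) (hm : m < N)
    (h : BB L M n = BB L M m) : ∀ z, a (n + 1) z - a n z = a (m + 1) z - a m z := by
  intro z
  rw [BB_em hd hn, BB_em hd hm] at h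
  have := congrArg (fun f : Rg 𝒢 => (f : ℂ → ℂ) z) (em_inj h)
  have h2 : (A (n + 1) : ℂ → ℂ) z - (A n : ℂ → ℂ) z = (A (m + 1) : ℂ → ℂ) z - (A m : ℂ → ℂ) z :=
    this
  rwa [hA (n + 1) hn, hA n hn.le, hA (m + 1) hm, hA m hm.le] at h2

theorem BB_zero {𝒢 : GC} {A : ℕ → Rg 𝒢} {L M : ℕ → KK 𝒢}
    (hA : ∀ n, n ≤ N → (A n : ℂ → ℂ) = a n)
    (hd : ∀ n, n ≤ N → M n - L n = em (A n)) {n : ℕ} (hn : n < N)
    (h : BB L M n = 0) : ∀ z, a (n + 1) z = a n z := by
  intro z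
  rw [BB_em hd hn, ← em_zero] at h
  have := congrArg (fun f : Rg 𝒢 => (f : ℂ → ℂ) z) (em_inj h)
  have h2 : (A (n + 1) : ℂ → ℂ) z - (A n : ℂ → ℂ) z = 0 := this
  rw [hA (n + 1) hn, hA n hn.le] at h2
  linear_combination h2

theorem eq_BB {𝒢 : GC} {A : ℕ → Rg 𝒢} {L M : ℕ → KK 𝒢}
    (hA : ∀ n, n ≤ N → (A n : ℂ → ℂ) = a n)
    (hd : ∀ n, n ≤ N → M n - L n = em (A n)) {n : ℕ} (hn : n < N) :
    M n - L n = BB L M n ↔ ∀ z, a n z = a (n + 1) z - a n z := by
  rw [hd n hn.le, BB_em hd hn]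
  constructor
  · intro h z
    have := congrArg (fun f : Rg 𝒢 => (f : ℂ → ℂ) z) (em_inj h)
    have h2 : (A n : ℂ → ℂ) z = (A (n + 1) : ℂ → ℂ) z - (A n : ℂ → ℂ) z := this
    rwa [hA (n + 1) hn, hA n hn.le] at h2
  · intro h
    congr 1
    apply Subtype.ext; funext z
    change (A n : ℂ → ℂ) z = (A (n + 1) : ℂ → ℂ) z - (A n : ℂ → ℂ) z
    rw [hA (n + 1) hn, hA n hn.le]
    exact h z

/-- three alternatives -/
theorem alt (S : CSys a e N) (hN : 41 ≤ N) :
    (∃ m, m ≤ 30 ∧ FiveF a m) ∨ (∀ n, n < N → ∀ z, a (n + 1) z = a n z) ∨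
      ((∀ z, a 0 z = a 1 z - a 0 z) ∧ ¬ ∀ z, a 1 z = a 2 z - a 1 z) := by
  obtain ⟨𝒢, A, E, L, M, Sy, hA, hE, hd, hq, hU, ha, hall⟩ := ctxSys S (by omega)
  rcases ha with ha | ⟨P, hP⟩
  swap
  · left
    obtain ⟨m, hm, h1, h2, h3, h4⟩ := Sy.caseB (by omega) P hP
    refine ⟨m, hm, fun j hj z => ?_⟩
    interval_cases j
    · exact BB_eq hA hd (by omega) (by omega) h1 z
    · exact BB_eq hA hd (by omega) (by omega) h2 z
    · exact BB_eq hA hd (by omega) (by omega) h3 z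
    · exact BB_eq hA hd (by omega) (by omega) h4 z
  right
  have hak : ∀ n, n ≤ N → M n - L n ∈ (DD 𝒢).k0 := by
    intro n
    induction n with
    | zero => intro _; exact ha
    | succ n ih =>
      intro hn
      have : M (n + 1) - L (n + 1) = (M n - L n) + BB L M n := by unfold BB; ring
      rw [this]
      exact (DD 𝒢).k0.add_mem (ih (by omega)) (Sy.Bk' (by omega))
  have hsmall : ∀ n, n + 1 < N → M (n + 1) / L (n + 1) ∈ (DD 𝒢).k0 := fun n hn =>
    Sy.smallSmall hn (hak n (by omega)) (hU n (by omega)) (hU (n + 1) hn)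
  rcases hU 0 (by omega) with h0 | ⟨h1, h2⟩
  · left
    intro n hn
    refine BB_zero hA hd hn (hall ha ?_ n hn)
    intro k hk
    cases k with
    | zero => exact h0
    | succ k => exact hsmall k hk
  · right
    have h3 := Sy.smallBig (n := 0) (by omega) ha h1 h2
    refine ⟨(eq_BB hA hd (by omega)).mp h3, ?_⟩
    intro h4
    have h5 := (eq_BB hA hd (n := 1) (by omega)).mpr h4
    exact Sy.smallEnd (by omega) h1 h3 h5 (hsmall 0 (by omega))

theorem fiveZero (S : CSys a e 5) (h : FiveF a 0) : ∀ z, a 1 z = a 0 z := by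
  obtain ⟨𝒢, A, E, L, M, Sy, hA, hE, hd, hq, hU, ha, hall⟩ := ctxSys S (by omega)
  have key : ∀ j, j ≤ 3 → BB L M j = BB L M (j + 1) := by
    intro j hj
    rw [BB_em hd (by omega), BB_em hd (by omega)]
    congr 1
    apply Subtype.ext; funext z
    change (A (j + 1) : ℂ → ℂ) z - (A j : ℂ → ℂ) z =
      (A (j + 1 + 1) : ℂ → ℂ) z - (A (j + 1) : ℂ → ℂ) z
    rw [hA j (by omega), hA (j + 1) (by omega), hA (j + 1 + 1) (by omega)]
    have := h j hj z
    simpa using this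
  have h5 : Five L M 0 := ⟨key 0 (by omega), key 1 (by omega), key 2 (by omega), key 3 (by omega)⟩
  refine BB_zero hA hd (by omega) (Sy.fiveEnd le_rfl h5 (hU 0 (by omega)) ha ?_)
  intro he hk
  refine hall hk ?_ 0 (by omega)
  intro n hn
  have h1 := (DD 𝒢).const0 _ (Sy.gconst h5 le_rfl (n := n) (by omega))
  have h2 : M n / L n = (M 0 / L 0) / ((M 0 / L 0) / (M n / L n)) := by
    rw [div_div_cancel₀ (Sy.e0 (by omega))]
  rw [h2]
  exact (DD 𝒢).k0.div_mem he h1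

/-- two consecutive differences vanish -/
theorem csys_main (S : CSys a e N) (hN : 42 ≤ N) :
    ∃ n, n + 2 ≤ N ∧ (∀ z, a (n + 1) z = a n z) ∧ ∀ z, a (n + 2) z = a (n + 1) z := by
  have five : ∀ m, m ≤ 31 → FiveF a m →
      ∃ n, n + 2 ≤ N ∧ (∀ z, a (n + 1) z = a n z) ∧ ∀ z, a (n + 2) z = a (n + 1) z := by
    intro m hm h
    have h1 := fiveZero (S.shift (s := m) (N' := 5) (by omega)) (by
      intro j hj z
      have := h j hj z
      simpa [add_assoc] using this)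
    have h1' : ∀ z, a (m + 1) z = a m z := h1
    refine ⟨m, by omega, h1', fun z => ?_⟩
    have h2 := h 0 (by omega) z
    have h3 : a (m + 1) z - a m z = a (m + 2) z - a (m + 1) z := h2
    have h4 := h1' z
    linear_combination -h3 + h4
  have alls : ∀ s, s + 2 ≤ N → (∀ n, s + n < N → ∀ z, a (s + n + 1) z = a (s + n) z) →
      ∃ n, n + 2 ≤ N ∧ (∀ z, a (n + 1) z = a n z) ∧ ∀ z, a (n + 2) z = a (n + 1) z := by
    intro s hs h
    exact ⟨s, hs, h 0 (by omega), h 1 (by omega)⟩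
  rcases alt S (by omega) with ⟨m, hm, h⟩ | h | ⟨-, h0⟩
  · exact five m (by omega) h
  · exact alls 0 (by omega) (fun n hn => by
      have := h n (by omega)
      simpa using this)
  · have S1 := S.shift (s := 1) (N' := N - 1) (by omega)
    rcases alt S1 (by omega) with ⟨m, hm, h⟩ | h | ⟨h1, -⟩
    · refine five (1 + m) (by omega) ?_
      intro j hj z
      have := h j hj z
      simp only [← add_assoc] at this
      exact this
    · exact alls 1 (by omega) (fun n hn => h n (by omega))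
    · exact absurd h1 h0

end Pool.Agent.TH217.BA
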