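import Pool.Agent.TH217.BD2

/-!
Applications of places to units: two omitted values, and a special equation.
-/

set_option autoImplicit false

namespace Pool.Agent.TH217.BA

open Filter Metric Real Set Topology Pool.Agent.TH217.BC Pool.Agent.TH217.BC.Place

variable {𝒢 : GC}

theorem logd_k0 {f : Rg 𝒢} (h0 : ∀ z, (f : ℂ → ℂ) z ≠ 0) : dK 𝒢 (em f) / em f ∈ k0 𝒢 := by
  have hb : Differentiable ℂ (fun z => deriv (f : ℂ → ℂ) z / (f : ℂ → ℂ) z) := by
    have h1 : Differentiable ℂ (deriv (f : ℂ → ℂ)) := fun z =>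
      ((Rg.diff f).analyticAt z).deriv.differentiableAt
    exact h1.div (Rg.diff f) h0
  have hc : Cl (sm 𝒢) (fun z => deriv (f : ℂ → ℂ) z / (f : ℂ → ℂ) z) :=
    Cl.logDeriv f.2 h0 hb (fun z => by
      have := h0 z
      field_simp)
  set b : Rg 𝒢 := ⟨_, hc.up⟩ with hbd
  have e : dRg 𝒢 f = b * f := by
    apply Subtype.ext; funext z
    change deriv (f : ℂ → ℂ) z = deriv (f : ℂ → ℂ) z / (f : ℂ → ℂ) z * (f : ℂ → ℂ) z
    have := h0 z
    field_simp
  have hf : em f ≠ 0 := em_ne (fun h => h0 0 (by rw [h]; rfl))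
  rw [dK_em, e, em_mul, mul_div_assoc, div_self hf, mul_one]
  exact mem_k0 hc

section fam

variable {ι : Type*} [Fintype ι] {F : ι → ℂ → ℂ} (hF : ∀ i, Differentiable ℂ (F i))

/-- the elements of the family -/
noncomputable def el (i : ι) : Rg (ctx hF) := ⟨F i, ctx_lg hF i⟩

theorem el_apply (i : ι) (z : ℂ) : (el hF i : ℂ → ℂ) z = F i z := rfl

theorem el_big (i : ι) : em (el hF i) ∈ k0 (ctx hF) ∨
    ∃ P : Place (DD (ctx hF)), em (el hF i) ∉ P.A := by
  rcases ctx_dich hF i with h | h
  · exact Or.inl (mem_k0 (f := el hF i) h)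
  · exact Or.inr (exists_place (φ := el hF i) h)

theorem el_small (i : ι) (h : em (el hF i) ∈ k0 (ctx hF)) : Cl (sm (ctx hF)) (F i) := by
  rcases ctx_dich hF i with h' | h'
  · exact h'
  · obtain ⟨P, hP⟩ := exists_place (φ := el hF i) h'
    exact absurd (P.k0A _ h) hP

end fam

/-- a zero-free entire function omitting another value is constant -/
theorem two_units {U : ℂ → ℂ} (hU : Differentiable ℂ U) (h0 : ∀ z, U z ≠ 0) {c : ℂ} (hc : c ≠ 0)
    (h1 : ∀ z, U z ≠ c) : ∀ z, U z = U 0 := by
  set F : Fin 4 → ℂ → ℂ := ![U, fun z => (U z)⁻¹, fun z => U z - c, fun z => (U z - c)⁻¹] with hFd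
  have h1' : ∀ z, U z - c ≠ 0 := fun z => sub_ne_zero.mpr (h1 z)
  have hF : ∀ i, Differentiable ℂ (F i) := by
    intro i
    fin_cases i
    · exact hU
    · exact hU.inv h0
    · exact hU.sub_const c
    · exact (hU.sub_const c).inv h1'
  set u := em (el hF 0) with hu
  set v := em (el hF 2) with hv
  have e1 : u * em (el hF 1) = 1 := by
    rw [hu, ← em_mul, ← em_one]
    congr 1
    apply Subtype.ext; funext z
    exact mul_inv_cancel₀ (h0 z)
  have e3 : v * em (el hF 3) = 1 := by
    rw [hv, ← em_mul, ← em_one]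
    congr 1
    apply Subtype.ext; funext z
    exact mul_inv_cancel₀ (h1' z)
  have e2 : v = u - em (cst _ c) := by
    rw [hu, hv, ← em_sub]
    congr 1
  have u0 : u ≠ 0 := left_ne_zero_of_mul_eq_one e1
  have v0 : v ≠ 0 := left_ne_zero_of_mul_eq_one e3
  have i1 : em (el hF 1) = u⁻¹ := eq_inv_of_mul_eq_one_right e1
  have i3 : em (el hF 3) = v⁻¹ := eq_inv_of_mul_eq_one_right e3
  rcases el_big hF 0 with h | ⟨P, hP⟩
  · have k1 : em (el hF 1) ∈ k0 (ctx hF) := by rw [i1]; exact (k0 _).inv_mem h
    have k2 : em (el hF 2) ∈ k0 (ctx hF) := by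
      change v ∈ _
      rw [e2]; exact (k0 _).sub_mem h (cst_k0 c)
    have k3 : em (el hF 3) ∈ k0 (ctx hF) := by rw [i3]; exact (k0 _).inv_mem k2
    have hall : ∀ i, Cl (sm (ctx hF)) (F i) := by
      intro i
      fin_cases i
      · exact el_small hF 0 h
      · exact el_small hF 1 k1
      · exact el_small hF 2 k2
      · exact el_small hF 3 k3
    exact ctx_const hF hall (i := 0) (j := 1) (fun z => mul_inv_cancel₀ (h0 z))
  · exfalso
    have hlu := logd_k0 (f := el hF 0) h0
    have hlv := logd_k0 (f := el hF 2) h1'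
    have key : v / u = 1 := by
      apply unit_eq (P := P)
      · have : (DD (ctx hF)).d (v / u) / (v / u) = dK _ v / v - dK _ u / u := by
          rw [(DD (ctx hF)).ddiv _ u0]
          change (dK _ v * u - v * dK _ u) / u ^ 2 / (v / u) = _
          field_simp
        rw [this]
        exact (k0 _).sub_mem hlv hlu
      · exact div_ne_zero v0 u0
      · exact (k0 _).one_mem
      · exact one_ne_zero
      · have : v / u - 1 = -(em (cst _ c) / u) := by
          rw [e2]; field_simp; ring
        rw [this]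
        exact m_neg (m_div (P.k0A _ (cst_k0 c)) hP)
    rw [div_eq_one_iff_eq u0, e2] at key
    have h5 : em (cst (ctx hF) c) = em 0 := by
      rw [em_zero]; linear_combination -key
    have h6 := congrArg (fun f : Rg (ctx hF) => (f : ℂ → ℂ) 0) (em_inj h5)
    exact hc h6

/-- the special equation -/
theorem special {h : ℂ → ℂ} (hh : Differentiable ℂ h) (h0 : ∀ z, h z ≠ 0) {a b A B C1 C2 : ℂ}
    (ha : a ≠ 0) (hb : b ≠ 0) (hA : A ≠ 0) (hB : B ≠ 0)
    (heq : ∀ z, A / a * Complex.exp (a * z) + (A * C1 - A * b * z) =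
      h z * (B * C2 - B / b * z - B / a * Complex.exp (-(a * z)))) : False := by
  set u : ℂ → ℂ := fun z => Complex.exp (a * z) with hud
  set u' : ℂ → ℂ := fun z => Complex.exp (-(a * z)) with hud'
  have hu : Differentiable ℂ u := by
    simp only [hud]; fun_prop
  have hu' : Differentiable ℂ u' := by
    simp only [hud']; fun_prop
  have u0' : ∀ z, u z ≠ 0 := fun z => Complex.exp_ne_zero _
  have uu' : ∀ z, u z * u' z = 1 := fun z => by
    simp only [hud, hud']
    rw [← Complex.exp_add, add_neg_cancel, Complex.exp_zero]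
  set F : Fin 4 → ℂ → ℂ := ![u, u', h, fun z => (h z)⁻¹] with hFd
  have hF : ∀ i, Differentiable ℂ (F i) := by
    intro i
    fin_cases i
    · exact hu
    · exact hu'
    · exact hh
    · exact hh.inv h0
  set U := em (el hF 0) with hU
  set H := em (el hF 2) with hH
  set Zz := em (idd (ctx hF)) with hZz
  set c : ℂ → KK (ctx hF) := fun x => em (cst (ctx hF) x) with hcd
  have c_k0 : ∀ x, c x ∈ k0 (ctx hF) := fun x => cst_k0 x
  have z_k0 : Zz ∈ k0 (ctx hF) := mem_k0 (f := idd (ctx hF)) Cl.id
  have e1 : U * em (el hF 1) = 1 := by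
    rw [hU, ← em_mul, ← em_one]
    congr 1
    apply Subtype.ext; funext z
    exact uu' z
  have e3 : H * em (el hF 3) = 1 := by
    rw [hH, ← em_mul, ← em_one]
    congr 1
    apply Subtype.ext; funext z
    exact mul_inv_cancel₀ (h0 z)
  have U0 : U ≠ 0 := left_ne_zero_of_mul_eq_one e1
  have H0 : H ≠ 0 := left_ne_zero_of_mul_eq_one e3
  have i1 : em (el hF 1) = U⁻¹ := eq_inv_of_mul_eq_one_right e1
  have i3 : em (el hF 3) = H⁻¹ := eq_inv_of_mul_eq_one_right e3
  set q := c (B * C2) - c (B / b) * Zz with hq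
  set p := c (A * C1) - c (A * b) * Zz with hp
  have eq1 : c (A / a) * U + p = H * (q - c (B / a) * U⁻¹) := by
    rw [← i1, hp, hq]
    simp only [hcd, hU, hH, hZz]
    rw [← em_mul, ← em_mul, ← em_mul, ← em_mul, ← em_sub, ← em_sub, ← em_sub, ← em_add, ← em_mul]
    congr 1
    apply Subtype.ext; funext z
    exact heq z
  have q_k0 : q ∈ k0 (ctx hF) :=
    (k0 _).sub_mem (c_k0 _) ((k0 _).mul_mem (c_k0 _) z_k0)
  have p_k0 : p ∈ k0 (ctx hF) :=
    (k0 _).sub_mem (c_k0 _) ((k0 _).mul_mem (c_k0 _) z_k0)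
  have cne : ∀ x, x ≠ 0 → c x ≠ 0 := by
    intro x hx
    apply em_ne
    intro h
    have := congrArg (fun f : Rg (ctx hF) => (f : ℂ → ℂ) 0) h
    exact hx this
  have q0 : q ≠ 0 := by
    intro h
    have h1 : c (B / b) * Zz = c (B * C2) := by
      rw [hq] at h; linear_combination -h
    simp only [hcd, hZz] at h1
    rw [← em_mul] at h1
    have h2 := em_inj h1
    have h3 := congrArg (fun f : Rg (ctx hF) => (f : ℂ → ℂ) 0) h2
    have h4 := congrArg (fun f : Rg (ctx hF) => (f : ℂ → ℂ) 1) h2
    have h5 : B / b * 0 = B * C2 := h3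
    have h6 : B / b * 1 = B * C2 := h4
    have : B / b = 0 := by linear_combination h6 - h5
    exact (div_ne_zero hB hb) this
  rcases el_big hF 0 with hk | ⟨P, hP⟩
  · -- everything small
    have k1 : em (el hF 1) ∈ k0 (ctx hF) := by rw [i1]; exact (k0 _).inv_mem hk
    have g0 : q - c (B / a) * U⁻¹ ≠ 0 := by
      intro h
      have h1 : c (B * C2) - c (B / b) * Zz = c (B / a) * em (el hF 1) := by
        rw [i1]; linear_combination h
      have h2 : cst (ctx hF) (B * C2) - cst (ctx hF) (B / b) * idd (ctx hF) =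
          cst (ctx hF) (B / a) * el hF 1 := by
        apply em_inj
        rw [em_sub, em_mul, em_mul]
        exact h1
      have h3 := congrArg (fun f : Rg (ctx hF) => (f : ℂ → ℂ) (b * C2)) h2
      have h4 : B * C2 - B / b * (b * C2) = B / a * u' (b * C2) := h3
      have h5 : B * C2 - B / b * (b * C2) = 0 := by field_simp; ring
      rw [h5] at h4
      exact mul_ne_zero (div_ne_zero hB ha) (Complex.exp_ne_zero _) h4.symm
    have k2 : em (el hF 2) ∈ k0 (ctx hF) := by
      have : H = (c (A / a) * U + p) / (q - c (B / a) * U⁻¹) := by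
        rw [eq_div_iff g0]; exact eq1.symm
      change H ∈ _
      rw [this]
      exact (k0 _).div_mem ((k0 _).add_mem ((k0 _).mul_mem (c_k0 _) hk) p_k0)
        ((k0 _).sub_mem q_k0 ((k0 _).mul_mem (c_k0 _) ((k0 _).inv_mem hk)))
    have k3 : em (el hF 3) ∈ k0 (ctx hF) := by rw [i3]; exact (k0 _).inv_mem k2
    have hall : ∀ i, Cl (sm (ctx hF)) (F i) := by
      intro i
      fin_cases i
      · exact el_small hF 0 hk
      · exact el_small hF 1 k1
      · exact el_small hF 2 k2
      · exact el_small hF 3 k3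
    have hc := ctx_const hF hall (i := 0) (j := 1) uu'
    have h1 : Complex.exp (a * (1 / a)) = Complex.exp (a * 0) := hc (1 / a)
    rw [mul_one_div_cancel ha, mul_zero, Complex.exp_zero] at h1
    have h2 := congrArg (fun z : ℂ => ‖z‖) h1
    simp only [Complex.norm_exp, Complex.one_re, norm_one] at h2
    have := Real.add_one_le_exp 1
    linarith
  · have Um : P.m U⁻¹ := m_inv hP
    have cA : ∀ x, c x ∈ P.A := fun x => P.k0A _ (c_k0 x)
    have gm : ¬ P.m (q - c (B / a) * U⁻¹) := by
      intro h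
      have h1 := m_add h (m_mul (cA (B / a)) Um)
      rw [sub_add_cancel] at h1
      exact q0 (m_k0 q_k0 h1)
    have g0 := not_m_ne_zero gm
    have key : H / U = c (A / a) / q := by
      have hlu := logd_k0 (f := el hF 0) u0'
      have hlv := logd_k0 (f := el hF 2) h0
      apply unit_eq (P := P)
      · have : (DD (ctx hF)).d (H / U) / (H / U) = dK _ H / H - dK _ U / U := by
          rw [(DD (ctx hF)).ddiv _ U0]
          change (dK _ H * U - H * dK _ U) / U ^ 2 / (H / U) = _
          field_simp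
        rw [this]
        exact (k0 _).sub_mem hlv hlu
      · exact div_ne_zero H0 U0
      · exact (k0 _).div_mem (c_k0 _) q_k0
      · exact div_ne_zero (cne _ (div_ne_zero hA ha)) q0
      · have hH' : H / U = (c (A / a) + p * U⁻¹) / (q - c (B / a) * U⁻¹) := by
          rw [eq_div_iff g0, div_mul_eq_mul_div, ← eq1]
          field_simp
        have : H / U - c (A / a) / q =
            (p * q + c (A / a) * c (B / a)) * U⁻¹ / (q - c (B / a) * U⁻¹) / q := by
          rw [hH', div_sub_div _ _ g0 q0, div_div]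
          congr 1
          ring
        rw [this]
        exact m_div' (m_div' (m_mul (P.A.add_mem _ _ (P.A.mul_mem _ _ (P.k0A _ p_k0)
          (P.k0A _ q_k0)) (P.A.mul_mem _ _ (cA _) (cA _))) Um) gm) (not_m_k0 q_k0 q0)
    have h1 : H * q = c (A / a) * U := by
      rw [div_eq_div_iff U0 q0] at key
      exact key
    have h2 : p * q = - (c (A / a) * c (B / a)) := by
      have h3 : (c (A / a) * U + p) * q = c (A / a) * U * (q - c (B / a) * U⁻¹) := by
        rw [eq1, ← h1]; ring
      have h4 : c (A / a) * U * (q - c (B / a) * U⁻¹) = c (A / a) * U * q - c (A / a) * c (B / a) := by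
        field_simp
      rw [h4] at h3
      linear_combination h3
    -- as functions
    have h5 : (cst (ctx hF) (A * C1) - cst (ctx hF) (A * b) * idd (ctx hF)) *
        (cst (ctx hF) (B * C2) - cst (ctx hF) (B / b) * idd (ctx hF)) =
        0 - cst (ctx hF) (A / a) * cst (ctx hF) (B / a) := by
      apply em_inj
      rw [em_mul, em_sub, em_sub, em_sub, em_mul, em_mul, em_mul, em_zero, zero_sub]
      exact h2
    have h6 := congrArg (fun f : Rg (ctx hF) => (f : ℂ → ℂ) (C1 / b)) h5
    have h7 : (A * C1 - A * b * (C1 / b)) * (B * C2 - B / b * (C1 / b)) = 0 - A / a * (B / a) := h6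
    have h8 : A * C1 - A * b * (C1 / b) = 0 := by field_simp; ring
    rw [h8, zero_mul] at h7
    have h9 : A / a * (B / a) = 0 := by linear_combination h7
    exact mul_ne_zero (div_ne_zero hA ha) (div_ne_zero hB ha) h9

end Pool.Agent.TH217.BA
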