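import Pool.Agent.TH217.BE1

/-!
The descent.
-/

set_option autoImplicit false

namespace Pool.Agent.TH217.BA

open Filter Metric Set Topology Pool.Agent.TH217.BC

/-- the goal, with non-degenerate exponents -/
def Pg (f g : ℂ → ℂ) : Prop :=
  (∃ c : ℂ, ∀ z, f z = c * g z) ∨
  (∃ m l b d : ℂ, m ≠ 0 ∧ l ≠ 0 ∧ ∀ z, f z = Complex.exp (m * z + b) ∧
    g z = Complex.exp (l * z + d)) ∨
  (∃ a b A B : ℂ, a ≠ 0 ∧ b ≠ 0 ∧ A ≠ 0 ∧ B ≠ 0 ∧ ∀ z, f z = A * (Complex.exp (a * z) - b) ∧
    g z = B * (Complex.exp (-(a * z)) - b⁻¹))

theorem ent_mul {u v : ℂ → ℂ} (hu : Differentiable ℂ u) (hv : Differentiable ℂ v)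
    (h : ∀ z, u z * v z = 0) (hv0 : ∃ x, v x ≠ 0) : ∀ z, u z = 0 := by
  have h1 : AnalyticOnNhd ℂ u univ := fun z _ => hu.analyticAt z
  have h2 : AnalyticOnNhd ℂ v univ := fun z _ => hv.analyticAt z
  rcases AnalyticOnNhd.eq_zero_or_eq_zero_of_mul_eq_zero h1 h2 (fun z _ => h z)
    isPreconnected_univ with h | h
  · exact fun z => h z (mem_univ z)
  · obtain ⟨x, hx⟩ := hv0
    exact absurd (h x (mem_univ x)) hx

/-- two functions with the same derivative differ by a constant -/
theorem antideriv {f F : ℂ → ℂ} (hf : Differentiable ℂ f) (hF : ∀ z, HasDerivAt F (deriv f z) z) :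
    ∃ C, ∀ z, f z = F z + C := by
  have hFd : Differentiable ℂ F := fun z => (hF z).differentiableAt
  have h : ∀ z, deriv (fun z => f z - F z) z = 0 := by
    intro z
    have := ((hf z).hasDerivAt.sub (hF z)).deriv
    rw [sub_self] at this
    exact this
  refine ⟨f 0 - F 0, fun z => ?_⟩
  have := is_const_of_deriv_eq_zero (hf.sub hFd) h z 0
  change f z - F z = f 0 - F 0 at this
  linear_combination this

theorem hasDeriv_exp (m b z : ℂ) :
    HasDerivAt (fun z => Complex.exp (m * z + b)) (m * Complex.exp (m * z + b)) z := by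
  have h1 : HasDerivAt (fun z : ℂ => m * z + b) (m * 1) z :=
    ((hasDerivAt_id z).const_mul m).add_const b
  exact h1.cexp.congr_deriv (by ring)

theorem exists_exp {m b w : ℂ} (hm : m ≠ 0) (hw : w ≠ 0) : ∃ z, Complex.exp (m * z + b) = w := by
  refine ⟨(Complex.log w - b) / m, ?_⟩
  have : m * ((Complex.log w - b) / m) + b = Complex.log w := by field_simp; ring
  rw [this, Complex.exp_log hw]

open Complex in
/-- one step of the descent -/
theorem step {f g h : ℂ → ℂ} (hf : Differentiable ℂ f) (hg : Differentiable ℂ g)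
    (hh : Differentiable ℂ h) (h0 : ∀ z, h z ≠ 0) (hfg : ∀ z, f z = h z * g z)
    (hf' : ∃ z, deriv f z ≠ 0) (hP : Pg (deriv f) (deriv g)) :
    Pg f g := by
  have zf : ∀ z, f z = 0 → g z = 0 := fun z hz => by
    rw [hfg] at hz
    exact (mul_eq_zero.mp hz).resolve_left (h0 z)
  have zg : ∀ z, g z = 0 → f z = 0 := fun z hz => by rw [hfg, hz, mul_zero]
  rcases hP with ⟨c, hc⟩ | ⟨m, l, b, d, hm, hl, hE⟩ | ⟨a, b, A, B, ha, hb, hA, hB, hE⟩
  · -- constant ratio of the derivatives
    left
    have hc0 : c ≠ 0 := by
      rintro rfl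
      obtain ⟨z, hz⟩ := hf'
      exact hz (by rw [hc, zero_mul])
    obtain ⟨C, hC⟩ := antideriv (F := fun z => c * g z) hf (fun z => by
      rw [hc]; exact (hg z).hasDerivAt.const_mul c)
    by_cases hC0 : C = 0
    · exact ⟨c, fun z => by rw [hC, hC0, add_zero]⟩
    · have h1 : ∀ z, h z ≠ c := by
        intro z hz
        have := hC z
        rw [hfg, hz] at this
        apply hC0
        linear_combination -this
      have h2 := two_units hh h0 hc0 h1
      exact ⟨h 0, fun z => by rw [hfg, h2]⟩
  · -- exponentials
    obtain ⟨C1, hC1⟩ := antideriv (F := fun z => exp (m * z + b) / m) hf (fun z => by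
      rw [(hE z).1]
      exact ((hasDeriv_exp m b z).div_const m).congr_deriv (by field_simp))
    obtain ⟨C2, hC2⟩ := antideriv (F := fun z => exp (l * z + d) / l) hg (fun z => by
      rw [(hE z).2]
      exact ((hasDeriv_exp l d z).div_const l).congr_deriv (by field_simp))
    by_cases h1 : C1 = 0
    · -- no zeros
      have h2 : C2 = 0 := by
        by_contra h2
        obtain ⟨z, hz⟩ := exists_exp (m := l) (b := d) (w := -(l * C2)) hl
          (neg_ne_zero.mpr (mul_ne_zero hl h2))
        have h3 : g z = 0 := by
          rw [hC2, hz]; field_simp; ring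
        have h4 := zg z h3
        rw [hC1, h1, add_zero] at h4
        exact (div_ne_zero (exp_ne_zero _) hm) h4
      right; left
      refine ⟨m, l, b - log m, d - log l, hm, hl, fun z => ⟨?_, ?_⟩⟩
      · rw [hC1, h1, add_zero, ← add_sub_assoc, exp_sub, exp_log hm]
      · rw [hC2, h2, add_zero, ← add_sub_assoc, exp_sub, exp_log hl]
    · obtain ⟨z1, hz1⟩ := exists_exp (m := m) (b := b) (w := -(m * C1)) hm
        (neg_ne_zero.mpr (mul_ne_zero hm h1))
      have f1 : f z1 = 0 := by rw [hC1, hz1]; field_simp; ring
      have g1 := zf z1 f1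
      have hz2 : exp (l * z1 + d) = -(l * C2) := by
        rw [hC2] at g1
        field_simp at g1
        linear_combination g1
      -- periods
      have p1 : ∃ n : ℤ, l = n * m := by
        have h2 : f (z1 + 2 * Real.pi * I / m) = 0 := by
          rw [hC1]
          have : exp (m * (z1 + 2 * Real.pi * I / m) + b) = exp (m * z1 + b) := by
            have e : m * (z1 + 2 * Real.pi * I / m) + b = (m * z1 + b) + 2 * Real.pi * I := by
              field_simp; ring
            rw [e, exp_add, exp_two_pi_mul_I, mul_one]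
          simp only [this, hz1]
          field_simp; ring
        have h3 := zf _ h2
        rw [hC2] at h3
        have h4 : exp (l * (z1 + 2 * Real.pi * I / m) + d) = -(l * C2) := by
          field_simp at h3 ⊢
          linear_combination h3
        have h5 : exp (l * (z1 + 2 * Real.pi * I / m) + d) =
            exp (l * z1 + d) * exp (l / m * (2 * Real.pi * I)) := by
          rw [← exp_add]; congr 1; field_simp; ring
        rw [h5, ← hz2] at h4
        have h6 : exp (l / m * (2 * Real.pi * I)) = 1 :=
          mul_left_cancel₀ (exp_ne_zero (l * z1 + d)) (by rw [h4, mul_one])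
        obtain ⟨n, hn⟩ := exp_eq_one_iff.mp h6
        refine ⟨n, ?_⟩
        have h7 := mul_right_cancel₀ two_pi_I_ne_zero hn
        rwa [div_eq_iff hm] at h7
      have p2 : ∃ n : ℤ, m = n * l := by
        have h2 : g (z1 + 2 * Real.pi * I / l) = 0 := by
          rw [hC2]
          have : exp (l * (z1 + 2 * Real.pi * I / l) + d) = exp (l * z1 + d) := by
            have e : l * (z1 + 2 * Real.pi * I / l) + d = (l * z1 + d) + 2 * Real.pi * I := by
              field_simp; ring
            rw [e, exp_add, exp_two_pi_mul_I, mul_one]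
          simp only [this, hz2]
          field_simp; ring
        have h3 := zg _ h2
        rw [hC1] at h3
        have h4 : exp (m * (z1 + 2 * Real.pi * I / l) + b) = -(m * C1) := by
          field_simp at h3 ⊢
          linear_combination h3
        have h5 : exp (m * (z1 + 2 * Real.pi * I / l) + b) =
            exp (m * z1 + b) * exp (m / l * (2 * Real.pi * I)) := by
          rw [← exp_add]; congr 1; field_simp; ring
        rw [h5, ← hz1] at h4
        have h6 : exp (m / l * (2 * Real.pi * I)) = 1 :=
          mul_left_cancel₀ (exp_ne_zero (m * z1 + b)) (by rw [h4, mul_one])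
        obtain ⟨n, hn⟩ := exp_eq_one_iff.mp h6
        refine ⟨n, ?_⟩
        have h7 := mul_right_cancel₀ two_pi_I_ne_zero hn
        rwa [div_eq_iff hl] at h7
      obtain ⟨n, hn⟩ := p1
      obtain ⟨n', hn'⟩ := p2
      have hnn : n * n' = 1 := by
        have : ((n * n' : ℤ) : ℂ) = 1 := by
          have h3 : m = (n' * n : ℂ) * m := by
            conv_lhs => rw [hn', hn]
            ring
          have h4 := mul_right_cancel₀ hm (show (1 : ℂ) * m = (n' * n : ℂ) * m by
            rw [one_mul]; exact h3)
          push_cast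
          rw [mul_comm]
          exact h4.symm
        exact_mod_cast this
      have hf1 : ∀ z, f z = exp b / m * (exp (m * z) - exp (m * z1)) := by
        intro z
        have e1 : C1 = -(exp (m * z1 + b)) / m := by rw [hz1]; field_simp
        rw [hC1, e1, exp_add, exp_add]
        field_simp
        ring
      have hg1 : ∀ z, g z = exp d / l * (exp (l * z) - exp (l * z1)) := by
        intro z
        have e1 : C2 = -(exp (l * z1 + d)) / l := by rw [hz2]; field_simp
        rw [hC2, e1, exp_add, exp_add]
        field_simp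
        ring
      rcases Int.eq_one_or_neg_one_of_mul_eq_one hnn with h2 | h2
      · left
        have hlm : l = m := by rw [hn, h2]; simp
        refine ⟨exp (b - d), fun z => ?_⟩
        rw [hf1, hg1, hlm, exp_sub]
        have := exp_ne_zero d
        field_simp
      · right; right
        have hlm : l = -m := by rw [hn, h2]; simp
        refine ⟨m, exp (m * z1), exp b / m, exp d / l, hm, exp_ne_zero _,
          div_ne_zero (exp_ne_zero _) hm, div_ne_zero (exp_ne_zero _) hl, fun z => ⟨hf1 z, ?_⟩⟩
        rw [hg1, ← exp_neg]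
        have e1 : l * z = -(m * z) := by rw [hlm]; ring
        have e2 : l * z1 = -(m * z1) := by rw [hlm]; ring
        rw [e1, e2]
  · exfalso
    obtain ⟨K1, hK1⟩ := antideriv (F := fun z => A * (exp (a * z + 0) / a - b * z)) hf (fun z => by
      rw [(hE z).1]
      have h1 := (hasDeriv_exp a 0 z).div_const a
      have h2 : HasDerivAt (fun z : ℂ => b * z) (b * 1) z := (hasDerivAt_id z).const_mul b
      exact ((h1.sub h2).const_mul A).congr_deriv (by rw [add_zero]; field_simp))
    obtain ⟨K2, hK2⟩ := antideriv
      (F := fun z => B * (exp (-a * z + 0) / (-a) - b⁻¹ * z)) hg (fun z => by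
      rw [(hE z).2]
      have h1 := (hasDeriv_exp (-a) 0 z).div_const (-a)
      have h2 : HasDerivAt (fun z : ℂ => b⁻¹ * z) (b⁻¹ * 1) z := (hasDerivAt_id z).const_mul b⁻¹
      exact ((h1.sub h2).const_mul B).congr_deriv (by rw [add_zero, neg_mul]; field_simp))
    refine special hh h0 (a := a) (b := b) (A := A) (B := B) (C1 := K1 / A) (C2 := K2 / B)
      ha hb hA hB (fun z => ?_)
    have e1 := hK1 z
    have e2 := hK2 z
    have e3 := hfg z
    simp only [add_zero, neg_mul] at e1 e2
    have e4 : A / a * exp (a * z) + (A * (K1 / A) - A * b * z) = f z := by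
      rw [e1]; field_simp; ring
    have e5 : B * (K2 / B) - B / b * z - B / a * exp (-(a * z)) = g z := by
      rw [e2]; field_simp; ring
    rw [e4, e5]
    exact e3

end Pool.Agent.TH217.BA
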